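import Pool.Agent.V7H18.RP.Last

/-!
# Sums of `k` values: the trivial upper bound for the density
-/

set_option autoImplicit false

namespace Pool.Agent.V7H18.RP

open Finset Filter
open scoped Nat Topology

theorem fv_lower (d : ℕ) (γ b : ℝ) (α : Fin (d + 1) → ℝ) : ∃ L : ℝ, 0 ≤ L ∧ ∀ n : ℕ, 1 ≤ n →
    γ * (n : ℝ) ^ (d + 2) - L * (n : ℝ) ^ (d + 1) ≤ fv d γ b α n := by
  refine ⟨(∑ j, |α j|) + |b|, by positivity, ?_⟩
  intro n hn
  have hn1 : (1 : ℝ) ≤ n := by exact_mod_cast hn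
  have h1 : ∀ j : Fin (d + 1), -(|α j| * (n : ℝ) ^ (d + 1)) ≤ α j * (n : ℝ) ^ ((j : ℕ) + 1) := by
    intro j
    have h2 : (n : ℝ) ^ ((j : ℕ) + 1) ≤ (n : ℝ) ^ (d + 1) := pow_le_pow_right₀ hn1 (by omega)
    have h3 : -|α j| ≤ α j := neg_abs_le _
    have h4 : |α j| * (n : ℝ) ^ ((j : ℕ) + 1) ≤ |α j| * (n : ℝ) ^ (d + 1) :=
      mul_le_mul_of_nonneg_left h2 (abs_nonneg _)
    have h5 : -|α j| * (n : ℝ) ^ ((j : ℕ) + 1) ≤ α j * (n : ℝ) ^ ((j : ℕ) + 1) :=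
      mul_le_mul_of_nonneg_right h3 (by positivity)
    linarith
  have h6 : -(|b| * (n : ℝ) ^ (d + 1)) ≤ b := by
    have h7 : -|b| ≤ b := neg_abs_le _
    have h8 : |b| ≤ |b| * (n : ℝ) ^ (d + 1) := le_mul_of_one_le_right (abs_nonneg _) (one_le_pow₀ hn1)
    linarith
  have h9 : -((∑ j, |α j|) * (n : ℝ) ^ (d + 1)) ≤ ∑ j, α j * (n : ℝ) ^ ((j : ℕ) + 1) := by
    rw [sum_mul, ← sum_neg_distrib]
    exact sum_le_sum fun j _ => h1 j
  unfold fv Pool.Agent.V7H89.GP.pf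
  linarith

theorem fv_bdd (d : ℕ) {γ : ℝ} (hγ : 0 < γ) (b : ℝ) (α : Fin (d + 1) → ℝ) : ∃ B : ℝ, 0 ≤ B ∧ ∀ n : ℕ,
    -B ≤ fv d γ b α n := by
  obtain ⟨L, hL, h⟩ := fv_lower d γ b α
  obtain ⟨n1, hn1⟩ : ∃ n1 : ℕ, n1 = ⌈L / γ⌉₊ + 1 := ⟨_, rfl⟩
  refine ⟨∑ n ∈ range n1, |fv d γ b α n|, by positivity, ?_⟩
  intro n
  rcases lt_or_ge n n1 with h1 | h1
  · have h2 : |fv d γ b α n| ≤ ∑ n ∈ range n1, |fv d γ b α n| :=
      single_le_sum (f := fun n => |fv d γ b α n|) (fun _ _ => abs_nonneg _) (mem_range.2 h1)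
    have h3 := neg_abs_le (fv d γ b α n)
    linarith
  · have h2 := h n (by omega)
    have h3 : L / γ ≤ n := by
      refine (Nat.le_ceil _).trans ?_
      exact_mod_cast (by omega : ⌈L / γ⌉₊ ≤ n)
    rw [div_le_iff₀ hγ] at h3
    have h4 : 0 ≤ ∑ n ∈ range n1, |fv d γ b α n| := by positivity
    have h5 : γ * (n : ℝ) ^ (d + 2) - L * (n : ℝ) ^ (d + 1) = (n * γ - L) * (n : ℝ) ^ (d + 1) := by ring
    have h6 : 0 ≤ (n * γ - L) * (n : ℝ) ^ (d + 1) := mul_nonneg (by linarith) (by positivity)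
    linarith

open scoped Classical in
/-- the number of sums of `k` values of a function on `{0, ..., R}` -/
theorem card_sums (k R : ℕ) (g : ℕ → ℤ) (S : Finset ℤ) (hS : ∀ N ∈ S, ∃ x : Fin k → ℕ, (∀ i, x i ≤ R) ∧
    ∑ i, g (x i) = N) : S.card ≤ (R + k).choose k := by
  have h1 : S ⊆ (univ : Finset (Sym (Fin (R + 1)) k)).image
      (fun s : Sym (Fin (R + 1)) k => ((s : Multiset (Fin (R + 1))).map (fun n : Fin (R + 1) => g (n : ℕ))).sum) := by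
    intro N hN
    obtain ⟨x, hx, hsum⟩ := hS N hN
    rw [mem_image]
    refine ⟨Sym.mk ((univ : Finset (Fin k)).val.map (fun i => (⟨x i, Nat.lt_succ_of_le (hx i)⟩ : Fin (R + 1)))) ?_,
      mem_univ _, ?_⟩
    · rw [Multiset.card_map]
      simp
    · simp only [Sym.coe_mk, Multiset.map_map, Function.comp_def]
      exact hsum
  refine (card_le_card h1).trans (card_image_le.trans ?_)
  rw [card_univ, Sym.card_sym_eq_choose, Fintype.card_fin]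
  have h2 : R + 1 + k - 1 = R + k := by omega
  rw [h2]

/-- the value `0` is added to a function -/
def gp (g : ℕ → ℤ) (n : ℕ) : ℤ := if n = 0 then 0 else g (n - 1)

/-- sums of at most `k` values as sums of exactly `k` values -/
theorem pad {k s : ℕ} (hs : s ≤ k) (g : ℕ → ℤ) (x : Fin s → ℕ) : ∃ y : Fin k → ℕ,
    (∀ i, y i = 0 ∨ ∃ j, y i = x j + 1) ∧ ∑ i, gp g (y i) = ∑ j, g (x j) := by
  obtain ⟨t, rfl⟩ := Nat.exists_eq_add_of_le hs
  refine ⟨Fin.append (fun i => x i + 1) (fun _ : Fin t => 0), ?_, ?_⟩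
  · intro i
    refine Fin.addCases (fun j => ?_) (fun j => ?_) i
    · right
      exact ⟨j, by rw [Fin.append_left]⟩
    · left
      rw [Fin.append_right]
  · rw [Fin.sum_univ_add]
    simp only [Fin.append_left, Fin.append_right, gp]
    simp

open scoped Classical in
/-- sums of at most `k` values have upper density at most `1 / (γ k!)` -/
theorem opt (d : ℕ) {γ : ℝ} (hγ : 0 < γ) (b : ℝ) (α : Fin (d + 1) → ℝ) {ε : ℝ} (hε : 0 < ε) :
    ∃ X0 : ℕ, ∀ X : ℕ, X0 ≤ X →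
      (((Icc 1 X).filter (fun N : ℕ => ∃ s ≤ d + 2, ∃ x : Fin s → ℕ, ∑ i, ⌊fv d γ b α (x i)⌋ = N)).card : ℝ) ≤
        (1 + ε) * (X / (γ * (d + 2)!)) := by
  obtain ⟨η, hη⟩ : ∃ η : ℝ, η = min (ε / 4) (1 / 8) := ⟨_, rfl⟩
  have hη0 : 0 < η := by rw [hη]; positivity
  have hη1 : η ≤ ε / 4 := by rw [hη]; exact min_le_left _ _
  have hη2 : η ≤ 1 / 8 := by rw [hη]; exact min_le_right _ _
  obtain ⟨L, hL, hlow⟩ := fv_lower d γ b α
  obtain ⟨B, hB, hbdd⟩ := fv_bdd d hγ b α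
  obtain ⟨n2, hn2⟩ : ∃ n2 : ℕ, n2 = ⌈L / (η * γ)⌉₊ + 1 := ⟨_, rfl⟩
  have hlow2 : ∀ n : ℕ, n2 ≤ n → (1 - η) * γ * (n : ℝ) ^ (d + 2) ≤ fv d γ b α n := by
    intro n hn
    have h2 := hlow n (by omega)
    have h3 : L / (η * γ) ≤ n := by
      refine (Nat.le_ceil _).trans ?_
      exact_mod_cast (by omega : ⌈L / (η * γ)⌉₊ ≤ n)
    rw [div_le_iff₀ (by positivity)] at h3
    have h5 : γ * (n : ℝ) ^ (d + 2) - L * (n : ℝ) ^ (d + 1) - (1 - η) * γ * (n : ℝ) ^ (d + 2) =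
        (n * (η * γ) - L) * (n : ℝ) ^ (d + 1) := by ring
    have h6 : 0 ≤ (n * (η * γ) - L) * (n : ℝ) ^ (d + 1) := mul_nonneg (by linarith) (by positivity)
    linarith
  have hRev : ∀ᶠ R : ℕ in atTop, ((R : ℝ) + ((d + 3 : ℕ) : ℝ)) ^ (d + 2) ≤ (1 + η) * (R : ℝ) ^ (d + 2) := by
    have h1 : Tendsto (fun R : ℕ => (1 + ((d + 3 : ℕ) : ℝ) / (R : ℝ)) ^ (d + 2)) atTop (𝓝 1) := by
      have h2 : Tendsto (fun R : ℕ => ((d + 3 : ℕ) : ℝ) / (R : ℝ)) atTop (𝓝 0) :=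
        tendsto_const_div_atTop_nhds_zero_nat _
      have h3 := (h2.const_add (1 : ℝ)).pow (d + 2)
      simpa using h3
    filter_upwards [h1.eventually_le_const (by linarith : (1 : ℝ) < 1 + η), eventually_ge_atTop 1] with R h2 h3
    have hR : (0 : ℝ) < R := by exact_mod_cast h3
    calc ((R : ℝ) + ((d + 3 : ℕ) : ℝ)) ^ (d + 2) = (1 + ((d + 3 : ℕ) : ℝ) / (R : ℝ)) ^ (d + 2) * (R : ℝ) ^ (d + 2) := by
          rw [← mul_pow]
          congr 1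
          field_simp
      _ ≤ (1 + η) * (R : ℝ) ^ (d + 2) := mul_le_mul_of_nonneg_right h2 (by positivity)
  obtain ⟨R1, hR1⟩ := eventually_atTop.1 hRev
  obtain ⟨R2, hR2⟩ : ∃ R2 : ℕ, R2 = max R1 (max n2 1) := ⟨_, rfl⟩
  obtain ⟨B2, hB2⟩ : ∃ B2 : ℝ, B2 = (d + 2) * (B + 1) + 1 := ⟨_, rfl⟩
  have hB20 : 0 < B2 := by rw [hB2]; positivity
  have hc : 0 < (1 - η) * γ := mul_pos (by linarith) hγ
  refine ⟨⌈max (B2 / η) ((1 - η) * γ * (R2 : ℝ) ^ (d + 2))⌉₊, ?_⟩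
  intro X hX
  have hXr : max (B2 / η) ((1 - η) * γ * (R2 : ℝ) ^ (d + 2)) ≤ X := (Nat.le_ceil _).trans (by exact_mod_cast hX)
  have hX1 : B2 ≤ η * X := by
    have := (le_max_left _ _).trans hXr
    rw [div_le_iff₀ hη0] at this
    linarith
  have hX2 : (1 - η) * γ * (R2 : ℝ) ^ (d + 2) ≤ X := (le_max_right _ _).trans hXr
  have hX0 : (0 : ℝ) ≤ X := Nat.cast_nonneg X
  obtain ⟨Y, hY⟩ : ∃ Y : ℝ, Y = X + B2 := ⟨_, rfl⟩
  have hex : ∃ R : ℕ, Y ≤ (1 - η) * γ * ((R : ℝ) + 1) ^ (d + 2) := by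
    have h1 : Tendsto (fun R : ℕ => (1 - η) * γ * ((R : ℝ) + 1) ^ (d + 2)) atTop atTop := by
      refine Tendsto.const_mul_atTop hc ?_
      exact (tendsto_pow_atTop (by omega)).comp (tendsto_atTop_add_const_right _ _ tendsto_natCast_atTop_atTop)
    exact (h1.eventually_ge_atTop Y).exists
  obtain ⟨R, hRdef⟩ : ∃ R : ℕ, R = Nat.find hex := ⟨_, rfl⟩
  have hR := Nat.find_spec hex
  rw [← hRdef] at hR
  have hRR2 : R2 ≤ R := by
    by_contra hcon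
    push Not at hcon
    have h1 : (R : ℝ) + 1 ≤ R2 := by exact_mod_cast hcon
    have h2 : (1 - η) * γ * ((R : ℝ) + 1) ^ (d + 2) ≤ (1 - η) * γ * (R2 : ℝ) ^ (d + 2) :=
      mul_le_mul_of_nonneg_left (pow_le_pow_left₀ (by positivity) h1 _) hc.le
    linarith
  have hRR1 : R1 ≤ R := (le_max_left _ _).trans (hR2 ▸ hRR2)
  have hRn2 : n2 ≤ R := (le_max_left _ _).trans ((le_max_right _ _).trans (hR2 ▸ hRR2))
  have hR1' : 1 ≤ R := (le_max_right _ _).trans ((le_max_right _ _).trans (hR2 ▸ hRR2))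
  have hRup : (1 - η) * γ * (R : ℝ) ^ (d + 2) < Y := by
    by_contra hcon
    push Not at hcon
    have : R ≤ R - 1 := by
      rw [hRdef]
      rw [hRdef] at hcon hR1'
      refine Nat.find_min' hex ?_
      rw [Nat.cast_sub hR1']
      push_cast
      rw [sub_add_cancel]
      exact hcon
    omega
  -- the arguments are at most R
  have hargs : ∀ s ≤ d + 2, ∀ x : Fin s → ℕ, ∀ N : ℤ, (N : ℝ) ≤ X → ∑ i, ⌊fv d γ b α (x i)⌋ = N → ∀ i, x i ≤ R := by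
    intro s hs x N hN hsum i
    have hs1 : 1 ≤ s := by
      have := i.2
      omega
    have h1 : ∀ j, -(B + 1) ≤ ((⌊fv d γ b α (x j)⌋ : ℤ) : ℝ) := by
      intro j
      have h2 := hbdd (x j)
      have h3 := Int.sub_one_lt_floor (fv d γ b α (x j))
      linarith
    have h4 : ((⌊fv d γ b α (x i)⌋ : ℤ) : ℝ) + ∑ j ∈ univ.erase i, ((⌊fv d γ b α (x j)⌋ : ℤ) : ℝ) = N := by
      rw [add_sum_erase univ (fun j => ((⌊fv d γ b α (x j)⌋ : ℤ) : ℝ)) (mem_univ i), ← hsum]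
      push_cast
      rfl
    have h5 : -((d + 1 : ℕ) * (B + 1)) ≤ ∑ j ∈ univ.erase i, ((⌊fv d γ b α (x j)⌋ : ℤ) : ℝ) := by
      calc -(((d + 1 : ℕ) : ℝ) * (B + 1)) ≤ ∑ _j ∈ univ.erase i, -(B + 1) := by
            rw [sum_const, card_erase_of_mem (mem_univ i), card_univ, Fintype.card_fin, nsmul_eq_mul]
            have h6 : ((s - 1 : ℕ) : ℝ) ≤ ((d + 1 : ℕ) : ℝ) := by exact_mod_cast (by omega : s - 1 ≤ d + 1)
            have h7 := mul_le_mul_of_nonneg_right h6 (by linarith : 0 ≤ B + 1)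
            linarith
        _ ≤ _ := sum_le_sum fun j _ => h1 j
    have h6 := Int.lt_floor_add_one (fv d γ b α (x i))
    have h7 : fv d γ b α (x i) < Y := by
      rw [hY, hB2]
      push_cast at h5
      linarith
    by_contra hcon
    push Not at hcon
    have h8 := hlow2 (x i) (by omega)
    have h9 : (R : ℝ) + 1 ≤ x i := by exact_mod_cast hcon
    have h10 : (1 - η) * γ * ((R : ℝ) + 1) ^ (d + 2) ≤ (1 - η) * γ * (x i : ℝ) ^ (d + 2) :=
      mul_le_mul_of_nonneg_left (pow_le_pow_left₀ (by positivity) h9 _) hc.le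
    linarith
  have hcard : ((Icc 1 X).filter (fun N : ℕ => ∃ s ≤ d + 2, ∃ x : Fin s → ℕ, ∑ i, ⌊fv d γ b α (x i)⌋ = N)).card ≤
      (R + 1 + (d + 2)).choose (d + 2) := by
    rw [← card_image_of_injective _ (Nat.cast_injective (R := ℤ))]
    refine card_sums (d + 2) (R + 1) (gp (fun n => ⌊fv d γ b α n⌋)) _ ?_
    intro N hN
    rw [mem_image] at hN
    obtain ⟨n, hn, rfl⟩ := hN
    rw [mem_filter, mem_Icc] at hn
    obtain ⟨⟨-, hnX⟩, s, hs, x, hx⟩ := hn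
    have h1 := hargs s hs x n (by push_cast; exact_mod_cast hnX) hx
    obtain ⟨y, hy1, hy2⟩ := pad hs (fun n => ⌊fv d γ b α n⌋) x
    refine ⟨y, ?_, hy2.trans hx⟩
    intro i
    rcases hy1 i with h2 | ⟨j, h2⟩
    · omega
    · have := h1 j
      omega
  have hfac : (0 : ℝ) < ((d + 2)! : ℕ) := by exact_mod_cast Nat.factorial_pos _
  have h1 : (((R + 1 + (d + 2)).choose (d + 2) : ℕ) : ℝ) ≤ ((R : ℝ) + ((d + 3 : ℕ) : ℝ)) ^ (d + 2) / (d + 2)! := by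
    have := Nat.choose_le_pow_div (α := ℝ) (d + 2) (R + 1 + (d + 2))
    refine this.trans (le_of_eq ?_)
    congr 2
    push_cast
    ring
  have h2 := hR1 R hRR1
  have h3 : (R : ℝ) ^ (d + 2) ≤ (1 + η) / (1 - η) * (X / γ) := by
    have h4 : (R : ℝ) ^ (d + 2) ≤ Y / ((1 - η) * γ) := by
      rw [le_div_iff₀ hc]
      linarith
    refine h4.trans ?_
    rw [div_mul_div_comm]
    refine div_le_div_of_nonneg_right ?_ hc.le
    rw [hY]
    linarith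
  have h4 : (1 + η) * ((1 + η) / (1 - η)) ≤ 1 + ε := by
    rw [mul_div_assoc', div_le_iff₀ (by linarith)]
    nlinarith
  calc _ ≤ (((R + 1 + (d + 2)).choose (d + 2) : ℕ) : ℝ) := by exact_mod_cast hcard
    _ ≤ ((R : ℝ) + ((d + 3 : ℕ) : ℝ)) ^ (d + 2) / (d + 2)! := h1
    _ ≤ ((1 + η) * (R : ℝ) ^ (d + 2)) / (d + 2)! := div_le_div_of_nonneg_right h2 hfac.le
    _ ≤ ((1 + η) * ((1 + η) / (1 - η) * (X / γ))) / (d + 2)! := by
        refine div_le_div_of_nonneg_right ?_ hfac.le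
        exact mul_le_mul_of_nonneg_left h3 (by linarith)
    _ = ((1 + η) * ((1 + η) / (1 - η))) * (X / (γ * (d + 2)!)) := by
        field_simp
    _ ≤ (1 + ε) * (X / (γ * (d + 2)!)) := mul_le_mul_of_nonneg_right h4 (by positivity)

end Pool.Agent.V7H18.RP
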