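import Pool.Agent.V7H18.RP.Parts

/-!
# The final inequality
-/

set_option autoImplicit false

namespace Pool.Agent.V7H18.RP

open Finset

/-- the final inequality -/
theorem final_ineq {J l D H M Z WA W B1 B2 X Q x y c1 c3 c4 c5 c6 c7 c8 : ℝ}
    (hl : 0 < l) (hD0 : 0 ≤ D) (hH0 : 0 ≤ H) (hM0 : 0 < M) (hZ1 : 1 ≤ Z) (hWA0 : 0 ≤ WA) (hW0 : 0 < W)
    (hB10 : 0 ≤ B1) (hB20 : 0 ≤ B2) (hX : 0 < X) (hQ : 0 < Q) (hx : 0 < x) (hy : 0 < y)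
    (hc3 : 0 < c3) (hc4 : 0 < c4) (hc5 : 0 < c5) (hc7 : 0 ≤ c7) (hc8 : 0 < c8)
    (h : J * (l / 4 * W) ^ 2 ≤ H ^ 2 * ((2 * Z + 1) * (W * WA * (2 * Real.pi * Z * H / (2 * M))) ^ 2 / (2 * M) +
      4 * B2 ^ 2 * B1))
    (hH : H ≤ 2 * l * D) (hD : D ≤ c1 * (Q / X)) (hWA : WA ≤ X) (hZ : Z ≤ c3 * x) (hH2 : H ≤ c4 * (Q / x ^ 4))
    (hM : c5 * Q ≤ M) (hB2 : B2 ≤ c6 * (X / y)) (hB1 : B1 ≤ c7 * (Q * y)) (hW : c8 * Q ≤ W) (hxy : y ≤ x ^ 5) :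
    J ≤ (64 * c1 ^ 2 * (3 * c3 ^ 3 * Real.pi ^ 2 * c4 ^ 2 / (2 * c5 ^ 3) + 4 * c6 ^ 2 * c7 / c8 ^ 2)) * (Q / y) := by
  have hpi := Real.pi_pos
  obtain ⟨E0, hE0⟩ : ∃ E0 : ℝ, E0 = (2 * Z + 1) * (WA * (Real.pi * Z * (H / M))) ^ 2 / (2 * M) +
      4 * B2 ^ 2 * (B1 / W ^ 2) := ⟨_, rfl⟩
  have hE0n : 0 ≤ E0 := by rw [hE0]; positivity
  have h1 : J * (l / 4 * W) ^ 2 ≤ (64 * D ^ 2 * E0) * (l / 4 * W) ^ 2 := by
    calc J * (l / 4 * W) ^ 2 ≤ H ^ 2 * ((2 * Z + 1) * (W * WA * (2 * Real.pi * Z * H / (2 * M))) ^ 2 / (2 * M) +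
          4 * B2 ^ 2 * B1) := h
      _ = H ^ 2 * (W ^ 2 * E0) := by
          rw [hE0]
          field_simp
      _ ≤ (2 * l * D) ^ 2 * (W ^ 2 * E0) := by
          refine mul_le_mul_of_nonneg_right ?_ (by positivity)
          exact pow_le_pow_left₀ hH0 hH 2
      _ = (64 * D ^ 2 * E0) * (l / 4 * W) ^ 2 := by ring
  have h2 : J ≤ 64 * D ^ 2 * E0 := le_of_mul_le_mul_right h1 (by positivity)
  have hc1D : 0 ≤ c1 * (Q / X) := hD0.trans hD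
  have hc6B : 0 ≤ c6 * (X / y) := hB20.trans hB2
  have h3 : E0 ≤ (3 * (c3 * x)) * (X * (Real.pi * (c3 * x) * ((c4 * (Q / x ^ 4)) / (c5 * Q)))) ^ 2 / (2 * (c5 * Q)) +
      4 * (c6 * (X / y)) ^ 2 * (c7 * (Q * y) / (c8 * Q) ^ 2) := by
    rw [hE0]
    refine add_le_add ?_ ?_
    · have a1 : 2 * Z + 1 ≤ 3 * (c3 * x) := by linarith
      have a2 : H / M ≤ (c4 * (Q / x ^ 4)) / (c5 * Q) := div_le_div₀ (by positivity) hH2 (by positivity) hM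
      have a3 : Real.pi * Z * (H / M) ≤ Real.pi * (c3 * x) * ((c4 * (Q / x ^ 4)) / (c5 * Q)) := by
        refine mul_le_mul ?_ a2 (by positivity) (by positivity)
        exact mul_le_mul_of_nonneg_left hZ hpi.le
      have a4 : WA * (Real.pi * Z * (H / M)) ≤ X * (Real.pi * (c3 * x) * ((c4 * (Q / x ^ 4)) / (c5 * Q))) :=
        mul_le_mul hWA a3 (by positivity) hX.le
      refine div_le_div₀ (by positivity) ?_ (by positivity) (by linarith)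
      exact mul_le_mul a1 (pow_le_pow_left₀ (by positivity) a4 2) (by positivity) (by positivity)
    · have a1 : B1 / W ^ 2 ≤ c7 * (Q * y) / (c8 * Q) ^ 2 :=
        div_le_div₀ (by positivity) hB1 (by positivity) (pow_le_pow_left₀ (by positivity) hW 2)
      refine mul_le_mul ?_ a1 (by positivity) (by positivity)
      exact mul_le_mul_of_nonneg_left (pow_le_pow_left₀ hB20 hB2 2) (by norm_num)
  have h4 : J ≤ 64 * (c1 * (Q / X)) ^ 2 * ((3 * (c3 * x)) * (X * (Real.pi * (c3 * x) *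
      ((c4 * (Q / x ^ 4)) / (c5 * Q)))) ^ 2 / (2 * (c5 * Q)) +
      4 * (c6 * (X / y)) ^ 2 * (c7 * (Q * y) / (c8 * Q) ^ 2)) := by
    refine h2.trans (mul_le_mul ?_ h3 hE0n (by positivity))
    exact mul_le_mul_of_nonneg_left (pow_le_pow_left₀ hD0 hD 2) (by norm_num)
  refine h4.trans ?_
  have h5 : 64 * (c1 * (Q / X)) ^ 2 * ((3 * (c3 * x)) * (X * (Real.pi * (c3 * x) *
      ((c4 * (Q / x ^ 4)) / (c5 * Q)))) ^ 2 / (2 * (c5 * Q)) +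
      4 * (c6 * (X / y)) ^ 2 * (c7 * (Q * y) / (c8 * Q) ^ 2)) =
      (64 * c1 ^ 2 * (3 * c3 ^ 3 * Real.pi ^ 2 * c4 ^ 2 / (2 * c5 ^ 3))) * (Q / x ^ 5) +
      (64 * c1 ^ 2 * (4 * c6 ^ 2 * c7 / c8 ^ 2)) * (Q / y) := by
    field_simp
  rw [h5]
  have h6 : Q / x ^ 5 ≤ Q / y := div_le_div_of_nonneg_left hQ.le hy hxy
  have h7 : (64 * c1 ^ 2 * (3 * c3 ^ 3 * Real.pi ^ 2 * c4 ^ 2 / (2 * c5 ^ 3))) * (Q / x ^ 5) ≤
      (64 * c1 ^ 2 * (3 * c3 ^ 3 * Real.pi ^ 2 * c4 ^ 2 / (2 * c5 ^ 3))) * (Q / y) :=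
    mul_le_mul_of_nonneg_left h6 (by positivity)
  calc _ ≤ (64 * c1 ^ 2 * (3 * c3 ^ 3 * Real.pi ^ 2 * c4 ^ 2 / (2 * c5 ^ 3))) * (Q / y) +
      (64 * c1 ^ 2 * (4 * c6 ^ 2 * c7 / c8 ^ 2)) * (Q / y) := add_le_add h7 (le_refl _)
    _ = _ := by ring

end Pool.Agent.V7H18.RP
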