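import Pool.Agent.V7H18.RP.AsmA

/-!
# Most integers of a dyadic range are sums of `k + 1` values
-/

set_option autoImplicit false

namespace Pool.Agent.V7H18.RP

open Finset
open Pool.Agent.V7H89.GP (pf Dio SS II Fd mem_SS mem_II)

theorem ineqB {a Pk d Ek t2 N bb H f fl : ℝ} (ha : 0 < a) (hPk : 0 < Pk) (hd : 0 ≤ d)
    (h8 : 16 * t2 * (d + 4) ≤ Ek) (h2 : N < 4 * a * (d + 4) * t2 * Pk) (h3 : 0 ≤ bb) (hH : H ≤ a * Pk)
    (h5 : a * (Ek * Pk) ≤ f) (h6 : f < fl + 1) (e9 : 1 ≤ a * Pk) (ht2 : 1 ≤ t2) : N - bb + H ≤ fl := by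
  obtain ⟨t, ht⟩ : ∃ t : ℝ, t = a * Pk * (t2 * (d + 4)) := ⟨_, rfl⟩
  have h1 : 4 * a * (d + 4) * t2 * Pk = 4 * t := by rw [ht]; ring
  have h4 : 16 * t ≤ a * (Ek * Pk) := by
    calc 16 * t = a * ((16 * t2 * (d + 4)) * Pk) := by rw [ht]; ring
      _ ≤ a * (Ek * Pk) := mul_le_mul_of_nonneg_left (mul_le_mul_of_nonneg_right h8 hPk.le) ha.le
  have h7 : a * Pk ≤ t := by
    rw [ht]
    have h9 : 1 ≤ t2 * (d + 4) := by nlinarith
    exact le_mul_of_one_le_right (by positivity) h9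
  rw [h1] at h2
  linarith

/-- one dyadic range -/
theorem core (d C : ℕ) (hC : 1 ≤ C) {a K x0 C5 : ℝ} (ha : 0 < a) (hK : 0 < K) (hx0 : 1 ≤ x0) (hC5 : 0 ≤ C5) :
    ∃ c9 : ℝ, 0 ≤ c9 ∧ ∀ (γ b : ℝ) (α : Fin (d + 1) → ℝ) (σ1 σ2 X : ℝ) (P E : ℕ),
      σ1 = 1 / (2 * C) → σ2 = σ1 / (8 * C) → E = 8 * (d + 4) → X = (E : ℝ) * P → 1 ≤ P →
      (∀ n : ℕ, x0 ≤ n → (a * (n : ℝ) ^ (d + 2) ≤ fv d γ b α n ∧ fv d γ b α n ≤ 4 * a * (n : ℝ) ^ (d + 2)) ∧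
        fv d γ b α n ≤ fv d γ b α (n + 1) ∧
        fv d γ b α (n + 1) ≤ fv d γ b α n + K * ((n : ℝ) + 1) ^ (d + 1)) →
      Good d γ b α C σ1 X → Good d γ b α C σ2 X →
      2 * ((d : ℝ) + 2) * x0 ≤ P → 2 ≤ X ^ σ2 → 2 ≤ X → 3 ≤ X ^ (σ1 / 2) → 8 * ((d : ℝ) + 2) * E ≤ X ^ σ1 →
      2 * (K + 1) * (E : ℝ) ^ (d + 2) ≤ X ^ (σ1 / 2) → 2 * (K + 1) * (E : ℝ) ^ (d + 2) ≤ a * X ^ (σ1 / 2) →
      1 ≤ a * (P : ℝ) ^ (d + 2) →
      (Pool.Agent.V7H89.GP.TT d γ P α : ℝ) ≤ C5 * ((P : ℝ) ^ (d + 2) * (P : ℝ) ^ (σ2 / 2)) →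
      ∀ J : Finset ℤ, (∀ N ∈ J, 4 * a * (d + 4) * (P : ℝ) ^ (d + 2) ≤ N ∧
        (N : ℝ) < 4 * a * (d + 4) * (2 * P : ℝ) ^ (d + 2)) →
      (∀ N ∈ J, ¬ Rep d γ b α N) → (J.card : ℝ) ≤ c9 * (X ^ (d + 2) / X ^ (σ2 / 2)) := by
  obtain ⟨E0, hE0⟩ : ∃ E0 : ℕ, E0 = 8 * (d + 4) := ⟨_, rfl⟩
  obtain ⟨M0, hM0⟩ : ∃ M0 : ℕ, M0 = ⌈4 * a * (d + 2) + 4 * a * (E0 : ℝ) ^ (d + 2) +
    4 * a * (d + 4) * 2 ^ (d + 2) + 3⌉₊ := ⟨_, rfl⟩
  have hM0r : 4 * a * (d + 2) + 4 * a * (E0 : ℝ) ^ (d + 2) + 4 * a * (d + 4) * 2 ^ (d + 2) + 3 ≤ (M0 : ℝ) := by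
    rw [hM0]; exact Nat.le_ceil _
  have hM03 : (3 : ℝ) ≤ M0 := by
    have : 0 ≤ 4 * a * (d + 2) + 4 * a * (E0 : ℝ) ^ (d + 2) + 4 * a * (d + 4) * 2 ^ (d + 2) := by positivity
    linarith
  have huu : 0 ≤ ∑' h, uu h := tsum_nonneg uu_nonneg
  have hE0p : (0 : ℝ) < E0 := by rw [hE0]; positivity
  refine ⟨64 * (K + 1) ^ 2 * (3 * (2 * (M0 : ℝ) + 1) ^ 3 * Real.pi ^ 2 * (2 * (K + 1)) ^ 2 /
    (2 * ((M0 : ℝ) / (E0 : ℝ) ^ (d + 2)) ^ 3) + 4 * (9 * ∑' h, uu h) ^ 2 * C5 /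
      ((1 / (8 * ((d : ℝ) + 2) * E0)) ^ (d + 2)) ^ 2), ?_, ?_⟩
  · have hpi := Real.pi_pos
    positivity
  intro γ b α σ1 σ2 X P E hσ1 hσ2 hE hX hP hgrow g1 g2 e3 e4 e5 e6 e7 e8 e8' e9 hTT J hJ1 hJ2
  have hEE : E = E0 := by rw [hE, hE0]
  subst hEE
  have hCr : (1 : ℝ) ≤ C := by exact_mod_cast hC
  have hσ1p : 0 < σ1 := by rw [hσ1]; positivity
  have hσ1h : σ1 ≤ 1 / 2 := by
    rw [hσ1]
    exact one_div_le_one_div_of_le (by norm_num) (by linarith)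
  have hσ1C : σ1 * C = 1 / 2 := by rw [hσ1]; field_simp
  have hσ2p : 0 < σ2 := by rw [hσ2]; positivity
  have hσ2C : σ2 * C = σ1 / 8 := by rw [hσ2]; field_simp
  have hσ2s : σ2 ≤ σ1 / 8 := by
    rw [← hσ2C]
    exact le_mul_of_one_le_right hσ2p.le hCr
  have hX0 : 0 < X := by linarith
  have hX1 : 1 ≤ X := by linarith
  have hP1 : (1 : ℝ) ≤ P := by exact_mod_cast hP
  have hd0 : (0 : ℝ) ≤ d := Nat.cast_nonneg d
  have hEr : (E : ℝ) = 8 * (d + 4) := by rw [hE]; push_cast; ring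
  have hE32 : (32 : ℝ) ≤ E := by rw [hEr]; linarith
  have hPX : (P : ℝ) ≤ X := by rw [hX]; exact le_mul_of_one_le_left (by linarith) (by linarith)
  obtain ⟨Pk, hPk⟩ : ∃ Pk : ℝ, Pk = (P : ℝ) ^ (d + 2) := ⟨_, rfl⟩
  have hPk1 : 1 ≤ Pk := by rw [hPk]; exact one_le_pow₀ hP1
  have hXk : X ^ (d + 2) = (E : ℝ) ^ (d + 2) * Pk := by rw [hX, mul_pow, hPk]
  obtain ⟨x, hx⟩ : ∃ x : ℝ, x = X ^ (σ1 / 8) := ⟨_, rfl⟩
  obtain ⟨y, hy⟩ : ∃ y : ℝ, y = X ^ (σ2 / 2) := ⟨_, rfl⟩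
  have hx1 : 1 ≤ x := by rw [hx]; exact Real.one_le_rpow hX1 (by positivity)
  have hy1 : 1 ≤ y := by rw [hy]; exact Real.one_le_rpow hX1 (by positivity)
  have hx4 : x ^ 4 = X ^ (σ1 / 2) := by
    rw [hx, ← Real.rpow_natCast, ← Real.rpow_mul hX0.le]
    congr 1
    push_cast
    ring
  have hxy : y ≤ x ^ 5 := by
    calc y ≤ x := by rw [hx, hy]; exact Real.rpow_le_rpow_of_exponent_le hX1 (by linarith)
      _ ≤ x ^ 5 := le_self_pow₀ hx1 (by norm_num)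
  -- the parameters
  obtain ⟨l, hl⟩ : ∃ l : ℕ, l = ⌊X ^ (1 - σ1 / 2)⌋₊ := ⟨_, rfl⟩
  obtain ⟨D, hD⟩ : ∃ D : ℕ, D = ⌈K * X ^ (d + 1)⌉₊ := ⟨_, rfl⟩
  obtain ⟨H, hH⟩ : ∃ H : ℕ, H = (l + 1) * D := ⟨_, rfl⟩
  obtain ⟨M', hM'⟩ : ∃ M' : ℕ, M' = M0 * P ^ (d + 2) := ⟨_, rfl⟩
  obtain ⟨Z, hZ⟩ : ∃ Z : ℕ, Z = ⌈2 * (M0 : ℝ) * x⌉₊ := ⟨_, rfl⟩
  have hsp1 : X ^ (1 - σ1 / 2) = X ^ (1 - σ1) * X ^ (σ1 / 2) := by
    rw [← Real.rpow_add hX0]; congr 1; ring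
  have hsp2 : X ^ (1 - σ1 / 2) = X / x ^ 4 := by
    rw [hx4, Real.rpow_sub hX0, Real.rpow_one]
  have hbig1 : 1 ≤ X ^ (1 - σ1) := Real.one_le_rpow hX1 (by linarith)
  have hl1 : (l : ℝ) ≤ X / x ^ 4 := by
    rw [← hsp2, hl]; exact Nat.floor_le (by positivity)
  have hl2 : 2 * X ^ (1 - σ1) ≤ l := by
    have h1 : X ^ (1 - σ1 / 2) < l + 1 := by rw [hl]; exact Nat.lt_floor_add_one _
    have h2 : 3 * X ^ (1 - σ1) ≤ X ^ (1 - σ1 / 2) := by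
      rw [hsp1, mul_comm]
      exact mul_le_mul_of_nonneg_left e6 (by positivity)
    linarith
  have hl3 : (1 : ℝ) ≤ l := by linarith
  have hl4 : 1 ≤ l := by exact_mod_cast hl3
  have hXk1 : (1 : ℝ) ≤ X ^ (d + 1) := one_le_pow₀ hX1
  have hXq : X ^ (d + 2) / X = X ^ (d + 1) := by
    rw [pow_succ X (d + 1)]; field_simp
  have hD1 : (D : ℝ) ≤ (K + 1) * (X ^ (d + 2) / X) := by
    rw [hXq]
    have h1 : (D : ℝ) < K * X ^ (d + 1) + 1 := by rw [hD]; exact Nat.ceil_lt_add_one (by positivity)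
    linarith
  have hD2 : K * X ^ (d + 1) ≤ D := by rw [hD]; exact Nat.le_ceil _
  have hH1 : (H : ℝ) ≤ 2 * l * D := by
    rw [hH]
    push_cast
    have : (0 : ℝ) ≤ D := Nat.cast_nonneg D
    exact mul_le_mul_of_nonneg_right (by linarith) this
  have hH2 : (H : ℝ) ≤ 2 * (K + 1) * (X ^ (d + 2) / x ^ 4) := by
    refine hH1.trans ?_
    calc 2 * (l : ℝ) * D ≤ 2 * (X / x ^ 4) * ((K + 1) * (X ^ (d + 2) / X)) := by
          refine mul_le_mul ?_ hD1 (by positivity) (by positivity)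
          linarith
      _ = 2 * (K + 1) * (X ^ (d + 2) / x ^ 4) := by field_simp
  have hH3 : (H : ℝ) ≤ Pk := by
    refine hH2.trans ?_
    rw [hXk, hx4, ← mul_div_assoc, div_le_iff₀ (by linarith)]
    calc 2 * (K + 1) * ((E : ℝ) ^ (d + 2) * Pk) = (2 * (K + 1) * (E : ℝ) ^ (d + 2)) * Pk := by ring
      _ ≤ X ^ (σ1 / 2) * Pk := mul_le_mul_of_nonneg_right e8 (by linarith)
      _ = Pk * X ^ (σ1 / 2) := by ring
  have hH4 : (H : ℝ) ≤ a * Pk := by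
    refine hH2.trans ?_
    rw [hXk, hx4, ← mul_div_assoc, div_le_iff₀ (by linarith)]
    calc 2 * (K + 1) * ((E : ℝ) ^ (d + 2) * Pk) = (2 * (K + 1) * (E : ℝ) ^ (d + 2)) * Pk := by ring
      _ ≤ a * X ^ (σ1 / 2) * Pk := mul_le_mul_of_nonneg_right e8' (by linarith)
      _ = a * Pk * X ^ (σ1 / 2) := by ring
  have hM'r : (M' : ℝ) = M0 * Pk := by rw [hM', hPk]; push_cast; ring
  have hM'1 : 1 ≤ M' := by
    have : (1 : ℝ) ≤ M' := by rw [hM'r]; exact one_le_mul_of_one_le_of_one_le (by linarith) hPk1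
    exact_mod_cast this
  have hZ1 : 2 * (M0 : ℝ) * x ≤ Z := by rw [hZ]; exact Nat.le_ceil _
  have hZ2 : (Z : ℝ) ≤ (2 * (M0 : ℝ) + 1) * x := by
    have h1 : (Z : ℝ) < 2 * (M0 : ℝ) * x + 1 := by rw [hZ]; exact Nat.ceil_lt_add_one (by positivity)
    linarith
  have hZ3 : (1 : ℝ) ≤ Z := (one_le_mul_of_one_le_of_one_le (by linarith) hx1).trans hZ1
  -- bounds for the values
  have hx0P : x0 ≤ P := (le_mul_of_one_le_left (by linarith) (by linarith)).trans e3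
  have hval : ∀ n : ℕ, x0 ≤ n → ∀ R : ℝ, (n : ℝ) ≤ R →
      0 ≤ ⌊fv d γ b α n⌋ ∧ ((⌊fv d γ b α n⌋ : ℤ) : ℝ) ≤ 4 * a * R ^ (d + 2) := by
    intro n hn R hR
    obtain ⟨⟨h1, h2⟩, -, -⟩ := hgrow n hn
    have hn0 : (0 : ℝ) ≤ n := Nat.cast_nonneg n
    refine ⟨Int.floor_nonneg.2 (le_trans (by positivity) h1), ?_⟩
    calc ((⌊fv d γ b α n⌋ : ℤ) : ℝ) ≤ fv d γ b α n := Int.floor_le _
      _ ≤ 4 * a * (n : ℝ) ^ (d + 2) := h2
      _ ≤ 4 * a * R ^ (d + 2) := mul_le_mul_of_nonneg_left (pow_le_pow_left₀ hn0 hR _) (by positivity)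
  have hbs : ∀ s ∈ SS (d + 2) P, 0 ≤ bt d γ b α s ∧ ((bt d γ b α s : ℤ) : ℝ) ≤ 4 * a * (d + 2) * Pk := by
    intro s hs
    rw [mem_SS] at hs
    have h1 : ∀ i : Fin (d + 2), 0 ≤ ⌊fv d γ b α (s i)⌋ ∧ ((⌊fv d γ b α (s i)⌋ : ℤ) : ℝ) ≤ 4 * a * Pk := by
      intro i
      have h2 := hs i
      rw [mem_II] at h2
      obtain ⟨⟨h3, h4⟩, h5, -⟩ := h2
      rw [hPk]
      refine hval (s i) ?_ P (by exact_mod_cast h4)
      have h6 : P ≤ 2 * (d + 2) * s i := (Nat.le_mul_of_pos_left _ (by omega)).trans h5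
      have h7 : (P : ℝ) ≤ 2 * (d + 2) * s i := by exact_mod_cast h6
      have h8 : 2 * ((d : ℝ) + 2) * x0 ≤ 2 * (d + 2) * s i := e3.trans h7
      exact le_of_mul_le_mul_left h8 (by positivity)
    constructor
    · unfold bt
      exact sum_nonneg fun i _ => (h1 i).1
    · unfold bt
      push_cast
      calc ∑ i : Fin (d + 2), ((⌊fv d γ b α (s i)⌋ : ℤ) : ℝ) ≤ ∑ _i : Fin (d + 2), 4 * a * Pk :=
            sum_le_sum fun i _ => (h1 i).2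
        _ = 4 * a * (d + 2) * Pk := by
            rw [sum_const, card_univ, Fintype.card_fin, nsmul_eq_mul]; push_cast; ring
  have hds : ∀ n ∈ Ico P (E * P), 0 ≤ ⌊fv d γ b α n⌋ ∧
      ((⌊fv d γ b α n⌋ : ℤ) : ℝ) ≤ 4 * a * (E : ℝ) ^ (d + 2) * Pk := by
    intro n hn
    rw [mem_Ico] at hn
    have h1 : (P : ℝ) ≤ n := by exact_mod_cast hn.1
    have h2 : (n : ℝ) ≤ E * P := by exact_mod_cast hn.2.le
    have h3 := hval n (hx0P.trans h1) _ h2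
    rw [mul_pow, ← hPk] at h3
    exact ⟨h3.1, h3.2.trans (le_of_eq (by ring))⟩
  have hN1 : ∀ N ∈ J, 4 * a * (d + 4) * Pk ≤ N ∧ (N : ℝ) < 4 * a * (d + 4) * 2 ^ (d + 2) * Pk := by
    intro N hN
    have h1 := hJ1 N hN
    rw [mul_pow, ← hPk] at h1
    exact ⟨h1.1, h1.2.trans_le (le_of_eq (by ring))⟩
  have hMM : 4 * a * (d + 2) * Pk + 4 * a * (E : ℝ) ^ (d + 2) * Pk + 4 * a * (d + 4) * 2 ^ (d + 2) * Pk + 3 * Pk ≤ M' := by
    rw [hM'r]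
    have := mul_le_mul_of_nonneg_right hM0r (by linarith : 0 ≤ Pk)
    calc _ = (4 * a * (d + 2) + 4 * a * (E : ℝ) ^ (d + 2) + 4 * a * (d + 4) * 2 ^ (d + 2) + 3) * Pk := by ring
      _ ≤ _ := this
  have hp1 : 0 ≤ 4 * a * (d + 2) * Pk := by positivity
  have hp2 : 0 ≤ 4 * a * (E : ℝ) ^ (d + 2) * Pk := by positivity
  have hp3 : 0 ≤ 4 * a * (d + 4) * 2 ^ (d + 2) * Pk := by positivity
  have hp4 : 0 ≤ 4 * a * (d + 4) * Pk := by positivity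
  -- the circle method
  have hcirc := circle_sq (SS (d + 2) P) (wt d γ b α) (wt_nonneg d γ b α) (bt d γ b α) (Ico P (E * P))
    (fun n => phi (fv d γ b α n)) (fun n => phi_nonneg _) (fun n => ⌊fv d γ b α n⌋) hM'1 H J 0
    (by
      intro N hN
      obtain ⟨h1, h2⟩ := hN1 N hN
      rw [mem_Ico]
      constructor
      · have : (0 : ℝ) ≤ N := hp4.trans h1
        exact_mod_cast this
      · have : (N : ℝ) < ((0 + (2 * M' : ℕ) : ℤ) : ℝ) := by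
          push_cast
          have : (0 : ℝ) ≤ M' := Nat.cast_nonneg _
          linarith
        exact_mod_cast this)
    (by
      intro N hN s hs n hn h hh
      obtain ⟨h1, h2⟩ := hN1 N hN
      obtain ⟨h3, h4⟩ := hbs s hs
      obtain ⟨h5, h6⟩ := hds n hn
      have h3' : (0 : ℝ) ≤ (bt d γ b α s : ℤ) := by exact_mod_cast h3
      have h5' : (0 : ℝ) ≤ (⌊fv d γ b α n⌋ : ℤ) := by exact_mod_cast h5
      have hhr : (h : ℝ) ≤ H := by exact_mod_cast (by omega : h ≤ H)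
      have hh0 : (0 : ℝ) ≤ h := Nat.cast_nonneg h
      have hM0' : (0 : ℝ) ≤ M' := Nat.cast_nonneg _
      have h7 : (|((bt d γ b α s + ⌊fv d γ b α n⌋ - (N + h) : ℤ) : ℝ)|) < ((2 * M' : ℤ) : ℝ) := by
        rw [abs_lt]
        push_cast
        constructor <;> linarith
      rw [← Int.cast_abs] at h7
      exact_mod_cast h7)
    (by
      intro s hs s' hs'
      obtain ⟨h3, h4⟩ := hbs s hs
      obtain ⟨h5, h6⟩ := hbs s' hs'
      have h3' : (0 : ℝ) ≤ (bt d γ b α s : ℤ) := by exact_mod_cast h3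
      have h5' : (0 : ℝ) ≤ (bt d γ b α s' : ℤ) := by exact_mod_cast h5
      have hM0' : (0 : ℝ) ≤ M' := Nat.cast_nonneg _
      have h7 : (|((bt d γ b α s - bt d γ b α s' : ℤ) : ℝ)|) < ((2 * M' : ℤ) : ℝ) := by
        rw [abs_lt]
        push_cast
        constructor <;> linarith
      rw [← Int.cast_abs] at h7
      exact_mod_cast h7) Z (C5 * ((P : ℝ) ^ (d + 2) * (P : ℝ) ^ (σ2 / 2)))
    ((9 * ∑' h, uu h) * X ^ (1 - σ2 / 2)) (by positivity)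
    ((pairs_le d γ b α P).trans hTT)
    (by
      intro u hu hu2
      have hEP : ((E * P : ℕ) : ℝ) = X := by rw [hX]; push_cast; ring
      refine FF_bound (C := C) hσ2p hX1 e4 ?_ g2 (Nat.le_mul_of_pos_left _ (by omega)) hEP.le hM'1 hu ?_
      · have h1 : (C : ℝ) * σ2 - (d + 2) ≤ -1 := by
          rw [mul_comm, hσ2C]
          linarith
        calc X ^ ((C : ℝ) * σ2 - (d + 2)) ≤ X ^ (-1 : ℝ) := Real.rpow_le_rpow_of_exponent_le hX1 h1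
          _ = 1 / X := by rw [Real.rpow_neg_one, one_div]
          _ ≤ 1 / 2 := one_div_le_one_div_of_le (by norm_num) e5
      · have h1 : X ^ ((C : ℝ) * σ2 - (d + 2)) = x / X ^ (d + 2) := by
          rw [Real.rpow_sub hX0, mul_comm, hσ2C, hx]
          congr 1
          rw [← Real.rpow_natCast]
          push_cast
          rfl
        have h2 : (Z : ℝ) ≤ |(u : ℝ)| := by
          rw [← Int.cast_abs]
          exact_mod_cast hu2
        have hMp : (0 : ℝ) < ((2 * M' : ℕ) : ℝ) := by exact_mod_cast (by omega : 0 < 2 * M')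
        rw [h1, abs_div, abs_of_pos hMp, div_le_div_iff₀ (by positivity) hMp]
        push_cast
        rw [hM'r]
        have h3 : Pk ≤ X ^ (d + 2) := by rw [hPk]; exact pow_le_pow_left₀ (by linarith) hPX _
        calc x * (2 * (M0 * Pk)) = (2 * M0 * x) * Pk := by ring
          _ ≤ |(u : ℝ)| * X ^ (d + 2) := mul_le_mul (hZ1.trans h2) h3 (by linarith) (abs_nonneg _))
  -- the lower bound
  have hW := WT_lower (d := d) (γ := γ) (b := b) (α := α) (C := C) (σ := σ1) (P := P) (E := E) hP (by omega) hσ1p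
    (by linarith) (by rw [hσ1C]; norm_num) (by rw [← hX]; exact g1) (by
      rw [← hX, Real.rpow_sub hX0, Real.rpow_one, div_le_div_iff₀ (by positivity) (by positivity)]
      calc X * (8 * ((d : ℝ) + 2)) = P * (8 * ((d : ℝ) + 2) * E) := by rw [hX]; ring
        _ ≤ P * X ^ σ1 := mul_le_mul_of_nonneg_left e7 (by linarith))
  obtain ⟨W, hWdef⟩ : ∃ W : ℝ, W = ∑ s ∈ SS (d + 2) P, wt d γ b α s := ⟨_, rfl⟩
  rw [← hWdef] at hW hcirc
  have hWc : (1 / (8 * ((d : ℝ) + 2) * E)) ^ (d + 2) * X ^ (d + 2) ≤ W := by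
    refine le_trans (le_of_eq ?_) hW
    rw [← mul_pow, hX]
    congr 1
    field_simp
  have hW0 : 0 < W := lt_of_lt_of_le (by positivity) hWc
  have hlow : ∀ N ∈ J, (l : ℝ) / 4 * W ≤ ∑ h ∈ range H, R1 (SS (d + 2) P) (wt d γ b α) (bt d γ b α) (Ico P (E * P))
      (fun n => phi (fv d γ b α n)) (fun n => ⌊fv d γ b α n⌋) (N + h) := by
    intro N hN
    obtain ⟨h1, h2⟩ := hN1 N hN
    rw [hWdef]
    refine lower_avg1 (l := l) (D := D) (SS (d + 2) P) (wt d γ b α) (wt_nonneg d γ b α) (bt d γ b α)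
      (fun n => phi_nonneg _) ?_ ?_ ?_ ?_ ?_ hl4 hH.ge (Nat.le_mul_of_pos_left _ (by omega))
    · intro n hn
      have hn' : x0 ≤ n := hx0P.trans (by exact_mod_cast hn)
      exact Int.floor_le_floor (hgrow n hn').2.1
    · intro n hn hnE
      have hn' : x0 ≤ n := hx0P.trans (by exact_mod_cast hn)
      have h3 := (hgrow n hn').2.2
      have h4 : (n : ℝ) + 1 ≤ X := by rw [hX]; exact_mod_cast hnE
      have h5 : K * ((n : ℝ) + 1) ^ (d + 1) ≤ D :=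
        (mul_le_mul_of_nonneg_left (pow_le_pow_left₀ (by positivity) h4 _) hK.le).trans hD2
      have h6 : fv d γ b α (n + 1) ≤ fv d γ b α n + D := by linarith
      calc ⌊fv d γ b α (n + 1)⌋ ≤ ⌊fv d γ b α n + (D : ℤ)⌋ := Int.floor_le_floor (by push_cast; exact h6)
        _ = ⌊fv d γ b α n⌋ + D := Int.floor_add_intCast _ _
    · intro s hs
      obtain ⟨h3, h4⟩ := hbs s hs
      have h5 := (hval P hx0P P le_rfl).2
      rw [← hPk] at h5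
      have haPk : 0 < a * Pk := by positivity
      have h6 : (((⌊fv d γ b α P⌋ : ℤ)) : ℝ) < ((N - bt d γ b α s : ℤ) : ℝ) := by
        push_cast
        linarith
      exact_mod_cast h6
    · intro s hs
      obtain ⟨h3, h4⟩ := hbs s hs
      have h3' : (0 : ℝ) ≤ (bt d γ b α s : ℤ) := by exact_mod_cast h3
      have hEPx : x0 ≤ ((E * P : ℕ) : ℝ) := by
        push_cast
        rw [← hX]
        linarith
      have h5 := (hgrow (E * P) hEPx).1.1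
      have h6 : fv d γ b α (E * P : ℕ) < ⌊fv d γ b α (E * P : ℕ)⌋ + 1 := Int.lt_floor_add_one _
      have h7 : ((N - bt d γ b α s + H : ℤ) : ℝ) ≤ ((⌊fv d γ b α (E * P : ℕ)⌋ : ℤ) : ℝ) := by
        push_cast at h5 h6 ⊢
        rw [mul_pow, ← hPk] at h5
        have h8 : (16 : ℝ) * 2 ^ (d + 2) * (d + 4) ≤ (E : ℝ) ^ (d + 2) := by
          rw [hEr, mul_pow]
          have h9 : (8 : ℝ) ^ (d + 2) = 4 ^ (d + 2) * 2 ^ (d + 2) := by rw [← mul_pow]; norm_num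
          have h10 : (16 : ℝ) ≤ 4 ^ (d + 2) := by
            rw [pow_add]
            have : (1 : ℝ) ≤ 4 ^ d := one_le_pow₀ (by norm_num)
            linarith
          have h11 : ((d : ℝ) + 4) ≤ ((d : ℝ) + 4) ^ (d + 2) := le_self_pow₀ (by linarith) (by omega)
          rw [h9]
          calc (16 : ℝ) * 2 ^ (d + 2) * (d + 4) ≤ 4 ^ (d + 2) * 2 ^ (d + 2) * (d + 4) := by
                refine mul_le_mul_of_nonneg_right ?_ (by positivity)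
                exact mul_le_mul_of_nonneg_right h10 (by positivity)
            _ ≤ 4 ^ (d + 2) * 2 ^ (d + 2) * (d + 4) ^ (d + 2) := mul_le_mul_of_nonneg_left h11 (by positivity)
        exact ineqB ha (by linarith) hd0 h8 h2 h3' hH4 h5 h6 (by rw [hPk]; exact e9)
          (one_le_pow₀ (by norm_num))
      exact_mod_cast h7
    · intro n hn hnE
      have h3 := sum_weights (d := d) (γ := γ) (b := b) (α := α) hX1 hσ1p (by rw [hσ1C]; norm_num) g1 n l (by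
        rw [hX]; exact_mod_cast hnE)
      linarith
  have hzero : ∀ N ∈ J, R1 (SS (d + 2) P) (wt d γ b α) (bt d γ b α) (Ico P (E * P))
      (fun n => phi (fv d γ b α n)) (fun n => ⌊fv d γ b α n⌋) N = 0 := by
    intro N hN
    refine le_antisymm ?_ (R1_nonneg _ _ (wt_nonneg d γ b α) _ _ _ (fun n => phi_nonneg _) _ _)
    by_contra hcon
    push Not at hcon
    obtain ⟨s, -, n, -, h1⟩ := exists_of_pos1 hcon
    exact hJ2 N hN (rep_of h1)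
  have hsum : (J.card : ℝ) * ((l : ℝ) / 4 * W) ^ 2 ≤ _ := le_trans (by
    rw [← nsmul_eq_mul, ← sum_const]
    refine sum_le_sum fun N hN => ?_
    rw [hzero N hN, mul_zero, zero_sub, neg_sq]
    exact pow_le_pow_left₀ (by positivity) (hlow N hN) 2) hcirc
  push_cast at hsum
  have hWA : ∑ n ∈ Ico P (E * P), phi (fv d γ b α n) ≤ X := by
    calc ∑ n ∈ Ico P (E * P), phi (fv d γ b α n) ≤ ∑ _n ∈ Ico P (E * P), (1 : ℝ) := sum_le_sum fun _ _ => phi_le _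
      _ = ((E * P - P : ℕ) : ℝ) := by rw [sum_const, Nat.card_Ico, nsmul_eq_mul, mul_one]
      _ ≤ ((E * P : ℕ) : ℝ) := by exact_mod_cast Nat.sub_le _ _
      _ = X := by rw [hX]; push_cast; ring
  have hB1 : C5 * ((P : ℝ) ^ (d + 2) * (P : ℝ) ^ (σ2 / 2)) ≤ C5 * (X ^ (d + 2) * y) := by
    refine mul_le_mul_of_nonneg_left ?_ hC5
    rw [hy]
    exact mul_le_mul (pow_le_pow_left₀ (by linarith) hPX _) (Real.rpow_le_rpow (by linarith) hPX (by positivity))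
      (by positivity) (by positivity)
  have hB2 : (9 * ∑' h, uu h) * X ^ (1 - σ2 / 2) ≤ (9 * ∑' h, uu h) * (X / y) := by
    rw [hy, Real.rpow_sub hX0, Real.rpow_one]
  rw [← hy]
  exact final_ineq (l := l) (D := D) (H := H) (M := M') (Z := Z)
    (WA := ∑ n ∈ Ico P (E * P), phi (fv d γ b α n)) (W := W) (B1 := C5 * ((P : ℝ) ^ (d + 2) * (P : ℝ) ^ (σ2 / 2)))
    (B2 := (9 * ∑' h, uu h) * X ^ (1 - σ2 / 2)) (X := X) (Q := X ^ (d + 2)) (x := x) (y := y)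
    (by linarith) (Nat.cast_nonneg _) (Nat.cast_nonneg _) (by exact_mod_cast hM'1) hZ3
    (sum_nonneg fun _ _ => phi_nonneg _) hW0 (by positivity) (by positivity) hX0 (by positivity) (by linarith)
    (by linarith) (by positivity) (by positivity) (by positivity) hC5 (by positivity) hsum hH1 hD1 hWA hZ2 hH2
    (by
      rw [hXk, hM'r]
      refine le_of_eq ?_
      field_simp)
    hB2 hB1 hWc hxy

end Pool.Agent.V7H18.RP
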