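import Pool.Agent.V7H89.GP.WeylD

/-!
# Almost all real numbers are not too close to rational numbers
-/

set_option autoImplicit false

namespace Pool.Agent.V7H18.RP

open MeasureTheory Filter Finset
open Pool.Agent.V7H89.GP (Dio)

theorem dio_of {x : ℝ} (hirr : Irrational x) (h : ¬ LiouvilleWith 4 x) : Dio x := by
  unfold LiouvilleWith at h
  push Not at h
  have h1 := h 1
  rw [eventually_atTop] at h1
  obtain ⟨n0, hn0⟩ := h1
  have hpos : ∀ A : ℕ, 1 ≤ A → 0 < |(A : ℝ) * x - round ((A : ℝ) * x)| := by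
    intro A hA
    rw [abs_pos]
    intro h2
    have h3 : Irrational ((A : ℝ) * x) := by
      have := hirr.natCast_mul (m := A) (by omega)
      exact this
    apply h3
    exact ⟨(round ((A : ℝ) * x) : ℤ), by push_cast; linarith⟩
  obtain ⟨c, hc0, hc⟩ : ∃ c : ℝ, 0 < c ∧ ∀ A ∈ Icc 1 n0, c ≤ |(A : ℝ) * x - round ((A : ℝ) * x)| := by
    rcases (Icc 1 n0).eq_empty_or_nonempty with h4 | h4
    · exact ⟨1, one_pos, by rw [h4]; simp⟩
    · obtain ⟨A0, hA0, hmin⟩ := exists_min_image (Icc 1 n0) (fun A : ℕ => |(A : ℝ) * x - round ((A : ℝ) * x)|) h4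
      exact ⟨_, hpos A0 (mem_Icc.1 hA0).1, hmin⟩
  refine ⟨min c 1, by positivity, ?_⟩
  intro A hA B
  have hA1 : (1 : ℝ) ≤ A := by exact_mod_cast hA
  have hA0 : (0 : ℝ) < A := by linarith
  rcases le_or_gt A n0 with h5 | h5
  · calc min c 1 / (A : ℝ) ^ 3 ≤ min c 1 := div_le_self (by positivity) (one_le_pow₀ hA1)
      _ ≤ c := min_le_left _ _
      _ ≤ |(A : ℝ) * x - round ((A : ℝ) * x)| := hc A (mem_Icc.2 ⟨hA, h5⟩)
      _ ≤ |(A : ℝ) * x - B| := round_le _ _
  · have h6 := hn0 A h5.le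
    have hne : x ≠ (B : ℝ) / A := by
      intro h7
      apply hirr
      exact ⟨(B : ℚ) / A, by push_cast; exact h7.symm⟩
    have h7 := h6 B hne
    have h8 : |(A : ℝ) * x - B| = A * |x - B / A| := by
      rw [← abs_of_pos hA0, ← abs_mul, abs_of_pos hA0]
      congr 1
      field_simp
    rw [h8]
    have h9 : (A : ℝ) ^ (4 : ℝ) = (A : ℝ) ^ 4 := by norm_cast
    rw [h9] at h7
    calc min c 1 / (A : ℝ) ^ 3 ≤ 1 / (A : ℝ) ^ 3 := div_le_div_of_nonneg_right (min_le_right _ _) (by positivity)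
      _ = A * (1 / (A : ℝ) ^ 4) := by field_simp
      _ ≤ A * |x - B / A| := mul_le_mul_of_nonneg_left h7 hA0.le

theorem dio_real : ∀ᵐ x : ℝ, Dio x := by
  have h1 : ∀ᵐ x : ℝ, ¬ LiouvilleWith 4 x := by
    have h2 := volume_iUnion_setOfPred_liouvilleWith
    rw [ae_iff]
    refine measure_mono_null ?_ h2
    intro x hx
    simp only [not_not, Set.mem_ofPred_eq] at hx
    rw [Set.mem_iUnion₂]
    exact ⟨4, by norm_num, hx⟩
  have h2 : ∀ᵐ x : ℝ, Irrational x := (Set.countable_range (Rat.cast : ℚ → ℝ)).ae_notMem volume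
  filter_upwards [h1, h2] with x hx1 hx2
  exact dio_of hx2 hx1

theorem dio_div {g : ℝ} (hg : 0 < g) : ∀ᵐ x : ℝ, Dio (x / g) := by
  have h := dio_real
  rw [ae_iff] at h ⊢
  have h1 : {a : ℝ | ¬ Dio (a / g)} = (fun x => g⁻¹ * x) ⁻¹' {a | ¬ Dio a} := by
    ext a
    simp only [Set.mem_ofPred_eq, Set.mem_preimage]
    rw [div_eq_inv_mul]
  rw [h1, Real.volume_preimage_mul_left (by positivity), h, mul_zero]

/-- for almost all coefficients -/
theorem dio_ae (d : ℕ) (g : ℝ) (hg : 0 < g) : ∀ᵐ a : Fin (d + 1) → ℝ, Dio (a (Fin.last d) / g) := by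
  have h := (Measure.quasiMeasurePreserving_eval (fun _ : Fin (d + 1) => (volume : Measure ℝ)) (Fin.last d)).ae
    (dio_div hg)
  exact h

end Pool.Agent.V7H18.RP
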