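import Pool.Agent.V7H18.RP.AsmB
import Pool.Agent.V7H18.RP.DioAE

/-!
# All scales together
-/

set_option autoImplicit false

namespace Pool.Agent.V7H18.RP

open Finset Filter MeasureTheory
open Pool.Agent.V7H89.GP (pf Dio SS II Fd mem_SS mem_II)

/-- all large dyadic ranges -/
theorem scale (d : ℕ) : ∃ δ : ℝ, 0 < δ ∧ δ ≤ 1 ∧ ∀ γ : ℝ, 0 < γ → ∀ α : Fin (d + 1) → ℝ,
    Dio (α (Fin.last d) / γ) →
    (∃ C5 : ℝ, 0 ≤ C5 ∧ ∀ m : ℕ, (Pool.Agent.V7H89.GP.TT d γ (2 ^ m) α : ℝ) ≤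
      C5 * (((2 : ℝ) ^ m) ^ (d + 2) * (2 : ℝ) ^ (δ * m))) →
    ∀ b : ℝ, ∃ κ : ℝ, 0 < κ ∧ ∃ c : ℝ, 0 ≤ c ∧ ∃ m0 : ℕ, ∀ m : ℕ, m0 ≤ m → ∀ J : Finset ℤ,
      (∀ N ∈ J, κ * ((2 : ℝ) ^ m) ^ (d + 2) ≤ N ∧ (N : ℝ) < κ * ((2 : ℝ) ^ (m + 1)) ^ (d + 2)) →
      (∀ N ∈ J, ¬ Rep d γ b α N) → (J.card : ℝ) ≤ c * ((2 : ℝ) ^ m) ^ ((d : ℝ) + 2 - δ) := by
  obtain ⟨C, hC, hgood⟩ := good_ev d
  have hCr : (1 : ℝ) ≤ C := by exact_mod_cast hC
  obtain ⟨σ1, hσ1⟩ : ∃ σ1 : ℝ, σ1 = 1 / (2 * C) := ⟨_, rfl⟩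
  obtain ⟨σ2, hσ2⟩ : ∃ σ2 : ℝ, σ2 = σ1 / (8 * C) := ⟨_, rfl⟩
  have hσ1p : 0 < σ1 := by rw [hσ1]; positivity
  have hσ1h : σ1 ≤ 1 / 2 := by
    rw [hσ1]
    exact one_div_le_one_div_of_le (by norm_num) (by linarith)
  have hσ1C : σ1 * C = 1 / 2 := by rw [hσ1]; field_simp
  have hσ2p : 0 < σ2 := by rw [hσ2]; positivity
  have hσ2C : σ2 * C = σ1 / 8 := by rw [hσ2]; field_simp
  have hσ2s : σ2 ≤ σ1 / 8 := by
    rw [← hσ2C]
    exact le_mul_of_one_le_right hσ2p.le hCr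
  refine ⟨σ2 / 2, by positivity, by linarith, ?_⟩
  intro γ hγ α hD ⟨C5, hC5, hTT⟩ b
  obtain ⟨a, ha, K, hK, x0, hx0, hgrow⟩ := grow_fv d hγ b α
  obtain ⟨X1, -, hX1⟩ := hgood γ b α hγ hD σ1 hσ1p (by rw [hσ1C]; norm_num)
  obtain ⟨X2, -, hX2⟩ := hgood γ b α hγ hD σ2 hσ2p (by rw [hσ2C]; linarith)
  obtain ⟨c9, hc9, hcore⟩ := core d C hC ha hK hx0 hC5
  obtain ⟨E, hE⟩ : ∃ E : ℕ, E = 8 * (d + 4) := ⟨_, rfl⟩
  have hEp : (0 : ℝ) < E := by rw [hE]; positivity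
  have hE1 : (1 : ℝ) ≤ E := by rw [hE]; exact_mod_cast (by omega : 1 ≤ 8 * (d + 4))
  have tP : Tendsto (fun m : ℕ => (2 : ℝ) ^ m) atTop atTop := tendsto_pow_atTop_atTop_of_one_lt one_lt_two
  have tX : Tendsto (fun m : ℕ => (E : ℝ) * (2 : ℝ) ^ m) atTop atTop := Tendsto.const_mul_atTop hEp tP
  have tr : ∀ c : ℝ, 0 < c → Tendsto (fun m : ℕ => ((E : ℝ) * (2 : ℝ) ^ m) ^ c) atTop atTop :=
    fun c hc => (tendsto_rpow_atTop hc).comp tX
  refine ⟨4 * a * (d + 4), by positivity, c9 * (E : ℝ) ^ (d + 2), by positivity, ?_⟩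
  have hev : ∀ᶠ m : ℕ in atTop, ∀ J : Finset ℤ,
      (∀ N ∈ J, 4 * a * (d + 4) * ((2 : ℝ) ^ m) ^ (d + 2) ≤ N ∧
        (N : ℝ) < 4 * a * (d + 4) * ((2 : ℝ) ^ (m + 1)) ^ (d + 2)) →
      (∀ N ∈ J, ¬ Rep d γ b α N) →
      (J.card : ℝ) ≤ c9 * (E : ℝ) ^ (d + 2) * ((2 : ℝ) ^ m) ^ ((d : ℝ) + 2 - σ2 / 2) := by
    filter_upwards [tX.eventually_ge_atTop X1, tX.eventually_ge_atTop X2,
      tP.eventually_ge_atTop (2 * ((d : ℝ) + 2) * x0), (tr σ2 hσ2p).eventually_ge_atTop 2,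
      tX.eventually_ge_atTop 2, (tr (σ1 / 2) (by positivity)).eventually_ge_atTop 3,
      (tr σ1 hσ1p).eventually_ge_atTop (8 * ((d : ℝ) + 2) * E),
      (tr (σ1 / 2) (by positivity)).eventually_ge_atTop (2 * (K + 1) * (E : ℝ) ^ (d + 2)),
      (tr (σ1 / 2) (by positivity)).eventually_ge_atTop (2 * (K + 1) * (E : ℝ) ^ (d + 2) / a),
      tP.eventually_ge_atTop (1 / a)] with m a1 a2 a3 a4 a5 a6 a7 a8 a9 a10 J hJ1 hJ2
    have hPm : ((2 ^ m : ℕ) : ℝ) = (2 : ℝ) ^ m := by push_cast; rfl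
    have h2m : (1 : ℝ) ≤ (2 : ℝ) ^ m := one_le_pow₀ one_le_two
    have h := hcore γ b α σ1 σ2 ((E : ℝ) * (2 : ℝ) ^ m) (2 ^ m) E hσ1 hσ2 hE (by rw [hPm]) Nat.one_le_two_pow
      hgrow (hX1 _ a1) (hX2 _ a2) (by rw [hPm]; exact a3) a4 a5 a6 a7 a8 ?_ ?_ ?_ J ?_ hJ2
    · refine h.trans ?_
      rw [mul_assoc c9]
      refine mul_le_mul_of_nonneg_left ?_ hc9
      have h1 : ((2 : ℝ) ^ m) ^ ((d : ℝ) + 2 - σ2 / 2) = ((2 : ℝ) ^ m) ^ (d + 2) / ((2 : ℝ) ^ m) ^ (σ2 / 2) := by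
        rw [Real.rpow_sub (by positivity)]
        congr 1
        rw [← Real.rpow_natCast ((2 : ℝ) ^ m) (d + 2)]
        congr 1
        push_cast
        rfl
      rw [h1, mul_pow, ← mul_div_assoc]
      refine div_le_div_of_nonneg_left (by positivity) (by positivity) ?_
      exact Real.rpow_le_rpow (by positivity) (le_mul_of_one_le_left (by positivity) hE1) (by positivity)
    · rw [div_le_iff₀ ha] at a9
      linarith
    · rw [hPm]
      have h1 : (2 : ℝ) ^ m ≤ ((2 : ℝ) ^ m) ^ (d + 2) := le_self_pow₀ h2m (by omega)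
      have h2 : 1 / a ≤ ((2 : ℝ) ^ m) ^ (d + 2) := a10.trans h1
      rw [div_le_iff₀ ha] at h2
      linarith
    · have h1 := hTT m
      rw [hPm]
      refine h1.trans (le_of_eq ?_)
      congr 2
      rw [← Real.rpow_natCast, ← Real.rpow_mul (by norm_num)]
      congr 1
      ring
    · intro N hN
      obtain ⟨h1, h2⟩ := hJ1 N hN
      rw [hPm]
      refine ⟨h1, ?_⟩
      rw [pow_succ] at h2
      rw [mul_comm (2 : ℝ) ((2 : ℝ) ^ m)]
      exact h2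
  obtain ⟨m0, hm0⟩ := eventually_atTop.1 hev
  exact ⟨m0, fun m hm => hm0 m hm⟩

open scoped Classical in
/-- summation over the scales -/
theorem total_of {k : ℕ} (hk : 2 ≤ k) {δ κ c : ℝ} (hδ : δ ≤ 1) (hκ : 0 < κ) (hc : 0 ≤ c) (m0 : ℕ)
    (R : ℤ → Prop)
    (h : ∀ m : ℕ, m0 ≤ m → ∀ J : Finset ℤ,
      (∀ N ∈ J, κ * ((2 : ℝ) ^ m) ^ k ≤ N ∧ (N : ℝ) < κ * ((2 : ℝ) ^ (m + 1)) ^ k) →
      (∀ N ∈ J, ¬ R N) → (J.card : ℝ) ≤ c * ((2 : ℝ) ^ m) ^ ((k : ℝ) - δ)) :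
    ∃ C : ℝ, ∀ X : ℕ, 1 ≤ X → (((Icc 1 X).filter (fun N : ℕ => ¬ R N)).card : ℝ) ≤ C * (X : ℝ) ^ (1 - δ / k) := by
  have hkr : (2 : ℝ) ≤ k := by exact_mod_cast hk
  obtain ⟨t, ht⟩ : ∃ t : ℝ, t = (k : ℝ) - δ := ⟨_, rfl⟩
  have ht1 : 1 ≤ t := by rw [ht]; linarith
  obtain ⟨r, hr⟩ : ∃ r : ℝ, r = (2 : ℝ) ^ t := ⟨_, rfl⟩
  have hr2 : 2 ≤ r := by
    rw [hr]
    calc (2 : ℝ) = 2 ^ (1 : ℝ) := by rw [Real.rpow_one]
      _ ≤ 2 ^ t := Real.rpow_le_rpow_of_exponent_le one_le_two ht1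
  have hrm : ∀ m : ℕ, ((2 : ℝ) ^ m) ^ t = r ^ m := by
    intro m
    rw [hr, ← Real.rpow_natCast, ← Real.rpow_natCast, ← Real.rpow_mul (by norm_num), ← Real.rpow_mul (by norm_num)]
    congr 1
    ring
  have hgeo : ∀ M : ℕ, ∑ m ∈ range M, r ^ m ≤ r ^ M := by
    intro M
    induction M with
    | zero => simp
    | succ M ih =>
      rw [sum_range_succ, pow_succ]
      have : 0 < r ^ M := by positivity
      nlinarith
  have htk : t / k = 1 - δ / k := by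
    rw [ht]; field_simp
  obtain ⟨B, hB⟩ : ∃ B : ℝ, B = κ * ((2 : ℝ) ^ m0) ^ k + 1 := ⟨_, rfl⟩
  have hB0 : 0 < B := by rw [hB]; positivity
  refine ⟨B + c * r * (1 / κ) ^ (1 - δ / k), ?_⟩
  intro X hX
  have hXr : (1 : ℝ) ≤ X := by exact_mod_cast hX
  have hδk : 0 ≤ 1 - δ / k := by
    rw [← htk]; positivity
  have hXp : 1 ≤ (X : ℝ) ^ (1 - δ / k) := Real.one_le_rpow hXr hδk
  have hexM : ∃ M : ℕ, (X : ℝ) < κ * ((2 : ℝ) ^ M) ^ k := by
    have tP : Tendsto (fun m : ℕ => κ * ((2 : ℝ) ^ m) ^ k) atTop atTop := by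
      refine Tendsto.const_mul_atTop hκ ?_
      exact (tendsto_pow_atTop (by omega)).comp (tendsto_pow_atTop_atTop_of_one_lt one_lt_two)
    obtain ⟨M, hM⟩ := (tP.eventually_gt_atTop (X : ℝ)).exists
    exact ⟨M, hM⟩
  obtain ⟨M, hMdef⟩ : ∃ M : ℕ, M = Nat.find hexM := ⟨_, rfl⟩
  have hM := Nat.find_spec hexM
  rw [← hMdef] at hM
  rcases le_or_gt M m0 with hMm | hMm
  · have h1 : (X : ℝ) < B := by
      refine hM.trans_le ?_
      rw [hB]
      have : κ * ((2 : ℝ) ^ M) ^ k ≤ κ * ((2 : ℝ) ^ m0) ^ k := by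
        refine mul_le_mul_of_nonneg_left ?_ hκ.le
        refine pow_le_pow_left₀ (by positivity) ?_ k
        exact pow_le_pow_right₀ one_le_two hMm
      linarith
    have h2 : (((Icc 1 X).filter (fun N : ℕ => ¬ R N)).card : ℝ) ≤ X := by
      have := card_filter_le (Icc 1 X) (fun N : ℕ => ¬ R N)
      rw [Nat.card_Icc, Nat.add_sub_cancel] at this
      exact_mod_cast this
    have h3 : 0 ≤ c * r * (1 / κ) ^ (1 - δ / k) := by positivity
    calc _ ≤ (X : ℝ) := h2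
      _ ≤ B := h1.le
      _ ≤ B + c * r * (1 / κ) ^ (1 - δ / k) := by linarith
      _ ≤ _ := le_mul_of_one_le_right (by positivity) hXp
  · -- the dyadic ranges
    obtain ⟨J, hJ⟩ : ∃ J : ℕ → Finset ℤ, J = fun m => ((Icc 1 X).image (fun n : ℕ => (n : ℤ))).filter (fun N : ℤ =>
      (κ * ((2 : ℝ) ^ m) ^ k ≤ N ∧ (N : ℝ) < κ * ((2 : ℝ) ^ (m + 1)) ^ k) ∧ ¬ R N) := ⟨_, rfl⟩
    have hJc : ∀ m, m0 ≤ m → ((J m).card : ℝ) ≤ c * r ^ m := by
      intro m hm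
      rw [← hrm, ht]
      refine h m hm (J m) ?_ ?_
      · intro N hN
        rw [hJ] at hN
        simp only [mem_filter] at hN
        exact hN.2.1
      · intro N hN
        rw [hJ] at hN
        simp only [mem_filter] at hN
        exact hN.2.2
    have hsub : ((Icc 1 X).filter (fun N : ℕ => ¬ R N)).image (fun n : ℕ => (n : ℤ)) ⊆
        ((range ⌈κ * ((2 : ℝ) ^ m0) ^ k⌉₊).image (fun n : ℕ => (n : ℤ))) ∪ (Ico m0 M).biUnion J := by
      intro N hN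
      rw [mem_image] at hN
      obtain ⟨n, hn, rfl⟩ := hN
      rw [mem_filter, mem_Icc] at hn
      rw [mem_union]
      by_cases hsm : (n : ℝ) < κ * ((2 : ℝ) ^ m0) ^ k
      · left
        rw [mem_image]
        exact ⟨n, by rw [mem_range]; exact Nat.lt_ceil.2 hsm, rfl⟩
      · right
        push Not at hsm
        rw [mem_biUnion]
        have hex2 : ∃ m : ℕ, (n : ℝ) < κ * ((2 : ℝ) ^ m) ^ k := by
          refine ⟨M, lt_of_le_of_lt ?_ hM⟩
          exact_mod_cast hn.1.2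
        obtain ⟨m1, hm1def⟩ : ∃ m1 : ℕ, m1 = Nat.find hex2 := ⟨_, rfl⟩
        have hm1 := Nat.find_spec hex2
        rw [← hm1def] at hm1
        have hm1M : m1 ≤ M := by
          rw [hm1def]
          refine Nat.find_min' hex2 (lt_of_le_of_lt ?_ hM)
          exact_mod_cast hn.1.2
        have hm01 : m0 < m1 := by
          by_contra hcon
          push Not at hcon
          have : κ * ((2 : ℝ) ^ m1) ^ k ≤ κ * ((2 : ℝ) ^ m0) ^ k := by
            refine mul_le_mul_of_nonneg_left ?_ hκ.le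
            refine pow_le_pow_left₀ (by positivity) ?_ k
            exact pow_le_pow_right₀ one_le_two hcon
          linarith
        refine ⟨m1 - 1, by rw [mem_Ico]; omega, ?_⟩
        rw [hJ]
        simp only [mem_filter, mem_image, mem_Icc]
        have hm1e : m1 - 1 + 1 = m1 := by omega
        refine ⟨⟨n, hn.1, rfl⟩, ⟨?_, ?_⟩, hn.2⟩
        · by_contra hcon
          push Not at hcon
          have : m1 ≤ m1 - 1 := by
            rw [hm1def]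
            rw [hm1def] at hcon
            exact Nat.find_min' hex2 (by push_cast at hcon ⊢; exact hcon)
          omega
        · rw [hm1e]
          push_cast
          exact hm1
    have hcard := card_le_card hsub
    rw [card_image_of_injective _ Nat.cast_injective] at hcard
    have h1 : (((Icc 1 X).filter (fun N : ℕ => ¬ R N)).card : ℝ) ≤ B + c * r ^ M := by
      calc (((Icc 1 X).filter (fun N : ℕ => ¬ R N)).card : ℝ)
          ≤ ((((range ⌈κ * ((2 : ℝ) ^ m0) ^ k⌉₊).image (fun n : ℕ => (n : ℤ))) ∪ (Ico m0 M).biUnion J).card : ℝ) := by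
            exact_mod_cast hcard
        _ ≤ (((range ⌈κ * ((2 : ℝ) ^ m0) ^ k⌉₊).image (fun n : ℕ => (n : ℤ))).card : ℝ) +
            (((Ico m0 M).biUnion J).card : ℝ) := by exact_mod_cast card_union_le _ _
        _ ≤ B + c * r ^ M := by
            refine add_le_add ?_ ?_
            · rw [card_image_of_injective _ Nat.cast_injective, card_range, hB]
              exact (Nat.ceil_lt_add_one (by positivity)).le
            · calc (((Ico m0 M).biUnion J).card : ℝ) ≤ ∑ m ∈ Ico m0 M, ((J m).card : ℝ) := by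
                    exact_mod_cast card_biUnion_le
                _ ≤ ∑ m ∈ Ico m0 M, c * r ^ m := by
                    refine sum_le_sum fun m hm => ?_
                    rw [mem_Ico] at hm
                    exact hJc m hm.1
                _ ≤ ∑ m ∈ range M, c * r ^ m := by
                    refine sum_le_sum_of_subset_of_nonneg ?_ (fun m _ _ => by positivity)
                    intro m hm
                    rw [mem_Ico] at hm
                    rw [mem_range]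
                    exact hm.2
                _ = c * ∑ m ∈ range M, r ^ m := by rw [mul_sum]
                _ ≤ c * r ^ M := mul_le_mul_of_nonneg_left (hgeo M) hc
    have h2 : r ^ M ≤ r * ((1 / κ) ^ (1 - δ / k) * (X : ℝ) ^ (1 - δ / k)) := by
      have h3 : κ * ((2 : ℝ) ^ (M - 1)) ^ k ≤ X := by
        by_contra hcon
        push Not at hcon
        have : M ≤ M - 1 := by
          rw [hMdef]
          rw [hMdef] at hcon
          exact Nat.find_min' hexM hcon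
        omega
      have h4 : ((2 : ℝ) ^ (M - 1)) ^ k ≤ 1 / κ * X := by
        rw [one_div, ← div_eq_inv_mul, le_div_iff₀ hκ]
        linarith
      have h5 : r ^ (M - 1) ≤ (1 / κ * X) ^ (1 - δ / k) := by
        rw [← hrm]
        calc ((2 : ℝ) ^ (M - 1)) ^ t = (((2 : ℝ) ^ (M - 1)) ^ k) ^ (1 - δ / k) := by
              rw [← htk, ← Real.rpow_natCast (((2 : ℝ) ^ (M - 1))) k, ← Real.rpow_mul (by positivity)]
              congr 1
              field_simp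
          _ ≤ (1 / κ * X) ^ (1 - δ / k) := Real.rpow_le_rpow (by positivity) h4 hδk
      rw [Real.mul_rpow (by positivity) (by positivity)] at h5
      have h6 : r ^ M = r * r ^ (M - 1) := by
        rw [← pow_succ']
        congr 1
        omega
      rw [h6]
      exact mul_le_mul_of_nonneg_left h5 (by positivity)
    calc _ ≤ B + c * r ^ M := h1
      _ ≤ B * (X : ℝ) ^ (1 - δ / k) + c * (r * ((1 / κ) ^ (1 - δ / k) * (X : ℝ) ^ (1 - δ / k))) :=
          add_le_add (le_mul_of_one_le_right hB0.le hXp) (mul_le_mul_of_nonneg_left h2 hc)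
      _ = _ := by ring

open scoped Classical in
/-- almost all integers are sums of `k + 1` values -/
theorem total (d : ℕ) : ∃ δ : ℝ, 0 < δ ∧ ∀ γ : ℝ, 0 < γ → ∀ᵐ α : Fin (d + 1) → ℝ, ∀ b : ℝ, ∃ C : ℝ,
    ∀ X : ℕ, 1 ≤ X → (((Icc 1 X).filter (fun N : ℕ => ¬ Rep d γ b α N)).card : ℝ) ≤ C * (X : ℝ) ^ (1 - δ) := by
  obtain ⟨δ, hδ0, hδ1, hsc⟩ := scale d
  refine ⟨δ / ((d + 2 : ℕ) : ℝ), by positivity, ?_⟩
  intro γ hγ
  filter_upwards [dio_ae d γ hγ, Pool.Agent.V7H89.GP.TT_ae d γ δ hγ hδ0] with α h1 h2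
  intro b
  obtain ⟨κ, hκ, c, hc, m0, hm⟩ := hsc γ hγ α h1 h2 b
  exact total_of (k := d + 2) (by omega) hδ1 hκ hc m0 (Rep d γ b α) (by
    intro m hm' J hJ1 hJ2
    have := hm m hm' J hJ1 hJ2
    push_cast
    exact this)

end Pool.Agent.V7H18.RP
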