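import Pool.Agent.V7H18.RP.Count
import Pool.Agent.R377.KusminLandau

/-!
# Averages over the coefficients of a polynomial
-/

set_option autoImplicit false

namespace Pool.Agent.V7H18.RP

open Finset MeasureTheory
open Pool.Agent.R377.KL (e norm_e e_add)

/-- the value at `n` of the polynomial with coefficients `c` -/
noncomputable def PP {k : ℕ} (c : Fin (k + 1) → ℝ) (n : ℕ) : ℝ := ∑ j : Fin (k + 1), c j * (n : ℝ) ^ (j : ℕ)

/-- the measure on the coefficients -/
noncomputable def nu (L : ℝ) : Measure ℝ := volume.restrict (Set.Icc (-L) L)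

instance (L : ℝ) : IsFiniteMeasure (nu L) := by unfold nu; infer_instance

/-- the measure on the polynomials -/
noncomputable def mu (k : ℕ) (L : ℝ) : Measure (Fin (k + 1) → ℝ) := Measure.pi fun _ => nu L

instance (k : ℕ) (L : ℝ) : IsFiniteMeasure (mu k L) := by unfold mu; infer_instance

/-- bound for the integral -/
noncomputable def rho (L x : ℝ) : ℝ := if x = 0 then 2 * L else min (2 * L) (1 / |x|)

theorem rho_nonneg {L : ℝ} (hL : 0 ≤ L) (x : ℝ) : 0 ≤ rho L x := by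
  unfold rho
  split_ifs
  · positivity
  · exact le_min (by positivity) (by positivity)

theorem rho_le {L : ℝ} (x : ℝ) : rho L x ≤ 2 * L := by
  unfold rho
  split_ifs
  · exact le_refl _
  · exact min_le_left _ _

theorem rho_le' {L x : ℝ} (hx : x ≠ 0) : rho L x ≤ 1 / |x| := by
  unfold rho
  rw [if_neg hx]
  exact min_le_right _ _

theorem e_continuous : Continuous e := by
  unfold Pool.Agent.R377.KL.e
  fun_prop

theorem e_zero : e 0 = 1 := by
  unfold Pool.Agent.R377.KL.e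
  simp

theorem e_neg (x : ℝ) : e (-x) = (starRingEnd ℂ) (e x) := by
  unfold Pool.Agent.R377.KL.e
  rw [← Complex.exp_conj]
  congr 1
  simp [map_ofNat]

theorem e_sum {ι : Type*} (s : Finset ι) (f : ι → ℝ) : e (∑ i ∈ s, f i) = ∏ i ∈ s, e (f i) := by
  classical
  induction s using Finset.induction_on with
  | empty => simp [e_zero]
  | insert a s ha ih => rw [sum_insert ha, prod_insert ha, e_add, ih]

theorem nu_univ {L : ℝ} (hL : 0 ≤ L) : (nu L).real Set.univ = 2 * L := by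
  unfold nu
  rw [measureReal_def, Measure.restrict_apply_univ, Real.volume_Icc, ENNReal.toReal_ofReal (by linarith)]
  ring

theorem osc {L : ℝ} (hL : 0 ≤ L) (x : ℝ) : ‖∫ t, e (x * t) ∂(nu L)‖ ≤ rho L x := by
  have h1 : ‖∫ t, e (x * t) ∂(nu L)‖ ≤ 2 * L := by
    have := norm_integral_le_of_norm_le_const (μ := nu L) (f := fun t => e (x * t)) (C := 1)
      (Filter.Eventually.of_forall fun t => (norm_e _).le)
    rw [nu_univ hL, one_mul] at this
    exact this
  unfold rho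
  split_ifs with hx
  · exact h1
  · refine le_min h1 ?_
    have hpi := Real.pi_pos
    have hx0 : 0 < |x| := abs_pos.2 hx
    have h2 : ∫ t, e (x * t) ∂(nu L) = ∫ t in (-L)..L, Complex.exp ((2 * Real.pi * Complex.I * x) * t) := by
      rw [intervalIntegral.integral_of_le (by linarith), ← integral_Icc_eq_integral_Ioc]
      unfold nu
      refine integral_congr_ae (Filter.Eventually.of_forall fun t => ?_)
      simp only
      unfold Pool.Agent.R377.KL.e
      congr 1
      push_cast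
      ring
    have hc : (2 * Real.pi * Complex.I * x : ℂ) ≠ 0 := by
      have : (x : ℂ) ≠ 0 := by exact_mod_cast hx
      have h3 : (Real.pi : ℂ) ≠ 0 := by exact_mod_cast hpi.ne'
      simp [this, h3, Complex.I_ne_zero]
    rw [h2, integral_exp_mul_complex hc, norm_div]
    have h4 : ‖(2 * Real.pi * Complex.I * x : ℂ)‖ = 2 * Real.pi * |x| := by
      simp [abs_of_pos hpi]
    have h5 : ∀ y : ℝ, ‖Complex.exp ((2 * Real.pi * Complex.I * x : ℂ) * (y : ℂ))‖ = 1 := by
      intro y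
      have := norm_e (x * y)
      unfold Pool.Agent.R377.KL.e at this
      rw [← this]
      congr 2
      push_cast
      ring
    have h6 : ‖Complex.exp ((2 * Real.pi * Complex.I * x : ℂ) * (L : ℂ)) -
        Complex.exp ((2 * Real.pi * Complex.I * x : ℂ) * ((-L : ℝ) : ℂ))‖ ≤ 2 := by
      refine (norm_sub_le _ _).trans ?_
      rw [h5, h5]
      norm_num
    rw [h4, div_le_div_iff₀ (by positivity) hx0]
    have h7 : (1 : ℝ) ≤ Real.pi := by linarith [Real.pi_gt_three]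
    nlinarith

theorem osc_pi {k : ℕ} {L : ℝ} (hL : 0 ≤ L) (D : Fin (k + 1) → ℝ) :
    ‖∫ c, e (∑ j, c j * D j) ∂(mu k L)‖ ≤ ∏ j, rho L (D j) := by
  have h1 : ∀ c : Fin (k + 1) → ℝ, e (∑ j, c j * D j) = ∏ j, e (D j * c j) := by
    intro c
    rw [e_sum]
    exact prod_congr rfl fun j _ => by rw [mul_comm]
  simp only [h1]
  unfold mu
  rw [integral_fintype_prod_eq_prod (μ := fun _ : Fin (k + 1) => nu L) (fun j t => e (D j * t)), norm_prod]
  exact prod_le_prod (fun _ _ => norm_nonneg _) fun j _ => osc hL (D j)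

theorem sum_PP_sub {k q : ℕ} (c : Fin (k + 1) → ℝ) (m n : Fin q → ℕ) :
    ∑ i, PP c (m i) - ∑ i, PP c (n i) = ∑ j : Fin (k + 1), c j * (DD (j : ℕ) m n : ℝ) := by
  unfold PP DD
  rw [sum_comm, sum_comm (s := (univ : Finset (Fin q))), ← sum_sub_distrib]
  refine sum_congr rfl fun j _ => ?_
  push_cast
  rw [← mul_sum, ← mul_sum]
  ring

/-- the exponential sum over tuples -/
noncomputable def UU {k q : ℕ} (T : Finset (Fin q → ℕ)) (c : Fin (k + 1) → ℝ) (α : ℝ) : ℂ :=
  ∑ n ∈ T, e (α * ∑ i, PP c (n i))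

theorem PP_cont {k : ℕ} (n : ℕ) : Continuous fun c : Fin (k + 1) → ℝ => PP c n := by
  unfold PP
  fun_prop

theorem UU_cont {k q : ℕ} (T : Finset (Fin q → ℕ)) (α : ℝ) :
    Continuous fun c : Fin (k + 1) → ℝ => UU T c α := by
  unfold UU
  refine continuous_finsetSum _ fun n _ => e_continuous.comp ?_
  exact continuous_const.mul (continuous_finsetSum _ fun i _ => PP_cont _)

theorem normSq_UU {k q : ℕ} (T : Finset (Fin q → ℕ)) (c : Fin (k + 1) → ℝ) (α : ℝ) :
    ((‖UU T c α‖ ^ 2 : ℝ) : ℂ) = ∑ m ∈ T, ∑ n ∈ T, e (∑ j : Fin (k + 1), c j * (α * (DD (j : ℕ) m n : ℝ))) := by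
  have h1 : ((‖UU T c α‖ ^ 2 : ℝ) : ℂ) = UU T c α * (starRingEnd ℂ) (UU T c α) := by
    rw [Complex.mul_conj, Complex.normSq_eq_norm_sq]
  rw [h1]
  unfold UU
  rw [map_sum, sum_mul_sum]
  refine sum_congr rfl fun m _ => sum_congr rfl fun n _ => ?_
  rw [← e_neg, ← e_add]
  congr 1
  have h2 := sum_PP_sub c m n
  have h3 : ∑ j : Fin (k + 1), c j * (α * (DD (j : ℕ) m n : ℝ)) = α * ∑ j : Fin (k + 1), c j * (DD (j : ℕ) m n : ℝ) := by
    rw [mul_sum]
    exact sum_congr rfl fun j _ => by ring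
  rw [h3, ← h2]
  ring

/-- **Lemma E.** -/
theorem lemE {k q : ℕ} {L : ℝ} (hL : 0 ≤ L) (T : Finset (Fin q → ℕ)) (α : ℝ) :
    ∫ c, ‖UU T c α‖ ^ 2 ∂(mu k L) ≤
      ∑ m ∈ T, ∑ n ∈ T, ∏ j : Fin (k + 1), rho L (α * (DD (j : ℕ) m n : ℝ)) := by
  have hint : ∀ m n : Fin q → ℕ, Integrable
      (fun c : Fin (k + 1) → ℝ => e (∑ j : Fin (k + 1), c j * (α * (DD (j : ℕ) m n : ℝ)))) (mu k L) := by
    intro m n
    refine Integrable.of_bound (C := 1) ?_ (Filter.Eventually.of_forall fun c => (norm_e _).le)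
    refine Continuous.aestronglyMeasurable (e_continuous.comp ?_)
    fun_prop
  have h1 : ((∫ c, ‖UU T c α‖ ^ 2 ∂(mu k L) : ℝ) : ℂ) =
      ∑ m ∈ T, ∑ n ∈ T, ∫ c, e (∑ j : Fin (k + 1), c j * (α * (DD (j : ℕ) m n : ℝ))) ∂(mu k L) := by
    rw [← integral_complex_ofReal]
    simp only [normSq_UU]
    rw [integral_finsetSum _ (fun m _ => integrable_finsetSum _ fun n _ => hint m n)]
    refine sum_congr rfl fun m _ => ?_
    rw [integral_finsetSum _ (fun n _ => hint m n)]
  have h0 : 0 ≤ ∫ c, ‖UU T c α‖ ^ 2 ∂(mu k L) := integral_nonneg fun c => by positivity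
  calc ∫ c, ‖UU T c α‖ ^ 2 ∂(mu k L) = ‖((∫ c, ‖UU T c α‖ ^ 2 ∂(mu k L) : ℝ) : ℂ)‖ := by
        rw [Complex.norm_real, Real.norm_of_nonneg h0]
    _ ≤ ∑ m ∈ T, ∑ n ∈ T, ∏ j : Fin (k + 1), rho L (α * (DD (j : ℕ) m n : ℝ)) := by
        rw [h1]
        refine (norm_sum_le _ _).trans (sum_le_sum fun m _ => ?_)
        refine (norm_sum_le _ _).trans (sum_le_sum fun n _ => ?_)
        exact osc_pi hL _

/-- the measure of a slab -/
theorem slab_one {k : ℕ} {L κ : ℝ} (D : Fin (k + 1) → ℝ) (j0 : Fin (k + 1))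
    (hD : D j0 ≠ 0) : mu k L {c | |∑ j, c j * D j| ≤ κ} ≤
      ENNReal.ofReal (2 * κ / |D j0|) * ENNReal.ofReal (2 * L) ^ k := by
  have hmp := measurePreserving_piFinSuccAbove (fun _ : Fin (k + 1) => nu L) j0
  set S' : Set (ℝ × (Fin k → ℝ)) := {p | |p.1 * D j0 + ∑ i, p.2 i * D (j0.succAbove i)| ≤ κ} with hS'
  have hS'm : MeasurableSet S' := by
    apply IsClosed.measurableSet
    refine isClosed_le ?_ continuous_const
    fun_prop
  have h1 : {c : Fin (k + 1) → ℝ | |∑ j, c j * D j| ≤ κ} =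
      (MeasurableEquiv.piFinSuccAbove (fun _ => ℝ) j0) ⁻¹' S' := by
    ext c
    simp only [Set.mem_ofPred_eq, Set.mem_preimage, hS', MeasurableEquiv.piFinSuccAbove_apply]
    rw [Fin.sum_univ_succAbove _ j0]
    rfl
  unfold mu
  rw [h1, hmp.measure_preimage hS'm.nullMeasurableSet, Measure.prod_apply_symm hS'm]
  have h2 : ∀ y : Fin k → ℝ, nu L ((fun x => (x, y)) ⁻¹' S') ≤ ENNReal.ofReal (2 * κ / |D j0|) := by
    intro y
    unfold nu
    refine (Measure.restrict_apply_le _ _).trans ?_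
    have hD' : 0 < |D j0| := abs_pos.2 hD
    have h3 : (fun x : ℝ => (x, y)) ⁻¹' S' ⊆
        Metric.closedBall (-(∑ i, y i * D (j0.succAbove i)) / D j0) (κ / |D j0|) := by
      intro x hx
      simp only [Set.mem_preimage, hS', Set.mem_ofPred_eq] at hx
      rw [Metric.mem_closedBall, Real.dist_eq, le_div_iff₀ hD', ← abs_mul]
      refine le_trans (le_of_eq ?_) hx
      congr 1
      field_simp
      ring
    refine (measure_mono h3).trans ?_
    rw [Real.volume_closedBall]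
    refine ENNReal.ofReal_le_ofReal (le_of_eq ?_)
    ring
  refine (lintegral_mono h2).trans ?_
  rw [lintegral_const]
  refine mul_le_mul_right ?_ _
  rw [Measure.pi_univ]
  have h4 : nu L Set.univ = ENNReal.ofReal (2 * L) := by
    unfold nu
    rw [Measure.restrict_apply_univ, Real.volume_Icc]
    congr 1
    ring
  simp [h4]

theorem nu_univ' {L : ℝ} : nu L Set.univ = ENNReal.ofReal (2 * L) := by
  unfold nu
  rw [Measure.restrict_apply_univ, Real.volume_Icc]
  congr 1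
  ring

theorem mu_univ {k : ℕ} {L : ℝ} : mu k L Set.univ = ENNReal.ofReal (2 * L) ^ (k + 1) := by
  unfold mu
  rw [Measure.pi_univ]
  simp [nu_univ']

/-- the constant of the bound for slabs -/
noncomputable def cs (k : ℕ) (L κ : ℝ) : ℝ := (2 * L) ^ (k + 1) + 2 * κ * (k + 1) * (2 * L) ^ k

theorem slab_ww {k : ℕ} (hk : 1 ≤ k) {L κ : ℝ} (hL : 0 ≤ L) (hκ : 0 ≤ κ) (m n : Fin k → ℕ) :
    mu k L {c | |∑ i, PP c (m i) - ∑ i, PP c (n i)| ≤ κ} ≤ ENNReal.ofReal (cs k L κ * (1 / (ww m n : ℝ))) := by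
  have hw1 : (1 : ℝ) ≤ ww m n := by
    have : 1 ≤ ww m n := by unfold ww; omega
    exact_mod_cast this
  have hw0 : (0 : ℝ) < ww m n := by linarith
  obtain ⟨j0, hj0, hmax⟩ := exists_max_image (Icc 1 k) (fun j => (DD j m n).natAbs) ⟨1, mem_Icc.2 ⟨le_refl _, hk⟩⟩
  have hsum : ∑ j ∈ Icc 1 k, (DD j m n).natAbs ≤ k * (DD j0 m n).natAbs := by
    calc ∑ j ∈ Icc 1 k, (DD j m n).natAbs ≤ ∑ _j ∈ Icc 1 k, (DD j0 m n).natAbs := sum_le_sum hmax
      _ = k * (DD j0 m n).natAbs := by rw [sum_const, Nat.card_Icc]; simp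
  by_cases h0 : DD j0 m n = 0
  · have hw : (ww m n : ℝ) = 1 := by
      have : ww m n = 1 := by
        unfold ww
        rw [h0, Int.natAbs_zero, mul_zero] at hsum
        omega
      exact_mod_cast this
    refine (measure_mono (Set.subset_univ _)).trans ?_
    rw [mu_univ, hw, ← ENNReal.ofReal_pow (by positivity)]
    refine ENNReal.ofReal_le_ofReal ?_
    unfold cs
    have : 0 ≤ 2 * κ * (k + 1) * (2 * L) ^ k := by positivity
    linarith
  · have hnat : 1 ≤ (DD j0 m n).natAbs := Int.natAbs_pos.2 h0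
    have hj0' := mem_Icc.1 hj0
    have h1 := slab_one (k := k) (L := L) (κ := κ) (fun j => (DD (j : ℕ) m n : ℝ)) ⟨j0, by omega⟩
      (by simp only [ne_eq, Int.cast_eq_zero]; exact h0)
    have h2 : {c : Fin (k + 1) → ℝ | |∑ i, PP c (m i) - ∑ i, PP c (n i)| ≤ κ} =
        {c | |∑ j : Fin (k + 1), c j * (DD (j : ℕ) m n : ℝ)| ≤ κ} := by
      ext c
      simp only [Set.mem_ofPred_eq, sum_PP_sub]
    rw [h2]
    refine h1.trans ?_
    rw [← ENNReal.ofReal_pow (by positivity), ← ENNReal.ofReal_mul (by positivity)]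
    refine ENNReal.ofReal_le_ofReal ?_
    have h3 : |(DD j0 m n : ℝ)| = ((DD j0 m n).natAbs : ℝ) := by
      rw [Nat.cast_natAbs, Int.cast_abs]
    have h4 : (ww m n : ℝ) ≤ (k + 1) * |(DD j0 m n : ℝ)| := by
      rw [h3]
      have : ww m n ≤ (k + 1) * (DD j0 m n).natAbs := by
        unfold ww
        nlinarith
      exact_mod_cast this
    have hDpos : 0 < |(DD j0 m n : ℝ)| := by
      rw [h3]; exact_mod_cast hnat
    have h5 : 2 * κ / |(DD j0 m n : ℝ)| ≤ 2 * κ * (k + 1) * (1 / ww m n) := by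
      rw [mul_one_div, div_le_div_iff₀ hDpos hw0]
      nlinarith
    simp only
    calc 2 * κ / |(DD j0 m n : ℝ)| * (2 * L) ^ k ≤ 2 * κ * (k + 1) * (1 / ww m n) * (2 * L) ^ k :=
          mul_le_mul_of_nonneg_right h5 (by positivity)
      _ ≤ cs k L κ * (1 / ww m n) := by
          unfold cs
          have : 0 ≤ (2 * L) ^ (k + 1) * (1 / (ww m n : ℝ)) := by positivity
          nlinarith

open scoped Classical in
/-- few pairs, for most polynomials -/
theorem markov_count {k : ℕ} (hk : 1 ≤ k) {L κ : ℝ} (hL : 0 ≤ L) (hκ : 0 ≤ κ) (T : Finset (Fin k → ℕ))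
    {B : ℝ} (hB : 0 < B) :
    mu k L {c | B ≤ (((T ×ˢ T).filter fun z => |∑ i, PP c (z.1 i) - ∑ i, PP c (z.2 i)| ≤ κ).card : ℝ)} ≤
      ENNReal.ofReal (cs k L κ * (∑ z ∈ T ×ˢ T, 1 / (ww z.1 z.2 : ℝ)) / B) := by
  have hmeas : ∀ z : (Fin k → ℕ) × (Fin k → ℕ),
      MeasurableSet {c : Fin (k + 1) → ℝ | |∑ i, PP c (z.1 i) - ∑ i, PP c (z.2 i)| ≤ κ} := by
    intro z
    apply IsClosed.measurableSet
    refine isClosed_le ?_ continuous_const
    refine Continuous.abs (Continuous.sub ?_ ?_)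
    · exact continuous_finsetSum _ fun i _ => PP_cont _
    · exact continuous_finsetSum _ fun i _ => PP_cont _
  set f : (Fin (k + 1) → ℝ) → ENNReal := fun c => ∑ z ∈ T ×ˢ T,
    Set.indicator {c : Fin (k + 1) → ℝ | |∑ i, PP c (z.1 i) - ∑ i, PP c (z.2 i)| ≤ κ} (fun _ => 1) c with hf
  have hcard : ∀ c, f c = (((T ×ˢ T).filter fun z => |∑ i, PP c (z.1 i) - ∑ i, PP c (z.2 i)| ≤ κ).card : ENNReal) := by
    intro c
    rw [hf, card_filter]
    push_cast
    refine sum_congr rfl fun z _ => ?_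
    simp only [Set.indicator, Set.mem_ofPred_eq]
  have hint : ∫⁻ c, f c ∂(mu k L) ≤ ENNReal.ofReal (cs k L κ * ∑ z ∈ T ×ˢ T, 1 / (ww z.1 z.2 : ℝ)) := by
    rw [hf, lintegral_finsetSum _ (fun z _ => Measurable.indicator measurable_const (hmeas z)), mul_sum,
      ENNReal.ofReal_sum_of_nonneg (fun z _ => by unfold cs; positivity)]
    refine sum_le_sum fun z _ => ?_
    rw [lintegral_indicator (hmeas z), setLIntegral_const, one_mul]
    exact slab_ww hk hL hκ z.1 z.2
  have hset : {c | B ≤ (((T ×ˢ T).filter fun z => |∑ i, PP c (z.1 i) - ∑ i, PP c (z.2 i)| ≤ κ).card : ℝ)} ⊆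
      {c | ENNReal.ofReal B ≤ f c} := by
    intro c hc
    simp only [Set.mem_ofPred_eq] at hc ⊢
    rw [hcard c]
    refine (ENNReal.ofReal_le_ofReal hc).trans (le_of_eq ?_)
    exact ENNReal.ofReal_natCast _
  refine (measure_mono hset).trans ?_
  have hfm : Measurable f := by
    rw [hf]
    exact Finset.measurable_fun_sum _ fun z _ => Measurable.indicator measurable_const (hmeas z)
  refine (meas_ge_le_lintegral_div hfm.aemeasurable (by positivity) ENNReal.ofReal_ne_top).trans ?_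
  rw [ENNReal.ofReal_div_of_pos hB]
  exact ENNReal.div_le_div_right hint _

/-- few large values of the exponential sum -/
theorem markov_UU {k q : ℕ} {L : ℝ} (hL : 0 ≤ L) (T : Finset (Fin q → ℕ)) (α : ℝ) {B : ℝ} (hB : 0 < B) :
    mu k L {c | B ≤ ‖UU T c α‖ ^ 2} ≤
      ENNReal.ofReal ((∑ m ∈ T, ∑ n ∈ T, ∏ j : Fin (k + 1), rho L (α * (DD (j : ℕ) m n : ℝ))) / B) := by
  have hint : Integrable (fun c : Fin (k + 1) → ℝ => ‖UU T c α‖ ^ 2) (mu k L) := by
    refine Integrable.of_bound (C := (T.card : ℝ) ^ 2) ?_ (Filter.Eventually.of_forall fun c => ?_)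
    · exact Continuous.aestronglyMeasurable ((UU_cont T α).norm.pow 2)
    · rw [Real.norm_of_nonneg (by positivity)]
      refine pow_le_pow_left₀ (norm_nonneg _) ?_ 2
      unfold UU
      refine (norm_sum_le _ _).trans ?_
      simp [norm_e]
  have h1 := mul_meas_ge_le_integral_of_nonneg (μ := mu k L)
    (Filter.Eventually.of_forall fun c => (by positivity : 0 ≤ ‖UU T c α‖ ^ 2)) hint B
  have h2 := h1.trans (lemE hL T α)
  have h3 : (mu k L).real {c | B ≤ ‖UU T c α‖ ^ 2} ≤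
      (∑ m ∈ T, ∑ n ∈ T, ∏ j : Fin (k + 1), rho L (α * (DD (j : ℕ) m n : ℝ))) / B := by
    rw [le_div_iff₀ hB, mul_comm]
    exact h2
  have h4 : mu k L {c | B ≤ ‖UU T c α‖ ^ 2} = ENNReal.ofReal ((mu k L).real {c | B ≤ ‖UU T c α‖ ^ 2}) := by
    rw [measureReal_def, ENNReal.ofReal_toReal (measure_ne_top _ _)]
  rw [h4]
  exact ENNReal.ofReal_le_ofReal h3

end Pool.Agent.V7H18.RP
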