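import Pool.Agent.V7H18.RP.Circle

/-!
# The discrete circle method in mean square
-/

set_option autoImplicit false

namespace Pool.Agent.V7H18.RP

open Finset
open Pool.Agent.R377.KL (e norm_e e_add e_int)

/-- orthogonality over a complete residue system -/
theorem orth_shift {M' : ℕ} (hM : 1 ≤ M') (a z : ℤ) (hz : |z| < 2 * M') :
    ∑ u ∈ Ico a (a + (2 * M' : ℕ)), e ((u : ℝ) * ((z : ℝ) / (2 * M' : ℕ))) =
      if z = 0 then ((2 * M' : ℕ) : ℂ) else 0 := by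
  have himg : Ico a (a + (2 * M' : ℕ)) = (Ico (-(M' : ℤ)) M').image (fun i : ℤ => i + (a + M')) := by
    ext u
    rw [mem_Ico, mem_image]
    constructor
    · intro h
      refine ⟨u - (a + M'), ?_, by ring⟩
      rw [mem_Ico]
      push_cast at h
      omega
    · rintro ⟨i, hi, rfl⟩
      rw [mem_Ico] at hi
      push_cast
      omega
  rw [himg, sum_image (fun x _ y _ h => by simpa using h)]
  have h1 : ∀ i : ℤ, e (((i + (a + M') : ℤ) : ℝ) * ((z : ℝ) / (2 * M' : ℕ))) =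
      e ((((a + M') : ℤ) : ℝ) * ((z : ℝ) / (2 * M' : ℕ))) * e ((i : ℝ) * ((z : ℝ) / (2 * M' : ℕ))) := by
    intro i
    rw [← e_add]
    congr 1
    push_cast
    ring
  simp only [h1]
  rw [← mul_sum, orth hM z hz]
  split_ifs with h
  · rw [h]
    simp [e_zero]
  · rw [mul_zero]

/-- Parseval's identity -/
theorem bessel (G : ℤ → ℂ) {M' : ℕ} (hM : 1 ≤ M') (a : ℤ) :
    ∑ z ∈ Ico a (a + (2 * M' : ℕ)), ‖∑ u ∈ Ico (-(M' : ℤ)) M', G u * e (-((u : ℝ) * ((z : ℝ) / (2 * M' : ℕ))))‖ ^ 2 =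
      ((2 * M' : ℕ) : ℝ) * ∑ u ∈ Ico (-(M' : ℤ)) M', ‖G u‖ ^ 2 := by
  have h1 : ∀ z : ℤ, ((‖∑ u ∈ Ico (-(M' : ℤ)) M', G u * e (-((u : ℝ) * ((z : ℝ) / (2 * M' : ℕ))))‖ ^ 2 : ℝ) : ℂ) =
      ∑ u ∈ Ico (-(M' : ℤ)) M', ∑ u' ∈ Ico (-(M' : ℤ)) M', G u * (starRingEnd ℂ) (G u') *
        e ((z : ℝ) * (((u' - u : ℤ) : ℝ) / (2 * M' : ℕ))) := by
    intro z
    have h2 : ∀ x : ℂ, ((‖x‖ ^ 2 : ℝ) : ℂ) = x * (starRingEnd ℂ) x := by
      intro x
      rw [Complex.mul_conj, Complex.normSq_eq_norm_sq]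
    rw [h2, map_sum, sum_mul_sum]
    refine sum_congr rfl fun u _ => sum_congr rfl fun u' _ => ?_
    rw [map_mul, ← e_neg, neg_neg]
    have h3 : G u * e (-((u : ℝ) * ((z : ℝ) / (2 * M' : ℕ)))) *
        ((starRingEnd ℂ) (G u') * e ((u' : ℝ) * ((z : ℝ) / (2 * M' : ℕ)))) = G u * (starRingEnd ℂ) (G u') *
        (e (-((u : ℝ) * ((z : ℝ) / (2 * M' : ℕ)))) * e ((u' : ℝ) * ((z : ℝ) / (2 * M' : ℕ)))) := by ring
    rw [h3, ← e_add]
    congr 2
    push_cast
    ring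
  have h4 : ((∑ z ∈ Ico a (a + (2 * M' : ℕ)),
      ‖∑ u ∈ Ico (-(M' : ℤ)) M', G u * e (-((u : ℝ) * ((z : ℝ) / (2 * M' : ℕ))))‖ ^ 2 : ℝ) : ℂ) =
      ((((2 * M' : ℕ) : ℝ) * ∑ u ∈ Ico (-(M' : ℤ)) M', ‖G u‖ ^ 2 : ℝ) : ℂ) := by
    rw [Complex.ofReal_sum]
    simp only [h1]
    rw [sum_comm]
    push_cast
    rw [mul_sum]
    refine sum_congr rfl fun u hu => ?_
    rw [sum_comm]
    rw [sum_eq_single u]
    · rw [← mul_sum]
      have h5 := orth_shift hM a (u - u) (by simp; omega)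
      rw [if_pos (sub_self u)] at h5
      push_cast at h5 ⊢
      rw [h5, ← Complex.ofReal_pow, ← Complex.normSq_eq_norm_sq, ← Complex.mul_conj]
      ring
    · intro u' hu' hne
      rw [← mul_sum]
      rw [mem_Ico] at hu hu'
      have h5 := orth_shift hM a (u' - u) (by rw [abs_lt]; constructor <;> omega)
      rw [if_neg (by intro h; exact hne (by linarith))] at h5
      push_cast at h5 ⊢
      rw [h5, mul_zero]
    · intro h
      exact absurd hu h
  exact_mod_cast h4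

variable {α β : Type*}

/-- the weighted number of representations -/
noncomputable def R1 (T : Finset α) (w : α → ℝ) (b : α → ℤ) (A : Finset β) (v : β → ℝ) (d : β → ℤ) (z : ℤ) : ℝ :=
  ∑ s ∈ T, ∑ n ∈ A, w s * v n * (if b s + d n = z then 1 else 0)

theorem repr_formula1 (T : Finset α) (w : α → ℝ) (b : α → ℤ) (A : Finset β) (v : β → ℝ) (d : β → ℤ) {M' : ℕ}
    (hM : 1 ≤ M') (z : ℤ) (hz : ∀ s ∈ T, ∀ n ∈ A, |b s + d n - z| < 2 * M') :
    ((((2 * M' : ℕ) : ℝ) * R1 T w b A v d z : ℝ) : ℂ) =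
      ∑ u ∈ Ico (-(M' : ℤ)) M', FF T w b M' u * FF A v d M' u * e (-((u : ℝ) * ((z : ℝ) / (2 * M' : ℕ)))) := by
  have h1 : ∀ u : ℤ, FF T w b M' u * FF A v d M' u * e (-((u : ℝ) * ((z : ℝ) / (2 * M' : ℕ)))) =
      ∑ s ∈ T, ∑ n ∈ A, (w s : ℂ) * v n *
        e ((u : ℝ) * (((b s + d n - z : ℤ) : ℝ) / (2 * M' : ℕ))) := by
    intro u
    unfold FF
    rw [sum_mul_sum, sum_mul]
    refine sum_congr rfl fun s _ => ?_
    rw [sum_mul]
    refine sum_congr rfl fun n _ => ?_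
    have h2 : e ((u : ℝ) * (((b s + d n - z : ℤ) : ℝ) / (2 * M' : ℕ))) =
        e ((u : ℝ) * ((b s : ℝ) / (2 * M' : ℕ))) *
        e ((u : ℝ) * ((d n : ℝ) / (2 * M' : ℕ))) * e (-((u : ℝ) * ((z : ℝ) / (2 * M' : ℕ)))) := by
      rw [← e_add, ← e_add]
      congr 1
      push_cast
      ring
    rw [h2]
    ring
  simp only [h1]
  unfold R1
  push_cast
  symm
  rw [sum_comm, mul_sum]
  refine sum_congr rfl fun s hs => ?_
  rw [sum_comm, mul_sum]
  refine sum_congr rfl fun n hn => ?_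
  rw [← mul_sum]
  have h5 := orth hM (b s + d n - z) (hz s hs n hn)
  push_cast at h5 ⊢
  rw [h5]
  by_cases h6 : b s + d n = z
  · rw [if_pos (by linarith), if_pos h6]
    push_cast
    ring
  · rw [if_neg (by intro h; exact h6 (by linarith)), if_neg h6]
    push_cast
    ring

/-- **the mean square of the error** -/
theorem circle_sq (T : Finset α) (w : α → ℝ) (hw : ∀ s, 0 ≤ w s) (b : α → ℤ) (A : Finset β) (v : β → ℝ)
    (hv : ∀ n, 0 ≤ v n) (d : β → ℤ) {M' : ℕ} (hM : 1 ≤ M') (H : ℕ) (J : Finset ℤ) (a : ℤ)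
    (hJ : J ⊆ Ico a (a + (2 * M' : ℕ)))
    (hz : ∀ N ∈ J, ∀ s ∈ T, ∀ n ∈ A, ∀ h < H + 1, |b s + d n - (N + h)| < 2 * M')
    (hb : ∀ s ∈ T, ∀ s' ∈ T, |b s - b s'| < 2 * M') (Z : ℕ) (B1 B2 : ℝ) (hB2 : 0 ≤ B2)
    (h1 : ∑ s ∈ T, ∑ s' ∈ T, w s * w s' * (if b s = b s' then 1 else 0) ≤ B1)
    (h2 : ∀ u ∈ Ico (-(M' : ℤ)) M', (Z : ℤ) ≤ |u| → ‖FF A v d M' u‖ ≤ B2) :
    ∑ N ∈ J, (H * R1 T w b A v d N - ∑ h ∈ range H, R1 T w b A v d (N + h)) ^ 2 ≤
      H ^ 2 * ((2 * Z + 1) * ((∑ s ∈ T, w s) * (∑ n ∈ A, v n) * (2 * Real.pi * Z * H / (2 * M' : ℕ))) ^ 2 /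
        (2 * M' : ℕ) + 4 * B2 ^ 2 * B1) := by
  obtain ⟨M, hMdef⟩ : ∃ M : ℝ, M = ((2 * M' : ℕ) : ℝ) := ⟨_, rfl⟩
  have hM0 : 0 < M := by rw [hMdef]; exact_mod_cast (by omega : 0 < 2 * M')
  obtain ⟨WT, hWT⟩ : ∃ WT : ℝ, WT = ∑ s ∈ T, w s := ⟨_, rfl⟩
  obtain ⟨WA, hWA⟩ : ∃ WA : ℝ, WA = ∑ n ∈ A, v n := ⟨_, rfl⟩
  have hWT0 : 0 ≤ WT := by rw [hWT]; exact sum_nonneg fun s _ => hw s
  have hWA0 : 0 ≤ WA := by rw [hWA]; exact sum_nonneg fun s _ => hv s
  have hpi := Real.pi_pos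
  set G : ℤ → ℂ := fun u => FF T w b M' u * FF A v d M' u * ∑ h ∈ range H, (1 - e (-((u : ℝ) * ((h : ℝ) / M)))) with hG
  have hform : ∀ N ∈ J, ∀ h < H + 1, (((M * R1 T w b A v d (N + h) : ℝ)) : ℂ) =
      ∑ u ∈ Ico (-(M' : ℤ)) M', FF T w b M' u * FF A v d M' u *
        e (-((u : ℝ) * (((N + h : ℤ) : ℝ) / (2 * M' : ℕ)))) := by
    intro N hN h hh
    rw [hMdef]
    exact repr_formula1 T w b A v d hM (N + h) (fun s hs n hn => hz N hN s hs n hn h hh)
  have hdiff : ∀ N ∈ J, ((M * (H * R1 T w b A v d N - ∑ h ∈ range H, R1 T w b A v d (N + h)) : ℝ) : ℂ) =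
      ∑ u ∈ Ico (-(M' : ℤ)) M', G u * e (-((u : ℝ) * ((N : ℝ) / (2 * M' : ℕ)))) := by
    intro N hN
    have h0 := hform N hN 0 (by omega)
    simp only [Nat.cast_zero, add_zero] at h0
    have h3 : (M * (H * R1 T w b A v d N - ∑ h ∈ range H, R1 T w b A v d (N + h)) : ℝ) =
        ∑ h ∈ range H, (M * R1 T w b A v d N - M * R1 T w b A v d (N + h)) := by
      rw [sum_sub_distrib, sum_const, card_range, nsmul_eq_mul, ← mul_sum]
      ring
    rw [h3, Complex.ofReal_sum]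
    have h4 : ∀ h ∈ range H, ((M * R1 T w b A v d N - M * R1 T w b A v d (N + h) : ℝ) : ℂ) =
        ∑ u ∈ Ico (-(M' : ℤ)) M', FF T w b M' u * FF A v d M' u * (1 - e (-((u : ℝ) * ((h : ℝ) / M)))) *
          e (-((u : ℝ) * ((N : ℝ) / (2 * M' : ℕ)))) := by
      intro h hh
      rw [mem_range] at hh
      rw [Complex.ofReal_sub, h0, hform N hN h (by omega), ← sum_sub_distrib]
      refine sum_congr rfl fun u _ => ?_
      have h5 : e (-((u : ℝ) * (((N + h : ℤ) : ℝ) / (2 * M' : ℕ)))) =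
          e (-((u : ℝ) * ((h : ℝ) / M))) * e (-((u : ℝ) * ((N : ℝ) / (2 * M' : ℕ)))) := by
        rw [← e_add, hMdef]
        congr 1
        push_cast
        ring
      rw [h5]
      ring
    rw [sum_congr rfl h4, sum_comm]
    refine sum_congr rfl fun u _ => ?_
    rw [hG]
    simp only
    rw [mul_sum, sum_mul]
  have hGn : ∀ u : ℤ, ‖G u‖ ≤ ‖FF T w b M' u‖ * ‖FF A v d M' u‖ * (H * min 2 (2 * Real.pi * |(u : ℝ)| * H / M)) := by
    intro u
    rw [hG]
    simp only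
    rw [norm_mul, norm_mul]
    refine mul_le_mul_of_nonneg_left ?_ (by positivity)
    calc ‖∑ h ∈ range H, (1 - e (-((u : ℝ) * ((h : ℝ) / M))))‖
        ≤ ∑ _h ∈ range H, min 2 (2 * Real.pi * |(u : ℝ)| * H / M) := by
          refine (norm_sum_le _ _).trans (sum_le_sum fun h hh => ?_)
          rw [mem_range] at hh
          refine le_min ?_ ?_
          · refine (norm_sub_le _ _).trans ?_
            rw [norm_one, norm_e]
            norm_num
          · rw [norm_sub_rev]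
            refine (norm_e_sub_one _).trans ?_
            rw [abs_neg, abs_mul, abs_div, abs_of_pos hM0, Nat.abs_cast]
            have h5 : (h : ℝ) ≤ H := by exact_mod_cast hh.le
            calc 2 * Real.pi * (|(u : ℝ)| * ((h : ℝ) / M)) = 2 * Real.pi * |(u : ℝ)| * h / M := by ring
              _ ≤ 2 * Real.pi * |(u : ℝ)| * H / M := by
                  refine div_le_div_of_nonneg_right ?_ hM0.le
                  exact mul_le_mul_of_nonneg_left h5 (by positivity)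
      _ = H * min 2 (2 * Real.pi * |(u : ℝ)| * H / M) := by rw [sum_const, card_range, nsmul_eq_mul]
  have hpars := parseval T w b hM hb
  rw [← hMdef] at hpars
  -- Bessel
  have hbes : M ^ 2 * ∑ N ∈ J, (H * R1 T w b A v d N - ∑ h ∈ range H, R1 T w b A v d (N + h)) ^ 2 ≤
      M * ∑ u ∈ Ico (-(M' : ℤ)) M', ‖G u‖ ^ 2 := by
    have h3 := bessel G hM a
    rw [← hMdef] at h3
    rw [hMdef, ← hMdef, ← h3, mul_sum]
    refine le_trans ?_ (sum_le_sum_of_subset_of_nonneg hJ fun z _ _ => by positivity)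
    refine sum_le_sum fun N hN => ?_
    rw [← hMdef] at *
    have h4 := hdiff N hN
    rw [← hMdef] at h4
    rw [← h4, Complex.norm_real, Real.norm_eq_abs, sq_abs, mul_pow]
  have hS : ∑ u ∈ Ico (-(M' : ℤ)) M', ‖G u‖ ^ 2 ≤
      H ^ 2 * ((2 * Z + 1) * (WT * WA * (2 * Real.pi * Z * H / M)) ^ 2 + 4 * B2 ^ 2 * (M * B1)) := by
    have h3 : ∀ u : ℤ, ‖G u‖ ^ 2 ≤ H ^ 2 * (‖FF T w b M' u‖ * ‖FF A v d M' u‖ *
        min 2 (2 * Real.pi * |(u : ℝ)| * H / M)) ^ 2 := by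
      intro u
      refine (pow_le_pow_left₀ (norm_nonneg _) (hGn u) 2).trans (le_of_eq ?_)
      ring
    refine (sum_le_sum fun u _ => h3 u).trans ?_
    rw [← mul_sum]
    refine mul_le_mul_of_nonneg_left ?_ (by positivity)
    rw [← sum_filter_add_sum_filter_not (Ico (-(M' : ℤ)) M') (fun u => |u| < (Z : ℤ))]
    refine add_le_add ?_ ?_
    · calc ∑ u ∈ (Ico (-(M' : ℤ)) M').filter (fun u => |u| < (Z : ℤ)), (‖FF T w b M' u‖ * ‖FF A v d M' u‖ *
            min 2 (2 * Real.pi * |(u : ℝ)| * H / M)) ^ 2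
          ≤ ∑ _u ∈ (Ico (-(M' : ℤ)) M').filter (fun u => |u| < (Z : ℤ)), (WT * WA * (2 * Real.pi * Z * H / M)) ^ 2 := by
            refine sum_le_sum fun u hu => ?_
            rw [mem_filter] at hu
            have h3 : ‖FF T w b M' u‖ ≤ WT := by rw [hWT]; exact FF_norm_le T w hw b M' u
            have h4 : ‖FF A v d M' u‖ ≤ WA := by rw [hWA]; exact FF_norm_le A v hv d M' u
            have h5 : |(u : ℝ)| ≤ Z := by
              rw [← Int.cast_abs]; exact_mod_cast hu.2.le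
            have h6 : min 2 (2 * Real.pi * |(u : ℝ)| * H / M) ≤ 2 * Real.pi * Z * H / M := by
              refine (min_le_right _ _).trans ?_
              refine div_le_div_of_nonneg_right ?_ hM0.le
              exact mul_le_mul_of_nonneg_right (mul_le_mul_of_nonneg_left h5 (by positivity)) (by positivity)
            have h7 : 0 ≤ min 2 (2 * Real.pi * |(u : ℝ)| * H / M) := by positivity
            refine pow_le_pow_left₀ (by positivity) ?_ 2
            exact mul_le_mul (mul_le_mul h3 h4 (norm_nonneg _) hWT0) h6 h7 (by positivity)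
        _ ≤ (2 * Z + 1) * (WT * WA * (2 * Real.pi * Z * H / M)) ^ 2 := by
            rw [sum_const, nsmul_eq_mul]
            refine mul_le_mul_of_nonneg_right ?_ (by positivity)
            have h3 : (Ico (-(M' : ℤ)) M').filter (fun u => |u| < (Z : ℤ)) ⊆ Icc (-(Z : ℤ)) Z := by
              intro u hu
              rw [mem_filter] at hu
              rw [mem_Icc]
              have := abs_lt.1 hu.2
              omega
            have h4 := card_le_card h3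
            rw [Int.card_Icc] at h4
            have h5 : ((Z : ℤ) + 1 - -(Z : ℤ)).toNat = 2 * Z + 1 := by omega
            rw [h5] at h4
            exact_mod_cast h4
    · calc ∑ u ∈ (Ico (-(M' : ℤ)) M').filter (fun u => ¬ |u| < (Z : ℤ)), (‖FF T w b M' u‖ * ‖FF A v d M' u‖ *
            min 2 (2 * Real.pi * |(u : ℝ)| * H / M)) ^ 2
          ≤ ∑ u ∈ (Ico (-(M' : ℤ)) M').filter (fun u => ¬ |u| < (Z : ℤ)), ‖FF T w b M' u‖ ^ 2 * (B2 * 2) ^ 2 := by
            refine sum_le_sum fun u hu => ?_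
            rw [mem_filter] at hu
            have h3 := h2 u hu.1 (not_lt.1 hu.2)
            have h4 : 0 ≤ min 2 (2 * Real.pi * |(u : ℝ)| * H / M) := by positivity
            have h5 : ‖FF A v d M' u‖ * min 2 (2 * Real.pi * |(u : ℝ)| * H / M) ≤ B2 * 2 :=
              mul_le_mul h3 (min_le_left _ _) h4 hB2
            rw [mul_assoc, mul_pow]
            refine mul_le_mul_of_nonneg_left ?_ (by positivity)
            exact pow_le_pow_left₀ (by positivity) h5 2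
        _ ≤ ∑ u ∈ Ico (-(M' : ℤ)) M', ‖FF T w b M' u‖ ^ 2 * (B2 * 2) ^ 2 :=
            sum_le_sum_of_subset_of_nonneg (filter_subset _ _) fun u _ _ => by positivity
        _ = 4 * B2 ^ 2 * (∑ u ∈ Ico (-(M' : ℤ)) M', ‖FF T w b M' u‖ ^ 2) := by
            rw [← sum_mul]; ring
        _ ≤ 4 * B2 ^ 2 * (M * B1) := by
            refine mul_le_mul_of_nonneg_left ?_ (by positivity)
            rw [hpars]
            exact mul_le_mul_of_nonneg_left h1 hM0.le
  rw [← hMdef, ← hWT, ← hWA]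
  have h3 := hbes.trans (mul_le_mul_of_nonneg_left hS hM0.le)
  have h4 : M * (H ^ 2 * ((2 * Z + 1) * (WT * WA * (2 * Real.pi * Z * H / M)) ^ 2 + 4 * B2 ^ 2 * (M * B1))) =
      M ^ 2 * (H ^ 2 * ((2 * Z + 1) * (WT * WA * (2 * Real.pi * Z * H / M)) ^ 2 / M + 4 * B2 ^ 2 * B1)) := by
    field_simp
  rw [h4] at h3
  exact le_of_mul_le_mul_left h3 (by positivity)

/-- positivity gives a representation -/
theorem exists_of_pos1 {T : Finset α} {w : α → ℝ} {b : α → ℤ} {A : Finset β} {v : β → ℝ} {d : β → ℤ}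
    {z : ℤ} (h : 0 < R1 T w b A v d z) : ∃ s ∈ T, ∃ n ∈ A, b s + d n = z := by
  by_contra hcon
  push Not at hcon
  have : R1 T w b A v d z = 0 := by
    unfold R1
    refine sum_eq_zero fun s hs => sum_eq_zero fun n hn => ?_
    rw [if_neg (hcon s hs n hn), mul_zero]
  linarith

theorem R1_nonneg (T : Finset α) (w : α → ℝ) (hw : ∀ s, 0 ≤ w s) (b : α → ℤ) (A : Finset β) (v : β → ℝ)
    (hv : ∀ n, 0 ≤ v n) (d : β → ℤ) (z : ℤ) : 0 ≤ R1 T w b A v d z := by
  unfold R1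
  refine sum_nonneg fun s _ => sum_nonneg fun n _ => ?_
  have := hw s
  have := hv n
  split_ifs <;> positivity

end Pool.Agent.V7H18.RP
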