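import Pool.Agent.V7H18.RP.Avg

/-!
# The discrete circle method
-/

set_option autoImplicit false

namespace Pool.Agent.V7H18.RP

open Finset
open Pool.Agent.R377.KL (e norm_e e_add e_int)

theorem norm_e_sub_one (x : ℝ) : ‖e x - 1‖ ≤ 2 * Real.pi * |x| := by
  have h := Real.norm_exp_I_mul_ofReal_sub_one_le (x := 2 * Real.pi * x)
  have h1 : Complex.exp (Complex.I * ((2 * Real.pi * x : ℝ) : ℂ)) = e x := by
    unfold Pool.Agent.R377.KL.e
    congr 1
    push_cast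
    ring
  rw [h1, Real.norm_eq_abs, abs_mul, abs_of_pos (by positivity : (0 : ℝ) < 2 * Real.pi)] at h
  exact h

theorem e_eq_one {x : ℝ} (h : e x = 1) : ∃ n : ℤ, x = n := by
  unfold Pool.Agent.R377.KL.e at h
  rw [Complex.exp_eq_one_iff] at h
  obtain ⟨n, hn⟩ := h
  refine ⟨n, ?_⟩
  have hpi : (2 * Real.pi * Complex.I : ℂ) ≠ 0 := by
    simp [Complex.I_ne_zero, Real.pi_pos.ne']
  have h2 : (2 * Real.pi * Complex.I : ℂ) * (x : ℂ) = (2 * Real.pi * Complex.I : ℂ) * n := by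
    rw [hn]; ring
  have h3 := mul_left_cancel₀ hpi h2
  exact_mod_cast h3

theorem e_nat_mul (x : ℝ) (n : ℕ) : e (n * x) = e x ^ n := by
  induction n with
  | zero => simp [e_zero]
  | succ n ih =>
    have : ((n + 1 : ℕ) : ℝ) * x = n * x + x := by push_cast; ring
    rw [this, e_add, ih, pow_succ]

/-- orthogonality -/
theorem orth {M' : ℕ} (hM : 1 ≤ M') (z : ℤ) (hz : |z| < 2 * M') :
    ∑ u ∈ Ico (-(M' : ℤ)) M', e ((u : ℝ) * ((z : ℝ) / (2 * M' : ℕ))) = if z = 0 then ((2 * M' : ℕ) : ℂ) else 0 := by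
  have hM0 : (0 : ℝ) < ((2 * M' : ℕ) : ℝ) := by exact_mod_cast (by omega : 0 < 2 * M')
  split_ifs with h0
  · rw [h0]
    simp only [Int.cast_zero, zero_div, mul_zero, e_zero, sum_const, Int.card_Ico, nsmul_eq_mul, mul_one]
    congr 1
    omega
  · have himg : Ico (-(M' : ℤ)) M' = (range (2 * M')).image (fun i : ℕ => (i : ℤ) - M') := by
      ext u
      rw [mem_Ico, mem_image]
      constructor
      · intro h
        refine ⟨(u + M').toNat, ?_, ?_⟩
        · rw [mem_range]; omega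
        · omega
      · rintro ⟨i, hi, rfl⟩
        rw [mem_range] at hi
        omega
    rw [himg, sum_image (fun a _ b _ h => by
      have : (a : ℤ) = b := by linarith
      exact_mod_cast this)]
    obtain ⟨x, hx⟩ : ∃ x : ℝ, x = (z : ℝ) / ((2 * M' : ℕ) : ℝ) := ⟨_, rfl⟩
    rw [← hx]
    have h1 : ∀ i : ℕ, e ((((i : ℤ) - M' : ℤ) : ℝ) * x) = e (-(M' * x)) * e x ^ i := by
      intro i
      rw [← e_nat_mul, ← e_add]
      congr 1
      push_cast
      ring
    simp only [h1]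
    rw [← mul_sum]
    have hx1 : e x ≠ 1 := by
      intro h
      obtain ⟨n, hn⟩ := e_eq_one h
      have h2 : (z : ℝ) = n * ((2 * M' : ℕ) : ℝ) := by
        rw [← hn, hx]
        field_simp
      have h3 : z = n * (2 * M' : ℕ) := by exact_mod_cast h2
      have h4 : n ≠ 0 := by
        intro h5
        rw [h5, zero_mul] at h3
        exact h0 h3
      have h5 : 1 ≤ |n| := Int.one_le_abs h4
      rw [h3, abs_mul] at hz
      have h6 : |((2 * M' : ℕ) : ℤ)| = 2 * M' := by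
        rw [Nat.abs_cast]; push_cast; rfl
      rw [h6] at hz
      have h7 : (0 : ℤ) < 2 * M' := by omega
      nlinarith
    rw [geom_sum_eq hx1]
    have h8 : e x ^ (2 * M') = 1 := by
      rw [← e_nat_mul, hx]
      have : ((2 * M' : ℕ) : ℝ) * ((z : ℝ) / ((2 * M' : ℕ) : ℝ)) = z := by field_simp
      rw [this, e_int]
    rw [h8, sub_self, zero_div, mul_zero]

variable {α β : Type*}

/-- the exponential sum of a weighted family of integers -/
noncomputable def FF (S : Finset α) (w : α → ℝ) (b : α → ℤ) (M' : ℕ) (u : ℤ) : ℂ :=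
  ∑ s ∈ S, (w s : ℂ) * e ((u : ℝ) * ((b s : ℝ) / (2 * M' : ℕ)))

/-- the weighted number of representations -/
noncomputable def RR (T : Finset α) (w : α → ℝ) (b : α → ℤ) (A : Finset β) (v : β → ℝ) (d : β → ℤ) (z : ℤ) : ℝ :=
  ∑ s ∈ T, ∑ s' ∈ T, ∑ n ∈ A, w s * w s' * v n * (if b s + b s' + d n = z then 1 else 0)

theorem parseval (T : Finset α) (w : α → ℝ) (b : α → ℤ) {M' : ℕ} (hM : 1 ≤ M')
    (hb : ∀ s ∈ T, ∀ s' ∈ T, |b s - b s'| < 2 * M') :
    ∑ u ∈ Ico (-(M' : ℤ)) M', ‖FF T w b M' u‖ ^ 2 =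
      ((2 * M' : ℕ) : ℝ) * ∑ s ∈ T, ∑ s' ∈ T, w s * w s' * (if b s = b s' then 1 else 0) := by
  have h1 : ∀ u : ℤ, ((‖FF T w b M' u‖ ^ 2 : ℝ) : ℂ) =
      ∑ s ∈ T, ∑ s' ∈ T, (w s : ℂ) * w s' * e ((u : ℝ) * (((b s - b s' : ℤ) : ℝ) / (2 * M' : ℕ))) := by
    intro u
    have h2 : ((‖FF T w b M' u‖ ^ 2 : ℝ) : ℂ) = FF T w b M' u * (starRingEnd ℂ) (FF T w b M' u) := by
      rw [Complex.mul_conj, Complex.normSq_eq_norm_sq]
    rw [h2]
    unfold FF
    rw [map_sum, sum_mul_sum]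
    refine sum_congr rfl fun s _ => sum_congr rfl fun s' _ => ?_
    rw [map_mul, Complex.conj_ofReal, ← e_neg]
    have h3 : (w s : ℂ) * e ((u : ℝ) * ((b s : ℝ) / (2 * M' : ℕ))) *
        ((w s' : ℂ) * e (-((u : ℝ) * ((b s' : ℝ) / (2 * M' : ℕ))))) = (w s : ℂ) * w s' *
        (e ((u : ℝ) * ((b s : ℝ) / (2 * M' : ℕ))) * e (-((u : ℝ) * ((b s' : ℝ) / (2 * M' : ℕ))))) := by ring
    rw [h3, ← e_add]
    congr 2
    push_cast
    ring
  have h4 : ((∑ u ∈ Ico (-(M' : ℤ)) M', ‖FF T w b M' u‖ ^ 2 : ℝ) : ℂ) =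
      ((((2 * M' : ℕ) : ℝ) * ∑ s ∈ T, ∑ s' ∈ T, w s * w s' * (if b s = b s' then 1 else 0) : ℝ) : ℂ) := by
    rw [Complex.ofReal_sum]
    simp only [h1]
    rw [sum_comm]
    push_cast
    rw [mul_sum]
    refine sum_congr rfl fun s hs => ?_
    rw [sum_comm, mul_sum]
    refine sum_congr rfl fun s' hs' => ?_
    rw [← mul_sum]
    have h5 := orth hM (b s - b s') (hb s hs s' hs')
    push_cast at h5 ⊢
    rw [h5]
    by_cases h6 : b s = b s'
    · rw [if_pos (by linarith), if_pos h6]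
      push_cast
      ring
    · rw [if_neg (by intro h; exact h6 (by linarith)), if_neg h6]
      push_cast
      ring
  exact_mod_cast h4

theorem repr_formula (T : Finset α) (w : α → ℝ) (b : α → ℤ) (A : Finset β) (v : β → ℝ) (d : β → ℤ) {M' : ℕ}
    (hM : 1 ≤ M') (z : ℤ) (hz : ∀ s ∈ T, ∀ s' ∈ T, ∀ n ∈ A, |b s + b s' + d n - z| < 2 * M') :
    ((((2 * M' : ℕ) : ℝ) * RR T w b A v d z : ℝ) : ℂ) =
      ∑ u ∈ Ico (-(M' : ℤ)) M', FF T w b M' u ^ 2 * FF A v d M' u * e (-((u : ℝ) * ((z : ℝ) / (2 * M' : ℕ)))) := by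
  have h1 : ∀ u : ℤ, FF T w b M' u ^ 2 * FF A v d M' u * e (-((u : ℝ) * ((z : ℝ) / (2 * M' : ℕ)))) =
      ∑ s ∈ T, ∑ s' ∈ T, ∑ n ∈ A, (w s : ℂ) * w s' * v n *
        e ((u : ℝ) * (((b s + b s' + d n - z : ℤ) : ℝ) / (2 * M' : ℕ))) := by
    intro u
    rw [sq]
    unfold FF
    rw [sum_mul_sum, sum_mul, sum_mul]
    refine sum_congr rfl fun s _ => ?_
    rw [sum_mul, sum_mul]
    refine sum_congr rfl fun s' _ => ?_
    rw [mul_sum, sum_mul]
    refine sum_congr rfl fun n _ => ?_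
    have h2 : e ((u : ℝ) * (((b s + b s' + d n - z : ℤ) : ℝ) / (2 * M' : ℕ))) =
        e ((u : ℝ) * ((b s : ℝ) / (2 * M' : ℕ))) * e ((u : ℝ) * ((b s' : ℝ) / (2 * M' : ℕ))) *
        e ((u : ℝ) * ((d n : ℝ) / (2 * M' : ℕ))) * e (-((u : ℝ) * ((z : ℝ) / (2 * M' : ℕ)))) := by
      rw [← e_add, ← e_add, ← e_add]
      congr 1
      push_cast
      ring
    rw [h2]
    ring
  simp only [h1]
  unfold RR
  push_cast
  symm
  rw [sum_comm, mul_sum]
  refine sum_congr rfl fun s hs => ?_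
  rw [sum_comm, mul_sum]
  refine sum_congr rfl fun s' hs' => ?_
  rw [sum_comm, mul_sum]
  refine sum_congr rfl fun n hn => ?_
  rw [← mul_sum]
  have h5 := orth hM (b s + b s' + d n - z) (hz s hs s' hs' n hn)
  push_cast at h5 ⊢
  rw [h5]
  by_cases h6 : b s + b s' + d n = z
  · rw [if_pos (by linarith), if_pos h6]
    push_cast
    ring
  · rw [if_neg (by intro h; exact h6 (by linarith)), if_neg h6]
    push_cast
    ring

theorem FF_norm_le (S : Finset α) (w : α → ℝ) (hw : ∀ s, 0 ≤ w s) (b : α → ℤ) (M' : ℕ) (u : ℤ) :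
    ‖FF S w b M' u‖ ≤ ∑ s ∈ S, w s := by
  unfold FF
  refine (norm_sum_le _ _).trans (sum_le_sum fun s _ => ?_)
  rw [norm_mul, norm_e, mul_one, Complex.norm_real, Real.norm_of_nonneg (hw s)]

/-- **the circle method** -/
theorem circle (T : Finset α) (w : α → ℝ) (hw : ∀ s, 0 ≤ w s) (b : α → ℤ) (A : Finset β) (v : β → ℝ)
    (hv : ∀ n, 0 ≤ v n) (d : β → ℤ) {M' : ℕ} (hM : 1 ≤ M') (N : ℤ) (H : ℕ)
    (hz : ∀ s ∈ T, ∀ s' ∈ T, ∀ n ∈ A, ∀ h < H + 1, |b s + b s' + d n - (N + h)| < 2 * M')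
    (hb : ∀ s ∈ T, ∀ s' ∈ T, |b s - b s'| < 2 * M') (Z : ℕ) (B1 B2 : ℝ) (hB2 : 0 ≤ B2)
    (h1 : ∑ s ∈ T, ∑ s' ∈ T, w s * w s' * (if b s = b s' then 1 else 0) ≤ B1)
    (h2 : ∀ u ∈ Ico (-(M' : ℤ)) M', (Z : ℤ) ≤ |u| → ‖FF A v d M' u‖ ≤ B2) :
    ∑ h ∈ range H, RR T w b A v d (N + h) ≤ H * (RR T w b A v d N +
      ((2 * Z + 1) * (2 * Real.pi * Z * H / (2 * M' : ℕ) ^ 2) * (∑ s ∈ T, w s) ^ 2 * (∑ n ∈ A, v n) + 2 * B2 * B1)) := by
  obtain ⟨M, hMdef⟩ : ∃ M : ℝ, M = ((2 * M' : ℕ) : ℝ) := ⟨_, rfl⟩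
  have hM0 : 0 < M := by rw [hMdef]; exact_mod_cast (by omega : 0 < 2 * M')
  obtain ⟨WT, hWT⟩ : ∃ WT : ℝ, WT = ∑ s ∈ T, w s := ⟨_, rfl⟩
  obtain ⟨WA, hWA⟩ : ∃ WA : ℝ, WA = ∑ n ∈ A, v n := ⟨_, rfl⟩
  have hWT0 : 0 ≤ WT := by rw [hWT]; exact sum_nonneg fun s _ => hw s
  have hWA0 : 0 ≤ WA := by rw [hWA]; exact sum_nonneg fun s _ => hv s
  have hpi := Real.pi_pos
  -- the formula
  have hform : ∀ h < H + 1, (((M * RR T w b A v d (N + h) : ℝ)) : ℂ) =
      ∑ u ∈ Ico (-(M' : ℤ)) M', FF T w b M' u ^ 2 * FF A v d M' u *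
        e (-((u : ℝ) * (((N + h : ℤ) : ℝ) / (2 * M' : ℕ)))) := by
    intro h hh
    rw [hMdef]
    exact repr_formula T w b A v d hM (N + h) (fun s hs s' hs' n hn => hz s hs s' hs' n hn h hh)
  have hform0 := hform 0 (by omega)
  simp only [Nat.cast_zero, add_zero] at hform0
  -- termwise bound
  have hdiff : ∀ h ∈ range H, M * RR T w b A v d (N + h) - M * RR T w b A v d N ≤
      ∑ u ∈ Ico (-(M' : ℤ)) M', ‖FF T w b M' u‖ ^ 2 * ‖FF A v d M' u‖ * min 2 (2 * Real.pi * |(u : ℝ)| * H / M) := by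
    intro h hh
    rw [mem_range] at hh
    have hsub : ((M * RR T w b A v d (N + h) - M * RR T w b A v d N : ℝ) : ℂ) =
        ∑ u ∈ Ico (-(M' : ℤ)) M', FF T w b M' u ^ 2 * FF A v d M' u *
          (e (-((u : ℝ) * (((N + h : ℤ) : ℝ) / (2 * M' : ℕ)))) - e (-((u : ℝ) * ((N : ℝ) / (2 * M' : ℕ))))) := by
      rw [Complex.ofReal_sub, hform h (by omega), hform0, ← sum_sub_distrib]
      exact sum_congr rfl fun u _ => by ring
    calc M * RR T w b A v d (N + h) - M * RR T w b A v d N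
        ≤ ‖((M * RR T w b A v d (N + h) - M * RR T w b A v d N : ℝ) : ℂ)‖ := by
          rw [Complex.norm_real]; exact le_abs_self _
      _ ≤ ∑ u ∈ Ico (-(M' : ℤ)) M', ‖FF T w b M' u‖ ^ 2 * ‖FF A v d M' u‖ * min 2 (2 * Real.pi * |(u : ℝ)| * H / M) := by
          rw [hsub]
          refine (norm_sum_le _ _).trans (sum_le_sum fun u _ => ?_)
          rw [norm_mul, norm_mul, norm_pow]
          refine mul_le_mul_of_nonneg_left ?_ (by positivity)
          refine le_min ?_ ?_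
          · refine (norm_sub_le _ _).trans ?_
            rw [norm_e, norm_e]
            norm_num
          · have h3 : e (-((u : ℝ) * (((N + h : ℤ) : ℝ) / (2 * M' : ℕ)))) =
                e (-((u : ℝ) * ((N : ℝ) / (2 * M' : ℕ)))) * e (-((u : ℝ) * ((h : ℝ) / M))) := by
              rw [← e_add, hMdef]
              congr 1
              push_cast
              ring
            rw [h3]
            have h4 : e (-((u : ℝ) * ((N : ℝ) / (2 * M' : ℕ)))) * e (-((u : ℝ) * ((h : ℝ) / M))) -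
                e (-((u : ℝ) * ((N : ℝ) / (2 * M' : ℕ)))) = e (-((u : ℝ) * ((N : ℝ) / (2 * M' : ℕ)))) *
                (e (-((u : ℝ) * ((h : ℝ) / M))) - 1) := by ring
            rw [h4, norm_mul, norm_e, one_mul]
            refine (norm_e_sub_one _).trans ?_
            rw [abs_neg, abs_mul, abs_div, abs_of_pos hM0, Nat.abs_cast]
            have h5 : (h : ℝ) ≤ H := by exact_mod_cast hh.le
            calc 2 * Real.pi * (|(u : ℝ)| * ((h : ℝ) / M)) = 2 * Real.pi * |(u : ℝ)| * h / M := by ring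
              _ ≤ 2 * Real.pi * |(u : ℝ)| * H / M := by
                  refine div_le_div_of_nonneg_right ?_ hM0.le
                  exact mul_le_mul_of_nonneg_left h5 (by positivity)
  -- the bound for the sum over `u`
  have hpars := parseval T w b hM hb
  rw [← hMdef] at hpars
  have hS : ∑ u ∈ Ico (-(M' : ℤ)) M', ‖FF T w b M' u‖ ^ 2 * ‖FF A v d M' u‖ * min 2 (2 * Real.pi * |(u : ℝ)| * H / M) ≤
      (2 * Z + 1) * (WT ^ 2 * WA * (2 * Real.pi * Z * H / M)) + 2 * B2 * (M * B1) := by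
    rw [← sum_filter_add_sum_filter_not (Ico (-(M' : ℤ)) M') (fun u => |u| < (Z : ℤ))]
    refine add_le_add ?_ ?_
    · calc ∑ u ∈ (Ico (-(M' : ℤ)) M').filter (fun u => |u| < (Z : ℤ)), ‖FF T w b M' u‖ ^ 2 * ‖FF A v d M' u‖ *
            min 2 (2 * Real.pi * |(u : ℝ)| * H / M)
          ≤ ∑ _u ∈ (Ico (-(M' : ℤ)) M').filter (fun u => |u| < (Z : ℤ)), WT ^ 2 * WA * (2 * Real.pi * Z * H / M) := by
            refine sum_le_sum fun u hu => ?_
            rw [mem_filter] at hu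
            have h3 : ‖FF T w b M' u‖ ≤ WT := by rw [hWT]; exact FF_norm_le T w hw b M' u
            have h4 : ‖FF A v d M' u‖ ≤ WA := by rw [hWA]; exact FF_norm_le A v hv d M' u
            have h5 : |(u : ℝ)| ≤ Z := by
              rw [← Int.cast_abs]; exact_mod_cast hu.2.le
            have h6 : min 2 (2 * Real.pi * |(u : ℝ)| * H / M) ≤ 2 * Real.pi * Z * H / M := by
              refine (min_le_right _ _).trans ?_
              refine div_le_div_of_nonneg_right ?_ hM0.le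
              exact mul_le_mul_of_nonneg_right (mul_le_mul_of_nonneg_left h5 (by positivity)) (by positivity)
            have h7 : ‖FF T w b M' u‖ ^ 2 ≤ WT ^ 2 := pow_le_pow_left₀ (norm_nonneg _) h3 2
            exact mul_le_mul (mul_le_mul h7 h4 (norm_nonneg _) (by positivity)) h6 (by positivity) (by positivity)
        _ ≤ (2 * Z + 1) * (WT ^ 2 * WA * (2 * Real.pi * Z * H / M)) := by
            rw [sum_const, nsmul_eq_mul]
            refine mul_le_mul_of_nonneg_right ?_ (by positivity)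
            have h3 : (Ico (-(M' : ℤ)) M').filter (fun u => |u| < (Z : ℤ)) ⊆ Icc (-(Z : ℤ)) Z := by
              intro u hu
              rw [mem_filter] at hu
              rw [mem_Icc]
              have := abs_lt.1 hu.2
              omega
            have h4 := card_le_card h3
            rw [Int.card_Icc] at h4
            have h5 : ((Z : ℤ) + 1 - -(Z : ℤ)).toNat = 2 * Z + 1 := by omega
            rw [h5] at h4
            exact_mod_cast h4
    · calc ∑ u ∈ (Ico (-(M' : ℤ)) M').filter (fun u => ¬ |u| < (Z : ℤ)), ‖FF T w b M' u‖ ^ 2 * ‖FF A v d M' u‖ *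
            min 2 (2 * Real.pi * |(u : ℝ)| * H / M)
          ≤ ∑ u ∈ (Ico (-(M' : ℤ)) M').filter (fun u => ¬ |u| < (Z : ℤ)), ‖FF T w b M' u‖ ^ 2 * (B2 * 2) := by
            refine sum_le_sum fun u hu => ?_
            rw [mem_filter] at hu
            have h3 := h2 u hu.1 (not_lt.1 hu.2)
            rw [mul_assoc]
            refine mul_le_mul_of_nonneg_left ?_ (by positivity)
            exact mul_le_mul h3 (min_le_left _ _) (by positivity) hB2
        _ ≤ ∑ u ∈ Ico (-(M' : ℤ)) M', ‖FF T w b M' u‖ ^ 2 * (B2 * 2) :=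
            sum_le_sum_of_subset_of_nonneg (filter_subset _ _) fun u _ _ => by positivity
        _ = 2 * B2 * (∑ u ∈ Ico (-(M' : ℤ)) M', ‖FF T w b M' u‖ ^ 2) := by
            rw [← sum_mul]; ring
        _ ≤ 2 * B2 * (M * B1) := by
            refine mul_le_mul_of_nonneg_left ?_ (by positivity)
            rw [hpars]
            exact mul_le_mul_of_nonneg_left h1 hM0.le
  have hall : ∀ h ∈ range H, RR T w b A v d (N + h) ≤ RR T w b A v d N +
      ((2 * Z + 1) * (2 * Real.pi * Z * H / M ^ 2) * WT ^ 2 * WA + 2 * B2 * B1) := by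
    intro h hh
    have h3 := (hdiff h hh).trans hS
    have h4 : M * RR T w b A v d (N + h) ≤ M * (RR T w b A v d N +
      ((2 * Z + 1) * (2 * Real.pi * Z * H / M ^ 2) * WT ^ 2 * WA + 2 * B2 * B1)) := by
      have h5 : M * ((2 * Z + 1) * (2 * Real.pi * Z * H / M ^ 2) * WT ^ 2 * WA + 2 * B2 * B1) =
          (2 * Z + 1) * (WT ^ 2 * WA * (2 * Real.pi * Z * H / M)) + 2 * B2 * (M * B1) := by
        field_simp
      rw [mul_add, h5]
      linarith
    exact le_of_mul_le_mul_left h4 hM0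
  refine (sum_le_sum hall).trans (le_of_eq ?_)
  rw [sum_const, card_range, nsmul_eq_mul, hMdef, hWT, hWA]

end Pool.Agent.V7H18.RP
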