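import Pool.Agent.V7H18.RP.Kmat

/-!
# Counting pairs of tuples with small differences of power sums
-/

set_option autoImplicit false

namespace Pool.Agent.V7H18.RP

open Finset

/-- the ranges of the variables -/
def TT (k X : ℕ) : Finset (Fin k → ℕ) :=
  Fintype.piFinset fun l : Fin k => Ico ((2 * (l : ℕ) + 1) * X) ((2 * (l : ℕ) + 2) * X)

theorem mem_TT {k X : ℕ} {m : Fin k → ℕ} :
    m ∈ TT k X ↔ ∀ l : Fin k, (2 * (l : ℕ) + 1) * X ≤ m l ∧ m l < (2 * (l : ℕ) + 2) * X := by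
  simp [TT]

theorem card_TT (k X : ℕ) : (TT k X).card = X ^ k := by
  unfold TT
  rw [Fintype.card_piFinset]
  have : ∀ l : Fin k, (Ico ((2 * (l : ℕ) + 1) * X) ((2 * (l : ℕ) + 2) * X)).card = X := by
    intro l
    rw [Nat.card_Ico, ← Nat.sub_mul]
    have : 2 * (l : ℕ) + 2 - (2 * (l : ℕ) + 1) = 1 := by omega
    rw [this, one_mul]
  simp [this]

/-- the difference of the power sums -/
def DD {k : ℕ} (j : ℕ) (m n : Fin k → ℕ) : ℤ := ∑ l, (m l : ℤ) ^ j - ∑ l, (n l : ℤ) ^ j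

theorem sum_castLE {r k : ℕ} (h : r ≤ k) (f : Fin k → ℝ) (hf : ∀ l : Fin k, r ≤ (l : ℕ) → f l = 0) :
    ∑ l, f l = ∑ l : Fin r, f (Fin.castLE h l) := by
  have h1 : ∑ l : Fin r, f (Fin.castLE h l) = ∑ l ∈ univ.map (Fin.castLEEmb h), f l := by
    rw [sum_map]
    rfl
  rw [h1]
  symm
  refine sum_subset (subset_univ _) fun l _ hl => hf l ?_
  by_contra hlt
  push Not at hlt
  exact hl (mem_map.2 ⟨⟨l, hlt⟩, mem_univ _, rfl⟩)

/-- the consequence of Lemma K -/
theorem HH (k r : ℕ) (hr : r ≤ k) : ∃ C : ℝ, 0 < C ∧ ∀ X : ℕ, 1 ≤ X → ∀ m ∈ TT k X, ∀ m' ∈ TT k X,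
    (∀ l : Fin k, r ≤ (l : ℕ) → m l = m' l) → ∀ V : ℝ,
    (∀ j ∈ Icc 1 k, |(DD j m m' : ℝ)| ≤ V) → ∀ l, |(m l : ℝ) - m' l| ≤ C * V / X ^ (k - r) := by
  obtain ⟨C, hC, h⟩ := lemK r (k - r) (fun l => 2 * (l : ℕ) + 1) (fun l => 2 * (l : ℕ) + 2)
    ⟨fun l => by positivity, fun l l' hll => by
      have : (l : ℕ) + 1 ≤ l' := hll
      have : ((l : ℕ) : ℝ) + 1 ≤ (l' : ℕ) := by exact_mod_cast this
      linarith⟩
  refine ⟨C, hC, ?_⟩
  intro X hX m hm m' hm' hag V hV l
  have hX0 : (0 : ℝ) < X := by exact_mod_cast hX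
  have hX1 : (1 : ℝ) ≤ X := by exact_mod_cast hX
  rw [mem_TT] at hm hm'
  by_cases hl : r ≤ (l : ℕ)
  · have hk : 1 ≤ k := by have := l.2; omega
    have hV0 : 0 ≤ V := (abs_nonneg _).trans (hV 1 (mem_Icc.2 ⟨le_refl _, hk⟩))
    rw [hag l hl, sub_self, abs_zero]
    positivity
  push Not at hl
  have hbox : ∀ (m : Fin k → ℕ), (∀ l : Fin k, (2 * (l : ℕ) + 1) * X ≤ m l ∧ m l < (2 * (l : ℕ) + 2) * X) →
      ∀ i : Fin r, (2 * (i : ℕ) + 1 : ℝ) ≤ (m (Fin.castLE hr i) : ℝ) / X ∧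
        (m (Fin.castLE hr i) : ℝ) / X ≤ 2 * (i : ℕ) + 2 := by
    intro m hm i
    obtain ⟨h1, h2⟩ := hm (Fin.castLE hr i)
    simp only [Fin.val_castLE] at h1 h2
    constructor
    · rw [le_div_iff₀ hX0]; exact_mod_cast h1
    · rw [div_le_iff₀ hX0]; exact_mod_cast h2.le
  have key := h (fun i => (m (Fin.castLE hr i) : ℝ) / X) (fun i => (m' (Fin.castLE hr i) : ℝ) / X)
    (hbox m hm) (hbox m' hm') (V / X ^ (k - r + 1)) ?_ ⟨l, hl⟩
  · have h1 : |(m l : ℝ) - m' l| = X * |(m (Fin.castLE hr ⟨l, hl⟩) : ℝ) / X - (m' (Fin.castLE hr ⟨l, hl⟩) : ℝ) / X| := by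
      have : Fin.castLE hr ⟨l, hl⟩ = l := rfl
      rw [this, ← sub_div, abs_div, abs_of_pos hX0]
      field_simp
    rw [h1]
    calc X * |(m (Fin.castLE hr ⟨l, hl⟩) : ℝ) / X - (m' (Fin.castLE hr ⟨l, hl⟩) : ℝ) / X|
        ≤ X * (C * (V / X ^ (k - r + 1))) := mul_le_mul_of_nonneg_left key hX0.le
      _ = C * V / X ^ (k - r) := by
          rw [pow_succ]
          field_simp
  · intro i
    have hi := i.2
    set j := k - r + 1 + (i : ℕ) with hj
    have h1 : ∑ i : Fin r, (((m (Fin.castLE hr i) : ℝ) / X) ^ j - ((m' (Fin.castLE hr i) : ℝ) / X) ^ j) =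
        (DD j m m' : ℝ) / X ^ j := by
      unfold DD
      push_cast
      rw [← sum_sub_distrib, sum_castLE hr (fun l => (m l : ℝ) ^ j - (m' l : ℝ) ^ j)
        (fun l hl => by rw [hag l hl, sub_self]), sum_div]
      refine sum_congr rfl fun i _ => ?_
      rw [div_pow, div_pow, sub_div]
    rw [h1, abs_div, abs_of_pos (pow_pos hX0 j)]
    have hjk : j ∈ Icc 1 k := by rw [mem_Icc]; omega
    have hV0 : 0 ≤ V := (abs_nonneg _).trans (hV j hjk)
    calc |(DD j m m' : ℝ)| / X ^ j ≤ V / X ^ j := by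
          exact div_le_div_of_nonneg_right (hV j hjk) (pow_pos hX0 j).le
      _ ≤ V / X ^ (k - r + 1) := by
          refine div_le_div_of_nonneg_left hV0 (pow_pos hX0 _) ?_
          exact pow_le_pow_right₀ hX1 (by omega)

theorem card_le_real {α β : Type*} [DecidableEq α] [DecidableEq β] (s : Finset α) (f : α → β) (B c : ℝ)
    (hB : 0 ≤ B) (h : ∀ b ∈ s.image f, ((s.filter fun x => f x = b).card : ℝ) ≤ B)
    (hc : ((s.image f).card : ℝ) ≤ c) : (s.card : ℝ) ≤ c * B := by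
  have h1 : s.card = ∑ b ∈ s.image f, (s.filter fun x => f x = b).card :=
    card_eq_sum_card_image f s
  rw [h1]
  push_cast
  calc ∑ b ∈ s.image f, ((s.filter fun x => f x = b).card : ℝ) ≤ ∑ _b ∈ s.image f, B := sum_le_sum h
    _ = (s.image f).card * B := by rw [sum_const, nsmul_eq_mul]
    _ ≤ c * B := mul_le_mul_of_nonneg_right hc hB

/-- a set of tuples with small differences is small -/
theorem card_near {k : ℕ} (Z : Finset (Fin k → ℕ)) (c : ℝ) (hc : 0 ≤ c)
    (h : ∀ m ∈ Z, ∀ m' ∈ Z, ∀ l, |(m l : ℝ) - m' l| ≤ c) : (Z.card : ℝ) ≤ (2 * c + 1) ^ k := by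
  rcases Z.eq_empty_or_nonempty with rfl | ⟨m0, h0⟩
  · simp; positivity
  have hsub : Z ⊆ Fintype.piFinset fun l => Icc (m0 l - ⌊c⌋₊) (m0 l + ⌊c⌋₊) := by
    intro m hm
    rw [Fintype.mem_piFinset]
    intro l
    have h1 := h m hm m0 h0 l
    rw [abs_le] at h1
    rw [mem_Icc]
    have h2 : m l ≤ m0 l + ⌊c⌋₊ := by
      by_contra hlt
      push Not at hlt
      have h3 : ((m0 l + ⌊c⌋₊ + 1 : ℕ) : ℝ) ≤ m l := by exact_mod_cast hlt
      have h4 := Nat.lt_floor_add_one c
      push_cast at h3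
      linarith [h1.2]
    have h3 : m0 l ≤ m l + ⌊c⌋₊ := by
      by_contra hlt
      push Not at hlt
      have h3 : ((m l + ⌊c⌋₊ + 1 : ℕ) : ℝ) ≤ m0 l := by exact_mod_cast hlt
      have h4 := Nat.lt_floor_add_one c
      push_cast at h3
      linarith [h1.1]
    omega
  have h2 : Z.card ≤ (2 * ⌊c⌋₊ + 1) ^ k := by
    calc Z.card ≤ _ := card_le_card hsub
      _ = ∏ l, (Icc (m0 l - ⌊c⌋₊) (m0 l + ⌊c⌋₊)).card := Fintype.card_piFinset _
      _ ≤ ∏ _l : Fin k, (2 * ⌊c⌋₊ + 1) := by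
          refine prod_le_prod' fun l _ => ?_
          rw [Nat.card_Icc]
          omega
      _ = (2 * ⌊c⌋₊ + 1) ^ k := by simp
  calc (Z.card : ℝ) ≤ ((2 * ⌊c⌋₊ + 1 : ℕ) : ℝ) ^ k := by exact_mod_cast h2
    _ ≤ (2 * c + 1) ^ k := by
        refine pow_le_pow_left₀ (by positivity) ?_ k
        push_cast
        have := Nat.floor_le hc
        linarith

/-- a set of natural numbers with small differences is small -/
theorem card_near_nat (Z : Finset ℕ) (c : ℝ) (hc : 0 ≤ c)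
    (h : ∀ m ∈ Z, ∀ m' ∈ Z, |(m : ℝ) - m'| ≤ c) : (Z.card : ℝ) ≤ 2 * c + 1 := by
  have h1 := card_near (k := 1) (Z.image fun x => fun _ : Fin 1 => x) c hc (by
    intro m hm m' hm' l
    rw [mem_image] at hm hm'
    obtain ⟨x, hx, rfl⟩ := hm
    obtain ⟨y, hy, rfl⟩ := hm'
    exact h x hx y hy)
  rw [card_image_of_injective _ (fun x y hxy => congrFun hxy 0), pow_one] at h1
  exact h1

theorem exists_scale {X V : ℝ} (hX : 1 ≤ X) (h1 : 1 ≤ V) : ∀ k : ℕ, 1 ≤ k → V ≤ X ^ k →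
    ∃ i < k, X ^ i ≤ V ∧ V ≤ X ^ (i + 1) := by
  intro k
  induction k with
  | zero => intro h; omega
  | succ k ih =>
    intro _ hV
    rcases Nat.eq_zero_or_pos k with rfl | hk
    · exact ⟨0, by omega, by simpa using h1, hV⟩
    · rcases le_or_gt V (X ^ k) with h | h
      · obtain ⟨i, hi, h2⟩ := ih hk h
        exact ⟨i, by omega, h2⟩
      · exact ⟨k, by omega, h.le, hV⟩

/-- the coordinates from `r` on -/
def trunc {k : ℕ} (r : ℕ) (m : Fin k → ℕ) : Fin k → ℕ := fun l => if (l : ℕ) < r then 0 else m l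

theorem card_trunc (k r X : ℕ) (hr : r ≤ k) (Z : Finset (Fin k → ℕ)) (hZ : Z ⊆ TT k X) :
    (Z.image (trunc r)).card ≤ X ^ (k - r) := by
  have hsub : Z.image (trunc r) ⊆ Fintype.piFinset fun l : Fin k =>
      if (l : ℕ) < r then {0} else Ico ((2 * (l : ℕ) + 1) * X) ((2 * (l : ℕ) + 2) * X) := by
    intro g hg
    rw [mem_image] at hg
    obtain ⟨m, hm, rfl⟩ := hg
    rw [Fintype.mem_piFinset]
    intro l
    unfold trunc
    split_ifs with h
    · simp
    · have := mem_TT.1 (hZ hm) l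
      rw [mem_Ico]; exact this
  refine (card_le_card hsub).trans ?_
  rw [Fintype.card_piFinset]
  have h1 : ∀ l : Fin k, (if (l : ℕ) < r then ({0} : Finset ℕ) else
      Ico ((2 * (l : ℕ) + 1) * X) ((2 * (l : ℕ) + 2) * X)).card = if (l : ℕ) < r then 1 else X := by
    intro l
    split_ifs with h
    · simp
    · rw [Nat.card_Ico, ← Nat.sub_mul]
      have : 2 * (l : ℕ) + 2 - (2 * (l : ℕ) + 1) = 1 := by omega
      rw [this, one_mul]
  simp only [h1]
  obtain ⟨e, rfl⟩ := Nat.exists_eq_add_of_le hr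
  rw [Fin.prod_univ_add]
  simp

theorem trunc_eq {k r : ℕ} {m m' : Fin k → ℕ} (h : trunc r m = trunc r m') (l : Fin k) (hl : r ≤ (l : ℕ)) :
    m l = m' l := by
  have := congrFun h l
  unfold trunc at this
  rw [if_neg (by omega), if_neg (by omega)] at this
  exact this

theorem DD_triangle {k : ℕ} (j : ℕ) (m m' n : Fin k → ℕ) : DD j m m' = DD j m n - DD j m' n := by
  unfold DD; ring

/-- the power sums of `m` and `n` differ by at most `V` -/
def Sm {k : ℕ} (V : ℝ) (m n : Fin k → ℕ) : Prop := ∀ j ∈ Icc 1 k, |(DD j m n : ℝ)| ≤ V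

open scoped Classical in
theorem count (k : ℕ) (hk : 1 ≤ k) : ∃ C : ℝ, 1 ≤ C ∧ ∀ X : ℕ, 1 ≤ X → ∀ V : ℝ, 1 ≤ V →
    (((TT k X ×ˢ TT k X).filter fun z => Sm V z.1 z.2).card : ℝ) ≤
      C * V * X ^ k := by
  have hex : ∀ r : ℕ, ∃ C : ℝ, 0 < C ∧ (r ≤ k → ∀ X : ℕ, 1 ≤ X → ∀ m ∈ TT k X, ∀ m' ∈ TT k X,
    (∀ l : Fin k, r ≤ (l : ℕ) → m l = m' l) → ∀ V : ℝ,
    (∀ j ∈ Icc 1 k, |(DD j m m' : ℝ)| ≤ V) → ∀ l, |(m l : ℝ) - m' l| ≤ C * V / X ^ (k - r)) := by
    intro r
    by_cases hr : r ≤ k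
    · obtain ⟨C, hC, h⟩ := HH k r hr
      exact ⟨C, hC, fun _ => h⟩
    · exact ⟨1, one_pos, fun h => absurd h hr⟩
  choose C hC0 hC using hex
  set K : ℝ := ∑ r ∈ range (k + 1), C r + 1 with hK
  have hCK : ∀ r ≤ k, C r ≤ K := by
    intro r hr
    have := single_le_sum (f := C) (fun i _ => (hC0 i).le) (mem_range.2 (Nat.lt_succ_of_le hr))
    linarith
  have hK1 : 1 ≤ K := by
    have : 0 ≤ ∑ r ∈ range (k + 1), C r := sum_nonneg fun i _ => (hC0 i).le
    linarith
  have hK5 : (1 : ℝ) ≤ (4 * K + 1) ^ k := one_le_pow₀ (by linarith)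
  refine ⟨5 * K * (4 * K + 1) ^ k, by nlinarith, ?_⟩
  intro X hX V hV
  have hX1 : (1 : ℝ) ≤ X := by exact_mod_cast hX
  have hXk : (0 : ℝ) < (X : ℝ) ^ k := by positivity
  set S := (TT k X ×ˢ TT k X).filter fun z => Sm V z.1 z.2 with hS
  rcases le_or_gt V ((X : ℝ) ^ k) with hVX | hVX
  · obtain ⟨i, hik, hi1, hi2⟩ := exists_scale hX1 hV k hk hVX
    -- `i = k - r`
    set r := k - i with hr
    have hrk : r ≤ k := by omega
    have hr1 : 1 ≤ r := by omega
    have hkr : k - r = i := by omega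
    have hkr1 : k - (r - 1) = i + 1 := by omega
    -- for fixed `n`
    have hn : ∀ n ∈ TT k X, (((TT k X).filter fun m => Sm V m n).card : ℝ) ≤
        X ^ i * ((4 * K * (V / X ^ i) + 1) * (4 * K + 1) ^ k) := by
      intro n hn
      set Sn := (TT k X).filter fun m => Sm V m n with hSn
      have hpair : ∀ m ∈ Sn, ∀ m' ∈ Sn, ∀ j ∈ Icc 1 k, |(DD j m m' : ℝ)| ≤ 2 * V := by
        intro m hm m' hm' j hj
        rw [hSn, mem_filter] at hm hm'
        have h1 := hm.2 j hj
        have h2 := hm'.2 j hj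
        rw [DD_triangle j m m' n]
        push_cast
        rw [abs_le] at h1 h2 ⊢
        constructor <;> linarith
      have hVi : 0 ≤ V / X ^ i := by positivity
      refine card_le_real Sn (trunc r) _ _ (by positivity) ?_ ?_
      · intro g hg
        set Z := Sn.filter fun m => trunc r m = g with hZ
        have hZS : ∀ m ∈ Z, m ∈ Sn ∧ trunc r m = g := fun m hm => by
          rw [hZ, mem_filter] at hm; exact hm
        refine card_le_real Z (fun m => m ⟨r - 1, by omega⟩) _ _ (by positivity) ?_ ?_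
        · intro x hx
          have h1 : ((Z.filter fun m => m ⟨r - 1, by omega⟩ = x).card : ℝ) ≤ (2 * (2 * K) + 1) ^ k := by
            refine card_near _ (2 * K) (by positivity) ?_
            intro m hm m' hm' l
            rw [mem_filter] at hm hm'
            obtain ⟨hmS, hmg⟩ := hZS m hm.1
            obtain ⟨hmS', hmg'⟩ := hZS m' hm'.1
            have h2 := hC (r - 1) (by omega) X hX m (mem_filter.1 hmS).1 m' (mem_filter.1 hmS').1 (by
              intro l hl
              rcases Nat.lt_or_ge (l : ℕ) r with h3 | h3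
              · have h4 : l = ⟨r - 1, by omega⟩ := Fin.ext (by simp; omega)
                rw [h4]
                exact hm.2.trans hm'.2.symm
              · exact trunc_eq (hmg.trans hmg'.symm) l h3) (2 * V) (hpair m hmS m' hmS') l
            rw [hkr1] at h2
            refine h2.trans ?_
            rw [div_le_iff₀ (by positivity)]
            have h3 := hCK (r - 1) (by omega)
            have h4 : C (r - 1) * (2 * V) ≤ K * (2 * X ^ (i + 1)) :=
              mul_le_mul h3 (by linarith) (by linarith) (by linarith)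
            linarith
          refine h1.trans (le_of_eq ?_)
          ring
        · have h1 := card_near_nat (Z.image fun m => m ⟨r - 1, by omega⟩) (2 * K * (V / X ^ i)) (by positivity) ?_
          · refine h1.trans (le_of_eq ?_)
            ring
          · intro x hx y hy
            rw [mem_image] at hx hy
            obtain ⟨m, hm, rfl⟩ := hx
            obtain ⟨m', hm', rfl⟩ := hy
            obtain ⟨hmS, hmg⟩ := hZS m hm
            obtain ⟨hmS', hmg'⟩ := hZS m' hm'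
            have h2 := hC r hrk X hX m (mem_filter.1 hmS).1 m' (mem_filter.1 hmS').1
              (fun l hl => trunc_eq (hmg.trans hmg'.symm) l hl) (2 * V) (hpair m hmS m' hmS')
              ⟨r - 1, by omega⟩
            rw [hkr] at h2
            refine h2.trans ?_
            have h3 := hCK r hrk
            have h5 : C r * (2 * V) / X ^ i = C r * (2 * (V / X ^ i)) := by ring
            rw [h5]
            calc C r * (2 * (V / X ^ i)) ≤ K * (2 * (V / X ^ i)) :=
                  mul_le_mul_of_nonneg_right h3 (by positivity)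
              _ = 2 * K * (V / X ^ i) := by ring
      · have h1 := card_trunc k r X hrk Sn (filter_subset _ _)
        rw [hkr] at h1
        exact_mod_cast h1
    have hn' : ∀ n ∈ TT k X, (((TT k X).filter fun m => Sm V m n).card : ℝ) ≤
        5 * K * (4 * K + 1) ^ k * V := by
      intro n hn1
      refine (hn n hn1).trans ?_
      have hXi : (0 : ℝ) < (X : ℝ) ^ i := by positivity
      have h1 : (X : ℝ) ^ i * ((4 * K * (V / X ^ i) + 1) * (4 * K + 1) ^ k) =
          (4 * K * V + X ^ i) * (4 * K + 1) ^ k := by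
        field_simp
      rw [h1]
      have h2 : 4 * K * V + (X : ℝ) ^ i ≤ 5 * K * V := by nlinarith
      calc (4 * K * V + (X : ℝ) ^ i) * (4 * K + 1) ^ k ≤ (5 * K * V) * (4 * K + 1) ^ k :=
            mul_le_mul_of_nonneg_right h2 (by positivity)
        _ = _ := by ring
    have hcard : S.card = ∑ n ∈ TT k X, ((TT k X).filter fun m => Sm V m n).card := by
      rw [hS, card_filter, sum_product_right]
      refine sum_congr rfl fun n _ => ?_
      rw [card_filter]
    rw [hcard]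
    push_cast
    calc ∑ n ∈ TT k X, (((TT k X).filter fun m => Sm V m n).card : ℝ)
        ≤ ∑ _n ∈ TT k X, 5 * K * (4 * K + 1) ^ k * V := sum_le_sum hn'
      _ = 5 * K * (4 * K + 1) ^ k * V * X ^ k := by
          rw [sum_const, nsmul_eq_mul, card_TT]
          push_cast
          ring
  · have h1 : (S.card : ℝ) ≤ X ^ k * X ^ k := by
      have : S.card ≤ X ^ k * X ^ k := by
        calc S.card ≤ (TT k X ×ˢ TT k X).card := card_filter_le _ _
          _ = X ^ k * X ^ k := by rw [card_product, card_TT]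
      exact_mod_cast this
    refine h1.trans ?_
    have h2 : (X : ℝ) ^ k * X ^ k ≤ V * X ^ k := mul_le_mul_of_nonneg_right hVX.le hXk.le
    refine h2.trans ?_
    refine mul_le_mul_of_nonneg_right ?_ hXk.le
    have h3 : 1 ≤ 5 * K * (4 * K + 1) ^ k := by nlinarith
    nlinarith

/-- `1 + ∑_j |D_j|` -/
def ww {k : ℕ} (m n : Fin k → ℕ) : ℕ := 1 + ∑ j ∈ Icc 1 k, (DD j m n).natAbs

open scoped Classical in
theorem sum_inv (k : ℕ) (hk : 1 ≤ k) : ∃ C : ℝ, 1 ≤ C ∧ ∀ X : ℕ, 1 ≤ X → ∀ I : ℕ,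
    (∀ m ∈ TT k X, ∀ n ∈ TT k X, ww m n < 2 ^ (I + 1)) →
    ∑ z ∈ TT k X ×ˢ TT k X, 1 / (ww z.1 z.2 : ℝ) ≤ C * (I + 1) * X ^ k := by
  obtain ⟨C, hC, h⟩ := count k hk
  refine ⟨2 * C, by linarith, ?_⟩
  intro X hX I hI
  have h1 : ∀ z ∈ TT k X ×ˢ TT k X, 1 / (ww z.1 z.2 : ℝ) ≤
      ∑ i ∈ range (I + 1), (1 / 2 ^ i : ℝ) * (if Sm (2 ^ (i + 1)) z.1 z.2 then 1 else 0) := by
    intro z hz
    rw [mem_product] at hz
    have hw := hI _ hz.1 _ hz.2
    have hw0 : ww z.1 z.2 ≠ 0 := by unfold ww; omega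
    set i := Nat.log 2 (ww z.1 z.2) with hi
    have hi1 : 2 ^ i ≤ ww z.1 z.2 := Nat.pow_log_le_self 2 hw0
    have hi2 : ww z.1 z.2 < 2 ^ (i + 1) := Nat.lt_pow_succ_log_self (by norm_num) _
    have hiI : i < I + 1 := by
      by_contra hlt
      push Not at hlt
      have := Nat.pow_le_pow_right (show 0 < 2 by norm_num) hlt
      omega
    have hterm : (1 : ℝ) / ww z.1 z.2 ≤
        (1 / 2 ^ i : ℝ) * (if Sm (2 ^ (i + 1)) z.1 z.2 then 1 else 0) := by
      rw [if_pos, mul_one]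
      · exact one_div_le_one_div_of_le (by positivity) (by exact_mod_cast hi1)
      · intro j hj
        have h2 : (DD j z.1 z.2).natAbs ≤ ww z.1 z.2 := by
          unfold ww
          have := single_le_sum (f := fun j => (DD j z.1 z.2).natAbs) (fun _ _ => Nat.zero_le _) hj
          omega
        have h3 : |(DD j z.1 z.2 : ℝ)| = ((DD j z.1 z.2).natAbs : ℝ) := by
          rw [Nat.cast_natAbs, Int.cast_abs]
        rw [h3]
        exact_mod_cast (h2.trans hi2.le)
    refine hterm.trans ?_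
    exact single_le_sum (f := fun i => (1 / 2 ^ i : ℝ) *
      (if Sm (2 ^ (i + 1)) z.1 z.2 then 1 else 0))
      (fun i _ => by positivity) (mem_range.2 hiI)
  refine (sum_le_sum h1).trans ?_
  rw [sum_comm]
  calc ∑ i ∈ range (I + 1), ∑ z ∈ TT k X ×ˢ TT k X, (1 / 2 ^ i : ℝ) *
        (if Sm (2 ^ (i + 1)) z.1 z.2 then 1 else 0)
      ≤ ∑ i ∈ range (I + 1), 2 * C * X ^ k := by
        refine sum_le_sum fun i _ => ?_
        rw [← mul_sum]
        have h2 := h X hX (2 ^ (i + 1)) (one_le_pow₀ (by norm_num))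
        have h3 : ∑ z ∈ TT k X ×ˢ TT k X,
            (if Sm (2 ^ (i + 1)) z.1 z.2 then (1 : ℝ) else 0) =
            (((TT k X ×ˢ TT k X).filter fun z => Sm (2 ^ (i + 1)) z.1 z.2).card : ℝ) := by
          rw [← sum_filter, sum_const, nsmul_eq_mul, mul_one]
        rw [h3]
        calc (1 / 2 ^ i : ℝ) * _ ≤ (1 / 2 ^ i : ℝ) * (C * 2 ^ (i + 1) * X ^ k) :=
              mul_le_mul_of_nonneg_left h2 (by positivity)
          _ = 2 * C * X ^ k := by
              rw [pow_succ]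
              field_simp
    _ = 2 * C * (I + 1) * X ^ k := by
        rw [sum_const, card_range, nsmul_eq_mul]
        push_cast
        ring

end Pool.Agent.V7H18.RP
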