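import Pool.Agent.V7H18.RP.Avg

/-!
# The Fourier expansion of `sin(πy)² e(α⌊y⌋)`
-/

set_option autoImplicit false

namespace Pool.Agent.V7H18.RP

open Finset MeasureTheory
open Pool.Agent.R377.KL (e norm_e e_add e_int e_eq)

/-- the weight -/
noncomputable def phi (y : ℝ) : ℝ := Real.sin (Real.pi * y) ^ 2

theorem phi_nonneg (y : ℝ) : 0 ≤ phi y := sq_nonneg _

theorem phi_le (y : ℝ) : phi y ≤ 1 := Real.sin_sq_le_one _

theorem phi_eq (y : ℝ) : (phi y : ℂ) = 1 / 2 - (e y + e (-y)) / 4 := by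
  unfold phi
  rw [Real.sin_sq_eq_half_sub, e_eq, e_eq]
  have h1 : 2 * Real.pi * -y = -(2 * Real.pi * y) := by ring
  have h2 : 2 * (Real.pi * y) = 2 * Real.pi * y := by ring
  rw [h1, h2, Real.cos_neg, Real.sin_neg]
  push_cast
  ring

/-- the Fourier transform of the weight on `[0, 1]` -/
noncomputable def gg (β : ℝ) : ℂ := ∫ t in (0 : ℝ)..1, (phi t : ℂ) * e (-β * t)

theorem phi_cont : Continuous phi := by
  unfold phi
  fun_prop

theorem f_cont (β : ℝ) : Continuous fun t : ℝ => (phi t : ℂ) * e (-β * t) := by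
  refine Continuous.mul (Complex.continuous_ofReal.comp phi_cont) (e_continuous.comp ?_)
  fun_prop

theorem gg_le_one (β : ℝ) : ‖gg β‖ ≤ 1 := by
  have h := intervalIntegral.norm_integral_le_of_norm_le_const (a := (0 : ℝ)) (b := 1)
    (f := fun t : ℝ => (phi t : ℂ) * e (-β * t)) (C := 1) (by
      intro t _
      rw [norm_mul, norm_e, mul_one, Complex.norm_real, Real.norm_of_nonneg (phi_nonneg t)]
      exact phi_le t)
  unfold gg
  simpa using h

theorem int_e {β : ℝ} (hβ : β ≠ 0) : ∫ t in (0 : ℝ)..1, e (-β * t) = (1 - e (-β)) / (2 * Real.pi * Complex.I * β) := by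
  have hpi : (Real.pi : ℂ) ≠ 0 := by exact_mod_cast Real.pi_pos.ne'
  have hb : (β : ℂ) ≠ 0 := by exact_mod_cast hβ
  have hc : (-(2 * Real.pi * Complex.I * β) : ℂ) ≠ 0 := by
    simp [hpi, hb, Complex.I_ne_zero]
  have h1 : ∀ t : ℝ, e (-β * t) = Complex.exp (-(2 * Real.pi * Complex.I * β) * t) := by
    intro t
    unfold Pool.Agent.R377.KL.e
    congr 1
    push_cast
    ring
  simp only [h1]
  rw [integral_exp_mul_complex hc]
  have h2 : e (-β) = Complex.exp (-(2 * Real.pi * Complex.I * β) * ((1 : ℝ) : ℂ)) := by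
    rw [← h1, mul_one]
  rw [h2]
  simp only [Complex.ofReal_zero, mul_zero, Complex.exp_zero]
  have h3 : (2 * Real.pi * Complex.I * β : ℂ) ≠ 0 := by
    intro h; exact hc (by rw [h, neg_zero])
  rw [div_neg, ← neg_div]
  congr 1
  ring

theorem gg_bound {β : ℝ} (hβ : 3 / 2 ≤ |β|) : ‖gg β‖ ≤ 1 / β ^ 2 := by
  have hβ2 : 9 / 4 ≤ β ^ 2 := by
    rw [← sq_abs]; nlinarith
  have hb0 : β ≠ 0 := by intro h; rw [h] at hβ2; norm_num at hβ2
  have hb1 : β - 1 ≠ 0 := by intro h; have : β = 1 := by linarith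
                             rw [this] at hβ2; norm_num at hβ2
  have hb2 : β + 1 ≠ 0 := by intro h; have : β = -1 := by linarith
                             rw [this] at hβ2; norm_num at hβ2
  have hpi0 : (Real.pi : ℂ) ≠ 0 := by exact_mod_cast Real.pi_pos.ne'
  have c0 : (β : ℂ) ≠ 0 := by exact_mod_cast hb0
  have c1 : (β : ℂ) - 1 ≠ 0 := by exact_mod_cast hb1
  have c2 : (β : ℂ) + 1 ≠ 0 := by exact_mod_cast hb2
  have hcont : ∀ γ : ℝ, IntervalIntegrable (fun t : ℝ => e (-γ * t)) volume 0 1 := by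
    intro γ
    apply Continuous.intervalIntegrable
    exact e_continuous.comp (by fun_prop)
  have h1 : gg β = 1 / 2 * ((1 - e (-β)) / (2 * Real.pi * Complex.I * β)) -
      1 / 4 * ((1 - e (-β)) / (2 * Real.pi * Complex.I * ((β - 1 : ℝ) : ℂ))) -
      1 / 4 * ((1 - e (-β)) / (2 * Real.pi * Complex.I * ((β + 1 : ℝ) : ℂ))) := by
    have e1 : e (-(β - 1)) = e (-β) := by
      have := e_add (-β) 1
      have h2 := e_int 1
      rw [Int.cast_one] at h2
      rw [h2, mul_one] at this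
      rw [← this]
      congr 1
      ring
    have e2 : e (-(β + 1)) = e (-β) := by
      have := e_add (-(β + 1)) 1
      have h2 := e_int 1
      rw [Int.cast_one] at h2
      rw [h2, mul_one] at this
      rw [← this]
      congr 1
      ring
    have i0 := int_e hb0
    have i1 := int_e hb1
    have i2 := int_e hb2
    rw [e1] at i1
    rw [e2] at i2
    rw [← i0, ← i1, ← i2, ← intervalIntegral.integral_const_mul, ← intervalIntegral.integral_const_mul,
      ← intervalIntegral.integral_const_mul, ← intervalIntegral.integral_sub, ← intervalIntegral.integral_sub]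
    · unfold gg
      refine intervalIntegral.integral_congr fun t _ => ?_
      rw [phi_eq]
      have a1 : e (-(β - 1) * t) = e t * e (-β * t) := by
        rw [← e_add]; congr 1; ring
      have a2 : e (-(β + 1) * t) = e (-t) * e (-β * t) := by
        rw [← e_add]; congr 1; ring
      rw [a1, a2]
      ring
    · exact ((hcont β).const_mul _).sub ((hcont (β - 1)).const_mul _)
    · exact (hcont (β + 1)).const_mul _
    · exact (hcont β).const_mul _
    · exact (hcont (β - 1)).const_mul _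
  have h2 : gg β = (1 - e (-β)) / (2 * Real.pi * Complex.I) * (-1 / (2 * β * (β ^ 2 - 1)) : ℝ) := by
    rw [h1]
    have c3 : (β : ℂ) ^ 2 - 1 ≠ 0 := by
      have : (β : ℂ) ^ 2 - 1 = ((β : ℂ) - 1) * ((β : ℂ) + 1) := by ring
      rw [this]
      exact mul_ne_zero c1 c2
    push_cast
    field_simp
    ring
  rw [h2, norm_mul, norm_div, Complex.norm_real]
  have h3 : ‖1 - e (-β)‖ ≤ 2 := by
    refine (norm_sub_le _ _).trans ?_
    rw [norm_one, norm_e]
    norm_num
  have h4 : ‖(2 * Real.pi * Complex.I : ℂ)‖ = 2 * Real.pi := by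
    simp [abs_of_pos Real.pi_pos]
  have hpi3 := Real.pi_gt_three
  have h5 : ‖1 - e (-β)‖ / ‖(2 * Real.pi * Complex.I : ℂ)‖ ≤ 1 / 3 := by
    rw [h4, div_le_div_iff₀ (by linarith) (by norm_num)]
    linarith
  have h6 : ‖(-1 / (2 * β * (β ^ 2 - 1)) : ℝ)‖ ≤ 3 / β ^ 2 := by
    rw [Real.norm_eq_abs, abs_div, abs_neg, abs_one, abs_mul, abs_mul, abs_of_pos (by linarith : 0 < β ^ 2 - 1)]
    have h7 : |(2 : ℝ)| = 2 := by norm_num
    rw [h7, div_le_div_iff₀ (by nlinarith) (by linarith)]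
    nlinarith
  calc ‖1 - e (-β)‖ / ‖(2 * Real.pi * Complex.I : ℂ)‖ * ‖(-1 / (2 * β * (β ^ 2 - 1)) : ℝ)‖
      ≤ 1 / 3 * (3 / β ^ 2) := mul_le_mul h5 h6 (norm_nonneg _) (by norm_num)
    _ = 1 / β ^ 2 := by ring

/-- the summable majorant -/
noncomputable def uu (h : ℤ) : ℝ := 1 / |(h : ℝ) + 1 / 2| ^ (3 / 2 : ℝ)

theorem uu_summable : Summable uu := by
  unfold uu
  exact (Real.summable_one_div_int_add_rpow (1 / 2) (3 / 2)).2 (by norm_num)

theorem uu_nonneg (h : ℤ) : 0 ≤ uu h := by unfold uu; positivity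

/-- `max 1 |h|` -/
noncomputable def mx (h : ℤ) : ℝ := max 1 |(h : ℝ)|

theorem one_le_mx (h : ℤ) : 1 ≤ mx h := le_max_left _ _

theorem uu_ge (h : ℤ) : 1 / mx h ^ (3 / 2 : ℝ) ≤ 3 * uu h := by
  have h1 : |(h : ℝ) + 1 / 2| ≤ 2 * mx h := by
    have h2 : |(h : ℝ) + 1 / 2| ≤ |(h : ℝ)| + 1 / 2 := by
      have := abs_add_le (h : ℝ) (1 / 2)
      rwa [abs_of_pos (show (0 : ℝ) < 1 / 2 by norm_num)] at this
    have h3 : |(h : ℝ)| ≤ mx h := le_max_right _ _
    have h4 := one_le_mx h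
    linarith
  have h0 : (h : ℝ) + 1 / 2 ≠ 0 := by
    intro h2
    have h3 : (2 * h + 1 : ℝ) = 0 := by linarith
    have h4 : 2 * h + 1 = 0 := by exact_mod_cast h3
    omega
  have h5 : 0 < |(h : ℝ) + 1 / 2| := abs_pos.2 h0
  have hm := one_le_mx h
  unfold uu
  have h6 : |(h : ℝ) + 1 / 2| ^ (3 / 2 : ℝ) ≤ (2 * mx h) ^ (3 / 2 : ℝ) :=
    Real.rpow_le_rpow h5.le h1 (by norm_num)
  have h7 : (2 * mx h) ^ (3 / 2 : ℝ) = 2 ^ (3 / 2 : ℝ) * mx h ^ (3 / 2 : ℝ) :=
    Real.mul_rpow (by norm_num) (by linarith)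
  have h8 : (2 : ℝ) ^ (3 / 2 : ℝ) ≤ 3 := by
    have : ((2 : ℝ) ^ (3 / 2 : ℝ)) ^ 2 ≤ 3 ^ 2 := by
      rw [← Real.rpow_natCast, ← Real.rpow_mul (by norm_num)]
      norm_num
    exact (pow_le_pow_iff_left₀ (by positivity) (by norm_num) (by norm_num)).1 this
  rw [mul_one_div, div_le_div_iff₀ (by positivity) (by positivity)]
  have h9 : 0 < mx h ^ (3 / 2 : ℝ) := by positivity
  nlinarith

theorem gg_mx {α : ℝ} (hα : |α| ≤ 1 / 2) (h : ℤ) : ‖gg (α + h)‖ ≤ 2 / mx h ^ 2 := by
  have hm := one_le_mx h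
  rcases le_or_gt |h| 1 with h1 | h1
  · have h2 : mx h = 1 := by
      unfold mx
      apply max_eq_left
      rw [← Int.cast_abs]
      exact_mod_cast h1
    rw [h2]
    refine (gg_le_one _).trans (by norm_num)
  · have h1' : 2 ≤ |h| := h1
    have h2 : (2 : ℝ) ≤ |(h : ℝ)| := by
      rw [← Int.cast_abs]; exact_mod_cast h1'
    have h3 : mx h = |(h : ℝ)| := max_eq_right (by linarith)
    have h4 : 3 / 4 * |(h : ℝ)| ≤ |α + h| := by
      have := abs_sub_abs_le_abs_sub (h : ℝ) (-α)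
      rw [abs_neg, sub_neg_eq_add, add_comm (h : ℝ) α] at this
      linarith
    refine (gg_bound (by linarith)).trans ?_
    rw [h3, ← sq_abs (α + h)]
    have h5 : (3 / 4 * |(h : ℝ)|) ^ 2 ≤ |α + h| ^ 2 := pow_le_pow_left₀ (by positivity) h4 2
    have h6 : 0 < |α + h| := by linarith
    have h7 : 0 < |(h : ℝ)| := by linarith
    rw [div_le_div_iff₀ (by positivity) (by positivity)]
    nlinarith

theorem mx_sq_le (h : ℤ) : 1 / mx h ^ 2 ≤ 1 / mx h ^ (3 / 2 : ℝ) := by
  have hm := one_le_mx h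
  refine one_div_le_one_div_of_le (by positivity) ?_
  have : mx h ^ (3 / 2 : ℝ) ≤ mx h ^ (2 : ℝ) := Real.rpow_le_rpow_of_exponent_le hm (by norm_num)
  simpa using this

theorem gg_uu {α : ℝ} (hα : |α| ≤ 1 / 2) (h : ℤ) : ‖gg (α + h)‖ ≤ 6 * uu h := by
  have h1 := gg_mx hα h
  have h2 := mx_sq_le h
  have h3 := uu_ge h
  have h4 : 2 / mx h ^ 2 = 2 * (1 / mx h ^ 2) := by ring
  linarith

/-- **the Fourier expansion** -/
theorem fourier_phi {α : ℝ} (hα : |α| ≤ 1 / 2) (y : ℝ) :
    HasSum (fun h : ℤ => gg (α + h) * e ((α + h) * y)) (phi y * e (α * ⌊y⌋)) := by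
  set f : ℝ → ℂ := fun t => (phi t : ℂ) * e (-α * t) with hf
  have hf0 : f 0 = f 1 := by
    simp [hf, phi]
  set F : C(AddCircle (1 : ℝ), ℂ) := ⟨AddCircle.liftIco 1 0 f,
    AddCircle.liftIco_zero_continuous hf0 (f_cont α).continuousOn⟩ with hF
  have hcoef : ∀ h : ℤ, fourierCoeff F h = gg (α + h) := by
    intro h
    have h1 : fourierCoeff F h = fourierCoeff (AddCircle.liftIco 1 0 f) h := rfl
    rw [h1, fourierCoeff_eq_intervalIntegral _ _ 0]
    simp only [zero_add, ne_eq, one_ne_zero, not_false_eq_true, div_self, one_smul]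
    unfold gg
    refine intervalIntegral.integral_congr_Ioo_of_le (by norm_num) fun t ht => ?_
    rw [AddCircle.liftIco_zero_coe_apply ⟨ht.1.le, ht.2⟩, fourier_coe_apply, smul_eq_mul, hf]
    simp only
    have h2 : e (-(α + h) * t) = Complex.exp (2 * Real.pi * Complex.I * ((-h : ℤ) : ℂ) * t / (1 : ℝ)) * e (-α * t) := by
      have h3 : e (-h * t) = Complex.exp (2 * Real.pi * Complex.I * ((-h : ℤ) : ℂ) * t / (1 : ℝ)) := by
        unfold Pool.Agent.R377.KL.e
        congr 1
        push_cast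
        ring
      rw [← h3, ← e_add]
      congr 1
      ring
    rw [h2]
    ring
  have hsum : Summable (fourierCoeff F) := by
    refine Summable.of_norm_bounded (uu_summable.mul_left 6) fun h => ?_
    rw [hcoef h]
    exact gg_uu hα h
  have hmain := has_pointwise_sum_fourier_series_of_summable hsum ((Int.fract y : ℝ) : AddCircle (1 : ℝ))
  have hval : F ((Int.fract y : ℝ) : AddCircle (1 : ℝ)) = f (Int.fract y) := by
    show AddCircle.liftIco 1 0 f ((Int.fract y : ℝ) : AddCircle (1 : ℝ)) = f (Int.fract y)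
    exact AddCircle.liftIco_zero_coe_apply ⟨Int.fract_nonneg y, Int.fract_lt_one y⟩
  rw [hval] at hmain
  have hmul := hmain.mul_left (e (α * y))
  have hfloor : (⌊y⌋ : ℝ) = y - Int.fract y := by
    have := Int.floor_add_fract y
    linarith
  convert! hmul using 1
  · funext h
    rw [hcoef h, smul_eq_mul, fourier_coe_apply]
    have h1 : e (h * y) = Complex.exp (2 * Real.pi * Complex.I * (h : ℂ) * ((Int.fract y : ℝ) : ℂ) / (1 : ℝ)) := by
      have h2 : e (h * y) = e (h * Int.fract y) := by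
        have h3 : (h : ℝ) * y = h * Int.fract y + ((h * ⌊y⌋ : ℤ) : ℝ) := by
          push_cast
          rw [hfloor]
          ring
        rw [h3, e_add, e_int, mul_one]
      rw [h2]
      unfold Pool.Agent.R377.KL.e
      congr 1
      push_cast
      ring
    rw [← h1, mul_left_comm, ← e_add]
    congr 2
    ring
  · rw [hf]
    simp only
    have h1 : phi y = phi (Int.fract y) := by
      have h2 : (phi y : ℂ) = (phi (Int.fract y) : ℂ) := by
        rw [phi_eq, phi_eq]
        have h3 : e (Int.fract y) = e y := by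
          have : Int.fract y = y - ⌊y⌋ := by linarith
          rw [this, Pool.Agent.R377.KL.e_sub_int]
        rw [e_neg, e_neg, h3]
      exact_mod_cast h2
    rw [h1, mul_left_comm, ← e_add]
    congr 2
    rw [hfloor]
    ring

end Pool.Agent.V7H18.RP
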