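import Pool.Agent.V7H18.RP.Avg

/-!
# Growth of the polynomials and of their differences
-/

set_option autoImplicit false

namespace Pool.Agent.V7H18.RP

open Finset Polynomial Filter Asymptotics

/-- the polynomial with coefficients `c` -/
noncomputable def pol {k : ℕ} (c : Fin (k + 1) → ℝ) : ℝ[X] := ∑ j : Fin (k + 1), C (c j) * X ^ (j : ℕ)

theorem eval_pol {k : ℕ} (c : Fin (k + 1) → ℝ) (x : ℝ) : (pol c).eval x = ∑ j, c j * x ^ (j : ℕ) := by
  unfold pol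
  rw [eval_finsetSum]
  simp

theorem PP_eq {k : ℕ} (c : Fin (k + 1) → ℝ) (n : ℕ) : PP c n = (pol c).eval (n : ℝ) := (eval_pol c n).symm

theorem coeff_pol {k : ℕ} (c : Fin (k + 1) → ℝ) : (pol c).coeff k = c (Fin.last k) := by
  unfold pol
  rw [finsetSum_coeff, Finset.sum_eq_single (Fin.last k)]
  · simp
  · intro j _ hj
    rw [coeff_C_mul, coeff_X_pow, if_neg, mul_zero]
    intro h
    exact hj (Fin.ext (by simp; omega))
  · simp

theorem natDegree_pol_le {k : ℕ} (c : Fin (k + 1) → ℝ) : (pol c).natDegree ≤ k := by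
  unfold pol
  refine natDegree_sum_le_of_forall_le _ _ fun j _ => ?_
  exact (natDegree_C_mul_X_pow_le _ _).trans (by omega)

theorem natDegree_pol {k : ℕ} {c : Fin (k + 1) → ℝ} (hc : 0 < c (Fin.last k)) : (pol c).natDegree = k := by
  refine le_antisymm (natDegree_pol_le c) (le_natDegree_of_ne_zero ?_)
  rw [coeff_pol]
  exact hc.ne'

theorem lead_pol {k : ℕ} {c : Fin (k + 1) → ℝ} (hc : 0 < c (Fin.last k)) :
    (pol c).leadingCoeff = c (Fin.last k) := by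
  rw [leadingCoeff, natDegree_pol hc, coeff_pol]

theorem poly_bounds {p : ℝ[X]} (hp : 0 < p.leadingCoeff) : ∀ᶠ x : ℝ in atTop,
    p.leadingCoeff / 2 * x ^ p.natDegree ≤ p.eval x ∧ p.eval x ≤ 2 * p.leadingCoeff * x ^ p.natDegree := by
  have h1 := (Polynomial.isEquivalent_atTop_lead p).isLittleO
  have h2 := h1.def (show (0 : ℝ) < 1 / 2 by norm_num)
  filter_upwards [h2, eventually_ge_atTop 0] with x hx hx0
  simp only [Pi.sub_apply, Real.norm_eq_abs] at hx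
  rw [abs_of_nonneg (show 0 ≤ p.leadingCoeff * x ^ p.natDegree by positivity)] at hx
  rw [abs_le] at hx
  have h0 : 0 ≤ p.leadingCoeff * x ^ p.natDegree := by positivity
  constructor <;> linarith [hx.1, hx.2]

theorem first_diff (p : ℝ[X]) (y : ℝ) : ∃ ζ, y ≤ ζ ∧ ζ ≤ y + 1 ∧
    p.eval (y + 1) - p.eval y = (derivative p).eval ζ := by
  obtain ⟨ζ, hζ, h⟩ := exists_hasDerivAt_eq_slope (fun t => p.eval t) (fun t => (derivative p).eval t)
    (show y < y + 1 by linarith) p.continuous.continuousOn (fun t _ => p.hasDerivAt t)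
  refine ⟨ζ, hζ.1.le, hζ.2.le, ?_⟩
  rw [h]
  simp

/-- the difference polynomial -/
noncomputable def dl (p : ℝ[X]) : ℝ[X] := p.comp (X + 1) - p

theorem eval_dl (p : ℝ[X]) (y : ℝ) : (dl p).eval y = p.eval (y + 1) - p.eval y := by
  unfold dl
  simp

theorem deriv_dl (p : ℝ[X]) : derivative (dl p) = dl (derivative p) := by
  unfold dl
  rw [derivative_sub, derivative_comp]
  simp

theorem second_diff (p : ℝ[X]) (y : ℝ) : ∃ ζ, y ≤ ζ ∧ ζ ≤ y + 2 ∧
    p.eval (y + 2) - 2 * p.eval (y + 1) + p.eval y = (derivative (derivative p)).eval ζ := by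
  obtain ⟨ζ, h1, h2, h3⟩ := first_diff (dl p) y
  rw [deriv_dl, eval_dl, eval_dl, eval_dl] at h3
  obtain ⟨ζ', h4, h5, h6⟩ := first_diff (derivative p) ζ
  refine ⟨ζ', by linarith, by linarith, ?_⟩
  rw [← h6, ← h3]
  have : y + 1 + 1 = y + 2 := by ring
  rw [this]
  ring

theorem third_diff (p : ℝ[X]) (y : ℝ) : ∃ ζ, y ≤ ζ ∧ ζ ≤ y + 3 ∧
    (p.eval (y + 3) - 2 * p.eval (y + 2) + p.eval (y + 1)) - (p.eval (y + 2) - 2 * p.eval (y + 1) + p.eval y) =
      (derivative (derivative (derivative p))).eval ζ := by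
  obtain ⟨ζ, h1, h2, h3⟩ := second_diff (dl p) y
  rw [deriv_dl, deriv_dl, eval_dl, eval_dl, eval_dl, eval_dl] at h3
  obtain ⟨ζ', h4, h5, h6⟩ := first_diff (derivative (derivative p)) ζ
  refine ⟨ζ', by linarith, by linarith, ?_⟩
  rw [← h6, ← h3]
  have e1 : y + 1 + 1 = y + 2 := by ring
  have e2 : y + 2 + 1 = y + 3 := by ring
  rw [e1, e2]
  ring

theorem lead_deriv {p : ℝ[X]} {d : ℕ} (hd : p.natDegree = d + 1) (hp : 0 < p.leadingCoeff) :
    (derivative p).natDegree = d ∧ (derivative p).leadingCoeff = (d + 1) * p.leadingCoeff := by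
  have h1 : (derivative p).coeff d = (d + 1) * p.leadingCoeff := by
    rw [coeff_derivative, leadingCoeff, hd]
    ring
  have h2 : (derivative p).natDegree = d := by
    refine le_antisymm ?_ (le_natDegree_of_ne_zero ?_)
    · have := natDegree_derivative_le p
      omega
    · rw [h1]
      positivity
  refine ⟨h2, ?_⟩
  rw [leadingCoeff, h2, h1]

theorem grow_aux (p p1 p2 p3 : ℝ[X]) (d : ℕ) (a0 : ℝ) (ha : 0 < a0)
    (b0 : ∀ᶠ x : ℝ in atTop, a0 / 2 * x ^ (d + 2) ≤ p.eval x ∧ p.eval x ≤ 2 * a0 * x ^ (d + 2))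
    (b1 : ∀ᶠ x : ℝ in atTop, ((d : ℝ) + 1 + 1) * a0 / 2 * x ^ (d + 1) ≤ p1.eval x ∧
      p1.eval x ≤ 2 * (((d : ℝ) + 1 + 1) * a0) * x ^ (d + 1))
    (b2 : ∀ᶠ x : ℝ in atTop, ((d : ℝ) + 1) * (((d : ℝ) + 1 + 1) * a0) / 2 * x ^ d ≤ p2.eval x ∧
      p2.eval x ≤ 2 * (((d : ℝ) + 1) * (((d : ℝ) + 1 + 1) * a0)) * x ^ d)
    (b3 : ∀ᶠ x : ℝ in atTop, 0 ≤ p3.eval x) :
    ∃ a : ℝ, 0 < a ∧ ∃ K : ℝ, 0 < K ∧ ∃ x0 : ℝ, 1 ≤ x0 ∧ ∀ x ≥ x0,
      (a * x ^ (d + 2) ≤ p.eval x ∧ p.eval x ≤ 4 * a * x ^ (d + 2)) ∧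
      (0 ≤ p1.eval x ∧ p1.eval x ≤ K * x ^ (d + 1)) ∧
      (a * x ^ d ≤ p2.eval x ∧ p2.eval x ≤ K * x ^ d) ∧ 0 ≤ p3.eval x := by
  obtain ⟨x0, hx0⟩ := eventually_atTop.1 ((b0.and b1).and (b2.and b3))
  have hd0 : (0 : ℝ) ≤ (d : ℝ) := Nat.cast_nonneg d
  generalize (d : ℝ) = d' at *
  have hA : 0 ≤ 2 * ((d' + 1) * ((d' + 1 + 1) * a0)) := by positivity
  have hB : 0 ≤ 2 * ((d' + 1 + 1) * a0) := by positivity
  have hC : a0 / 2 ≤ (d' + 1) * ((d' + 1 + 1) * a0) / 2 := by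
    have h1 : 1 * a0 ≤ ((d' + 1) * (d' + 1 + 1)) * a0 := by
      refine mul_le_mul_of_nonneg_right ?_ ha.le
      nlinarith
    linarith
  refine ⟨a0 / 2, by positivity, 2 * ((d' + 1) * ((d' + 1 + 1) * a0)) + 2 * ((d' + 1 + 1) * a0), by positivity,
    max x0 1, le_max_right _ _, ?_⟩
  intro x hx
  obtain ⟨⟨h0, h1⟩, h2, h3⟩ := hx0 x ((le_max_left _ _).trans hx)
  have hx1 : 1 ≤ x := (le_max_right _ _).trans hx
  have hp1 : 0 ≤ x ^ (d + 1) := by positivity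
  have hp0 : 0 ≤ x ^ d := by positivity
  have g1 : p.eval x ≤ 4 * (a0 / 2) * x ^ (d + 2) := by
    have : 4 * (a0 / 2) = 2 * a0 := by ring
    rw [this]; exact h0.2
  have g2 : 0 ≤ p1.eval x := le_trans (by positivity) h1.1
  have g3 : p1.eval x ≤ (2 * ((d' + 1) * ((d' + 1 + 1) * a0)) + 2 * ((d' + 1 + 1) * a0)) * x ^ (d + 1) :=
    h1.2.trans (mul_le_mul_of_nonneg_right (by linarith) hp1)
  have g4 : a0 / 2 * x ^ d ≤ p2.eval x := (mul_le_mul_of_nonneg_right hC hp0).trans h2.1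
  have g5 : p2.eval x ≤ (2 * ((d' + 1) * ((d' + 1 + 1) * a0)) + 2 * ((d' + 1 + 1) * a0)) * x ^ d :=
    h2.2.trans (mul_le_mul_of_nonneg_right (by linarith) hp0)
  exact ⟨⟨h0.1, g1⟩, ⟨g2, g3⟩, ⟨g4, g5⟩, h3⟩

/-- growth of `P` and of its derivatives -/
theorem grow {k : ℕ} (hk : 2 ≤ k) {c : Fin (k + 1) → ℝ} (hc : 0 < c (Fin.last k)) :
    ∃ a : ℝ, 0 < a ∧ ∃ K : ℝ, 0 < K ∧ ∃ x0 : ℝ, 1 ≤ x0 ∧ ∀ x ≥ x0,
      (a * x ^ k ≤ (pol c).eval x ∧ (pol c).eval x ≤ 4 * a * x ^ k) ∧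
      (0 ≤ (derivative (pol c)).eval x ∧ (derivative (pol c)).eval x ≤ K * x ^ (k - 1)) ∧
      (a * x ^ (k - 2) ≤ (derivative (derivative (pol c))).eval x ∧
        (derivative (derivative (pol c))).eval x ≤ K * x ^ (k - 2)) ∧
      0 ≤ (derivative (derivative (derivative (pol c)))).eval x := by
  obtain ⟨a0, ha0⟩ : ∃ a0, a0 = c (Fin.last k) := ⟨_, rfl⟩
  obtain ⟨p, hp⟩ : ∃ p, p = pol c := ⟨_, rfl⟩
  have e0' : p.natDegree = k := by rw [hp]; exact natDegree_pol hc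
  have l0 : p.leadingCoeff = a0 := by rw [hp, ha0]; exact lead_pol hc
  rw [← ha0] at hc
  rw [← hp]
  clear hp ha0 c
  obtain ⟨d, hd⟩ : ∃ d, k = d + 1 + 1 := ⟨k - 2, by omega⟩
  have s1 : k - 1 = d + 1 := by omega
  have s2 : k - 2 = d := by omega
  have s0 : k = d + 2 := by omega
  rw [s1, s2]
  rw [hd] at e0'
  have l0' : 0 < p.leadingCoeff := by rw [l0]; exact hc
  obtain ⟨e1, l1⟩ := lead_deriv e0' l0'
  rw [l0] at l1
  have l1' : 0 < (derivative p).leadingCoeff := by rw [l1]; positivity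
  obtain ⟨e2, l2⟩ := lead_deriv e1 l1'
  rw [l1] at l2
  have l2' : 0 < (derivative (derivative p)).leadingCoeff := by rw [l2]; positivity
  have b0 := poly_bounds l0'
  have b1 := poly_bounds l1'
  have b2 := poly_bounds l2'
  have b3 : ∀ᶠ x : ℝ in atTop, 0 ≤ (derivative (derivative (derivative p))).eval x := by
    rcases d with _ | d
    · have : (derivative (derivative (derivative p))) = 0 := by
        rw [eq_C_of_natDegree_eq_zero e2]
        simp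
      rw [this]
      simp
    · obtain ⟨e3, l3⟩ := lead_deriv e2 l2'
      have l3' : 0 < (derivative (derivative (derivative p))).leadingCoeff := by rw [l3]; positivity
      filter_upwards [poly_bounds l3', eventually_ge_atTop 0] with x hx hx0
      refine le_trans ?_ hx.1
      positivity
  rw [e0', l0] at b0
  rw [e1, l1] at b1
  rw [e2, l2] at b2
  have hcast : (((d + 1 : ℕ) : ℝ)) = (d : ℝ) + 1 := by push_cast; rfl
  rw [hcast] at b1 b2
  rw [s0]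
  exact grow_aux p _ _ _ d a0 hc b0 b1 b2 b3

end Pool.Agent.V7H18.RP
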