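import Mathlib

/-!
# Differences of power sums of points in separated intervals

If `x_l, y_l ∈ [a_l, b_l]`, where the intervals are positive and disjoint, and the differences of `r` consecutive power
sums are at most `η`, then `|x_l - y_l| ≤ C η`.
-/

set_option autoImplicit false

namespace Pool.Agent.V7H18.RP

open Finset Matrix

/-- the matrix of the divided differences -/
noncomputable def AA (r e : ℕ) (x y : Fin r → ℝ) : Matrix (Fin r) (Fin r) ℝ :=
  fun i l => ∑ p ∈ range (e + 1 + i), x l ^ p * y l ^ (e + 1 + i - 1 - p)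

theorem AA_mul (r e : ℕ) (x y : Fin r → ℝ) (i l : Fin r) :
    AA r e x y i l * (x l - y l) = x l ^ (e + 1 + i) - y l ^ (e + 1 + i) := by
  unfold AA
  exact Commute.geom_sum₂_mul (Commute.all _ _) _

theorem AA_diag (r e : ℕ) (x y : Fin r → ℝ) (i l : Fin r) (h : x l = y l) :
    AA r e x y i l = (e + 1 + i) * x l ^ (e + i) := by
  unfold AA
  rw [← h]
  have h1 : ∀ p ∈ range (e + 1 + i), x l ^ p * x l ^ (e + 1 + i - 1 - p) = x l ^ (e + i) := by
    intro p hp
    rw [mem_range] at hp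
    rw [← pow_add]
    congr 1
    omega
  rw [sum_congr rfl h1, sum_const, card_range, nsmul_eq_mul]
  push_cast
  ring

/-- the intervals are positive and separated -/
def Sep (r : ℕ) (a b : Fin r → ℝ) : Prop := (∀ l, 0 < a l) ∧ ∀ l l', l < l' → b l < a l'

theorem det_ne {r e : ℕ} {a b : Fin r → ℝ} (hs : Sep r a b) {x y : Fin r → ℝ}
    (hx : ∀ l, a l ≤ x l ∧ x l ≤ b l) (hy : ∀ l, a l ≤ y l ∧ y l ≤ b l) : (AA r e x y).det ≠ 0 := by
  intro h0
  rw [← Matrix.exists_vecMul_eq_zero_iff] at h0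
  obtain ⟨v, hv0, hv⟩ := h0
  have hv1 : ∀ l, ∑ i, v i * AA r e x y i l = 0 := fun l => congrFun hv l
  -- the function and its derivative
  have hF : ∀ t : ℝ, HasDerivAt (fun t : ℝ => ∑ i : Fin r, v i * t ^ (e + 1 + i))
      (∑ i : Fin r, v i * ((e + 1 + i) * t ^ (e + i))) t := by
    intro t
    refine HasDerivAt.fun_sum fun i _ => ?_
    have h := (hasDerivAt_pow (e + 1 + i) t).const_mul (v i)
    have h2 : e + 1 + (i : ℕ) - 1 = e + i := by omega
    rw [h2] at h
    push_cast at h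
    exact h
  have hroot : ∀ l : Fin r, ∃ ξ : ℝ, a l ≤ ξ ∧ ξ ≤ b l ∧
      ∑ i : Fin r, v i * ((e + 1 + i) * ξ ^ (e + i)) = 0 := by
    intro l
    by_cases hxy : x l = y l
    · refine ⟨x l, (hx l).1, (hx l).2, ?_⟩
      rw [← hv1 l]
      refine sum_congr rfl fun i _ => ?_
      rw [AA_diag r e x y i l hxy]
    · have hdiff : (∑ i : Fin r, v i * x l ^ (e + 1 + i)) = ∑ i : Fin r, v i * y l ^ (e + 1 + i) := by
        have h1 : (∑ i : Fin r, v i * x l ^ (e + 1 + i)) - ∑ i : Fin r, v i * y l ^ (e + 1 + i) =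
            (∑ i, v i * AA r e x y i l) * (x l - y l) := by
          rw [← sum_sub_distrib, sum_mul]
          refine sum_congr rfl fun i _ => ?_
          rw [mul_assoc, AA_mul]
          ring
        rw [hv1 l, zero_mul] at h1
        linarith
      rcases lt_or_gt_of_ne hxy with h | h
      · obtain ⟨c, hc, hc'⟩ := exists_hasDerivAt_eq_zero
          (f := fun t : ℝ => ∑ i : Fin r, v i * t ^ (e + 1 + i)) h
          (fun t _ => (hF t).continuousAt.continuousWithinAt) hdiff (fun t _ => hF t)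
        exact ⟨c, (hx l).1.trans hc.1.le, hc.2.le.trans (hy l).2, hc'⟩
      · obtain ⟨c, hc, hc'⟩ := exists_hasDerivAt_eq_zero
          (f := fun t : ℝ => ∑ i : Fin r, v i * t ^ (e + 1 + i)) h
          (fun t _ => (hF t).continuousAt.continuousWithinAt) hdiff.symm (fun t _ => hF t)
        exact ⟨c, (hy l).1.trans hc.1.le, hc.2.le.trans (hx l).2, hc'⟩
  choose ξ hξa hξb hξ0 using hroot
  have hξpos : ∀ l, 0 < ξ l := fun l => (hs.1 l).trans_le (hξa l)
  have hinj : Function.Injective ξ := by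
    intro l l' h
    by_contra hne
    rcases lt_or_gt_of_ne hne with h1 | h1
    · have := hs.2 l l' h1
      linarith [hξb l, hξa l']
    · have := hs.2 l' l h1
      linarith [hξb l', hξa l]
  -- the Vandermonde matrix
  have hw : (Matrix.vandermonde ξ) *ᵥ (fun i => v i * (e + 1 + i)) = 0 := by
    funext l
    simp only [Matrix.mulVec, dotProduct, Matrix.vandermonde_apply, Pi.zero_apply]
    have h1 := hξ0 l
    have h2 : (∑ i : Fin r, v i * ((e + 1 + i) * ξ l ^ (e + i))) =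
        ξ l ^ e * ∑ i : Fin r, ξ l ^ (i : ℕ) * (v i * (e + 1 + i)) := by
      rw [mul_sum]
      refine sum_congr rfl fun i _ => ?_
      rw [pow_add]
      ring
    rw [h2] at h1
    exact (mul_eq_zero.1 h1).resolve_left (pow_ne_zero _ (hξpos l).ne')
  have hdet : (Matrix.vandermonde ξ).det ≠ 0 := Matrix.det_vandermonde_ne_zero_iff.2 hinj
  have hw0 := Matrix.eq_zero_of_mulVec_eq_zero hdet hw
  apply hv0
  funext i
  have h := congrFun hw0 i
  simp only [Pi.zero_apply] at h ⊢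
  rcases mul_eq_zero.1 h with h | h
  · exact h
  · exfalso
    have : (0 : ℝ) < e + 1 + i := by positivity
    linarith

theorem AA_cont (r e : ℕ) : Continuous fun z : (Fin r → ℝ) × (Fin r → ℝ) => AA r e z.1 z.2 := by
  unfold AA
  fun_prop

/-- **Lemma K.** -/
theorem lemK (r e : ℕ) (a b : Fin r → ℝ) (hs : Sep r a b) : ∃ C : ℝ, 0 < C ∧ ∀ x y : Fin r → ℝ,
    (∀ l, a l ≤ x l ∧ x l ≤ b l) → (∀ l, a l ≤ y l ∧ y l ≤ b l) → ∀ η : ℝ,
    (∀ i : Fin r, |∑ l, (x l ^ (e + 1 + i) - y l ^ (e + 1 + i))| ≤ η) → ∀ l, |x l - y l| ≤ C * η := by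
  set K : Set ((Fin r → ℝ) × (Fin r → ℝ)) := (Set.Icc a b) ×ˢ (Set.Icc a b) with hK
  have hKc : IsCompact K := isCompact_Icc.prod isCompact_Icc
  -- the inverse of the determinant is bounded
  have hcont : Continuous fun z : (Fin r → ℝ) × (Fin r → ℝ) => (AA r e z.1 z.2).det :=
    (AA_cont r e).matrix_det
  have hadj : ∀ l i, Continuous fun z : (Fin r → ℝ) × (Fin r → ℝ) => (AA r e z.1 z.2).adjugate l i := by
    intro l i
    exact (Continuous.matrix_adjugate (AA_cont r e)).matrix_elem l i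
  have hinv : ContinuousOn (fun z : (Fin r → ℝ) × (Fin r → ℝ) => ((AA r e z.1 z.2).det)⁻¹) K := by
    refine ContinuousOn.inv₀ hcont.continuousOn ?_
    rintro ⟨x, y⟩ ⟨hx, hy⟩
    exact det_ne hs (fun l => ⟨hx.1 l, hx.2 l⟩) (fun l => ⟨hy.1 l, hy.2 l⟩)
  have hb : ∀ l i, ∃ B : ℝ, ∀ z ∈ K, |((AA r e z.1 z.2).det)⁻¹ * (AA r e z.1 z.2).adjugate l i| ≤ B := by
    intro l i
    obtain ⟨B, hB⟩ := hKc.exists_bound_of_continuousOn (hinv.mul (hadj l i).continuousOn)
    exact ⟨B, fun z hz => by simpa [Real.norm_eq_abs] using hB z hz⟩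
  choose B hB using hb
  refine ⟨∑ l, ∑ i, |B l i| + 1, by positivity, ?_⟩
  intro x y hx hy η hη l
  have hη0 : 0 ≤ η := (abs_nonneg _).trans (hη l)
  have hz : (x, y) ∈ K := ⟨⟨fun l => (hx l).1, fun l => (hx l).2⟩, ⟨fun l => (hy l).1, fun l => (hy l).2⟩⟩
  have hd := det_ne (e := e) hs hx hy
  have h1 : (AA r e x y) *ᵥ (x - y) = fun i : Fin r => ∑ l, (x l ^ (e + 1 + (i : ℕ)) - y l ^ (e + 1 + (i : ℕ))) := by
    funext i
    simp only [Matrix.mulVec, dotProduct, Pi.sub_apply]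
    exact sum_congr rfl fun l _ => AA_mul r e x y i l
  have h2 : (AA r e x y).det • (x - y) = (AA r e x y).adjugate *ᵥ ((AA r e x y) *ᵥ (x - y)) := by
    rw [Matrix.mulVec_mulVec, Matrix.adjugate_mul, Matrix.smul_mulVec, Matrix.one_mulVec]
  have h3 : x l - y l = ∑ i, ((AA r e x y).det)⁻¹ * (AA r e x y).adjugate l i *
      ∑ l, (x l ^ (e + 1 + (i : ℕ)) - y l ^ (e + 1 + (i : ℕ))) := by
    have h4 := congrFun h2 l
    rw [h1] at h4
    simp only [Pi.smul_apply, smul_eq_mul, Pi.sub_apply, Matrix.mulVec, dotProduct] at h4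
    rw [eq_comm]
    calc ∑ i, ((AA r e x y).det)⁻¹ * (AA r e x y).adjugate l i *
          ∑ l, (x l ^ (e + 1 + (i : ℕ)) - y l ^ (e + 1 + (i : ℕ)))
        = ((AA r e x y).det)⁻¹ * ∑ i, (AA r e x y).adjugate l i *
          ∑ l, (x l ^ (e + 1 + (i : ℕ)) - y l ^ (e + 1 + (i : ℕ))) := by
          rw [mul_sum]
          exact sum_congr rfl fun i _ => by ring
      _ = ((AA r e x y).det)⁻¹ * ((AA r e x y).det * (x l - y l)) := by rw [h4]
      _ = x l - y l := by
          rw [← mul_assoc, inv_mul_cancel₀ hd, one_mul]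
  rw [h3]
  calc |∑ i, ((AA r e x y).det)⁻¹ * (AA r e x y).adjugate l i *
          ∑ l, (x l ^ (e + 1 + (i : ℕ)) - y l ^ (e + 1 + (i : ℕ)))|
      ≤ ∑ i, |((AA r e x y).det)⁻¹ * (AA r e x y).adjugate l i *
          ∑ l, (x l ^ (e + 1 + (i : ℕ)) - y l ^ (e + 1 + (i : ℕ)))| := abs_sum_le_sum_abs _ _
    _ ≤ ∑ i, |B l i| * η := by
        refine sum_le_sum fun i _ => ?_
        rw [abs_mul]
        exact mul_le_mul ((hB l i (x, y) hz).trans (le_abs_self _)) (hη i) (abs_nonneg _) (abs_nonneg _)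
    _ = (∑ i, |B l i|) * η := by rw [sum_mul]
    _ ≤ (∑ l, ∑ i, |B l i| + 1) * η := by
        refine mul_le_mul_of_nonneg_right ?_ hη0
        have : (∑ i, |B l i|) ≤ ∑ l, ∑ i, |B l i| :=
          single_le_sum (f := fun l => ∑ i, |B l i|) (fun l _ => sum_nonneg fun i _ => abs_nonneg _)
            (mem_univ l)
        linarith

end Pool.Agent.V7H18.RP
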