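import Pool.Agent.V7H18.RP.CircB
import Pool.Agent.V7H18.RP.Four
import Pool.Agent.V7H89.GP.WeylD

/-!
# The exponential sums with the integer parts
-/

set_option autoImplicit false

namespace Pool.Agent.V7H18.RP

open Finset
open Pool.Agent.R377.KL (e norm_e e_add e_int)
open Pool.Agent.V7H89.GP (pf Dio ee sup2)

theorem ee_eq (x : ℝ) : ee x = e x := by
  unfold Pool.Agent.V7H89.GP.ee Pool.Agent.R377.KL.e
  congr 1
  push_cast
  ring

/-- the polynomial with a constant term -/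
noncomputable def fv (d : ℕ) (γ b : ℝ) (α : Fin (d + 1) → ℝ) (n : ℕ) : ℝ := pf d γ α n + b

/-- the bound for the exponential sums at the scale `X` -/
def Good (d : ℕ) (γ b : ℝ) (α : Fin (d + 1) → ℝ) (C : ℕ) (σ X : ℝ) : Prop :=
  ∀ β : ℝ, X ^ (C * σ - (d + 2)) ≤ |β| → |β| ≤ X ^ σ → ∀ a n : ℕ, ((a + n : ℕ) : ℝ) ≤ X →
    ‖∑ i ∈ range n, e (β * fv d γ b α (a + i))‖ ≤ X ^ (1 - σ)

theorem good_ev (d : ℕ) : ∃ C : ℕ, 1 ≤ C ∧ ∀ (γ b : ℝ) (α : Fin (d + 1) → ℝ), 0 < γ →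
    Dio (α (Fin.last d) / γ) → ∀ σ : ℝ, 0 < σ → σ * C < 1 → ∃ X0 : ℝ, 1 ≤ X0 ∧ ∀ X, X0 ≤ X → Good d γ b α C σ X := by
  obtain ⟨C, hC, h⟩ := sup2 d
  refine ⟨C, hC, ?_⟩
  intro γ b α hγ hD σ hσ hσC
  obtain ⟨X0, hX0, h0⟩ := h γ α hγ hD σ hσ hσC
  refine ⟨X0, hX0, ?_⟩
  intro X hX β hβ1 hβ2 a n hn
  have h1 := h0 X β hX hβ1 hβ2 a n hn
  have h2 : ∑ i ∈ range n, e (β * fv d γ b α (a + i)) = e (β * b) * ∑ i ∈ range n, ee (β * pf d γ α (a + i)) := by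
    rw [mul_sum]
    refine sum_congr rfl fun i _ => ?_
    rw [ee_eq, ← e_add]
    congr 1
    unfold fv
    ring
  rw [h2, norm_mul, norm_e, one_mul]
  exact h1

/-- the sum of the weights -/
theorem sum_weights {d : ℕ} {γ b : ℝ} {α : Fin (d + 1) → ℝ} {C : ℕ} {σ X : ℝ} (hX : 1 ≤ X) (hσ : 0 < σ)
    (hσC : σ * C < 1) (hg : Good d γ b α C σ X) (a n : ℕ) (hn : ((a + n : ℕ) : ℝ) ≤ X) :
    (n : ℝ) / 2 - X ^ (1 - σ) / 2 ≤ ∑ i ∈ range n, phi (fv d γ b α (a + i)) := by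
  have h1 := hg 1 (by
    rw [abs_one]
    refine Real.rpow_le_one_of_one_le_of_nonpos hX ?_
    have : (0 : ℝ) ≤ d := Nat.cast_nonneg d
    linarith) (by rw [abs_one]; exact Real.one_le_rpow hX hσ.le) a n hn
  simp only [one_mul] at h1
  obtain ⟨S, hS⟩ : ∃ S : ℂ, S = ∑ i ∈ range n, e (fv d γ b α (a + i)) := ⟨_, rfl⟩
  rw [← hS] at h1
  have h2 : ((∑ i ∈ range n, phi (fv d γ b α (a + i)) : ℝ) : ℂ) = (n : ℂ) / 2 - (S + (starRingEnd ℂ) S) / 4 := by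
    rw [Complex.ofReal_sum]
    simp only [phi_eq]
    rw [sum_sub_distrib, sum_const, card_range, nsmul_eq_mul, ← sum_div, sum_add_distrib, hS, map_sum]
    simp only [e_neg]
    ring
  have h3 : (∑ i ∈ range n, phi (fv d γ b α (a + i)) : ℝ) = (n : ℝ) / 2 - S.re / 2 := by
    have h4 := congrArg Complex.re h2
    rw [Complex.ofReal_re] at h4
    rw [h4, Complex.add_conj]
    have h5 : ((n : ℂ) / 2 - (((2 * S.re : ℝ) : ℂ)) / 4) = (((n : ℝ) / 2 - S.re / 2 : ℝ) : ℂ) := by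
      push_cast
      ring
    rw [h5, Complex.ofReal_re]
  have h6 : S.re ≤ ‖S‖ := Complex.re_le_norm S
  rw [h3]
  linarith

/-- the bound for the exponential sum with integer parts -/
theorem FF_bound {d : ℕ} {γ b : ℝ} {α : Fin (d + 1) → ℝ} {C : ℕ} {σ X : ℝ} (hσ : 0 < σ)
    (hX : 1 ≤ X) (hX2 : 2 ≤ X ^ σ) (hX3 : X ^ (C * σ - (d + 2)) ≤ 1 / 2)
    (hg : Good d γ b α C σ X) {P Y : ℕ} (hPY : P ≤ Y) (hYX : (Y : ℝ) ≤ X) {M' : ℕ} (hM : 1 ≤ M') {u : ℤ}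
    (hu : u ∈ Ico (-(M' : ℤ)) M') (hu2 : X ^ (C * σ - (d + 2)) ≤ |(u : ℝ) / (2 * M' : ℕ)|) :
    ‖FF (Ico P Y) (fun n => phi (fv d γ b α n)) (fun n => ⌊fv d γ b α n⌋) M' u‖ ≤
      (9 * ∑' h, uu h) * X ^ (1 - σ / 2) := by
  have hM0 : (0 : ℝ) < ((2 * M' : ℕ) : ℝ) := by exact_mod_cast (by omega : 0 < 2 * M')
  obtain ⟨θ, hθ⟩ : ∃ θ : ℝ, θ = (u : ℝ) / (2 * M' : ℕ) := ⟨_, rfl⟩
  have hX0 : 0 < X := by linarith
  have hθ1 : |θ| ≤ 1 / 2 := by
    rw [hθ, abs_div, abs_of_pos hM0, div_le_iff₀ hM0]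
    rw [mem_Ico] at hu
    have h1 : |u| ≤ M' := abs_le.2 ⟨hu.1, hu.2.le⟩
    have h2 : |(u : ℝ)| ≤ M' := by rw [← Int.cast_abs]; exact_mod_cast h1
    push_cast
    linarith
  rw [← hθ] at hu2
  have hsum : HasSum (fun h : ℤ => ∑ n ∈ Ico P Y, gg (θ + h) * e ((θ + h) * fv d γ b α n))
      (∑ n ∈ Ico P Y, (phi (fv d γ b α n) : ℂ) * e (θ * ⌊fv d γ b α n⌋)) :=
    hasSum_sum fun n _ => fourier_phi hθ1 _
  have hFF : FF (Ico P Y) (fun n => phi (fv d γ b α n)) (fun n => ⌊fv d γ b α n⌋) M' u =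
      ∑ n ∈ Ico P Y, (phi (fv d γ b α n) : ℂ) * e (θ * ⌊fv d γ b α n⌋) := by
    unfold FF
    refine sum_congr rfl fun n _ => ?_
    congr 2
    rw [hθ]
    ring
  rw [hFF]
  have hterm : ∀ h : ℤ, ‖∑ n ∈ Ico P Y, gg (θ + h) * e ((θ + h) * fv d γ b α n)‖ ≤
      (9 * X ^ (1 - σ / 2)) * uu h := by
    intro h
    rw [← mul_sum, norm_mul]
    have hu0 := uu_nonneg h
    have hσ2 : X ^ (1 - σ) ≤ X ^ (1 - σ / 2) := Real.rpow_le_rpow_of_exponent_le hX (by linarith)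
    rcases le_or_gt |θ + h| (X ^ σ) with h1 | h1
    · have h2 : X ^ (C * σ - (d + 2)) ≤ |θ + h| := by
        rcases eq_or_ne h 0 with rfl | h3
        · simpa using hu2
        · have h4 : (1 : ℝ) ≤ |(h : ℝ)| := by
            rw [← Int.cast_abs]; exact_mod_cast Int.one_le_abs h3
          have h5 := abs_sub_abs_le_abs_sub (h : ℝ) (-θ)
          rw [abs_neg, sub_neg_eq_add, add_comm (h : ℝ) θ] at h5
          linarith
      have h3 := hg (θ + h) h2 h1 P (Y - P) (by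
        have : P + (Y - P) = Y := by omega
        rw [this]; exact hYX)
      have h4 : ∑ n ∈ Ico P Y, e ((θ + h) * fv d γ b α n) = ∑ i ∈ range (Y - P), e ((θ + h) * fv d γ b α (P + i)) :=
        sum_Ico_eq_sum_range _ _ _
      rw [h4]
      calc ‖gg (θ + h)‖ * ‖∑ i ∈ range (Y - P), e ((θ + h) * fv d γ b α (P + i))‖
          ≤ (6 * uu h) * X ^ (1 - σ) := mul_le_mul (gg_uu hθ1 h) h3 (norm_nonneg _) (by positivity)
        _ ≤ (6 * uu h) * X ^ (1 - σ / 2) := mul_le_mul_of_nonneg_left hσ2 (by positivity)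
        _ ≤ (9 * X ^ (1 - σ / 2)) * uu h := by
            have : 0 ≤ uu h * X ^ (1 - σ / 2) := by positivity
            linarith
    · have hS : ‖∑ n ∈ Ico P Y, e ((θ + h) * fv d γ b α n)‖ ≤ X := by
        refine (norm_sum_le _ _).trans ?_
        simp only [norm_e, sum_const, Nat.card_Ico, nsmul_eq_mul, mul_one]
        have : ((Y - P : ℕ) : ℝ) ≤ Y := by exact_mod_cast Nat.sub_le Y P
        linarith
      have hh : X ^ σ / 2 ≤ |(h : ℝ)| := by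
        have h5 := abs_add_le θ (h : ℝ)
        linarith
      have hmx : X ^ σ / 2 ≤ mx h := hh.trans (le_max_right _ _)
      have hm1 := one_le_mx h
      have hm0 : 0 < mx h := by linarith
      have hsplit : mx h ^ 2 = mx h ^ (1 / 2 : ℝ) * mx h ^ (3 / 2 : ℝ) := by
        rw [← Real.rpow_add hm0]
        norm_num
      have hroot : X ^ (σ / 2) ≤ (3 / 2) * mx h ^ (1 / 2 : ℝ) := by
        have h6 : (X ^ (σ / 2)) ^ 2 ≤ ((3 / 2) * mx h ^ (1 / 2 : ℝ)) ^ 2 := by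
          rw [mul_pow, ← Real.rpow_natCast (X ^ (σ / 2)), ← Real.rpow_mul hX0.le,
            ← Real.rpow_natCast (mx h ^ (1 / 2 : ℝ)), ← Real.rpow_mul hm0.le]
          have e1 : σ / 2 * ((2 : ℕ) : ℝ) = σ := by push_cast; ring
          have e2 : (1 / 2 : ℝ) * ((2 : ℕ) : ℝ) = 1 := by norm_num
          rw [e1, e2, Real.rpow_one]
          have := hmx
          nlinarith
        exact (pow_le_pow_iff_left₀ (by positivity) (by positivity) (by norm_num)).1 h6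
      have hgg : ‖gg (θ + h)‖ ≤ 2 / mx h ^ 2 := gg_mx hθ1 h
      have h7 := uu_ge h
      have h8 : 2 / mx h ^ 2 * X ≤ (9 * X ^ (1 - σ / 2)) * uu h := by
        have h9 : X = X ^ (1 - σ / 2) * X ^ (σ / 2) := by
          rw [← Real.rpow_add hX0]
          have : 1 - σ / 2 + σ / 2 = 1 := by ring
          rw [this, Real.rpow_one]
        have h10 : 0 < mx h ^ (1 / 2 : ℝ) := by positivity
        have h11 : 0 < mx h ^ (3 / 2 : ℝ) := by positivity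
        have hXs : 0 < X ^ (1 - σ / 2) := by positivity
        calc 2 / mx h ^ 2 * X = 2 / mx h ^ 2 * (X ^ (1 - σ / 2) * X ^ (σ / 2)) := by rw [← h9]
          _ ≤ 2 / mx h ^ 2 * (X ^ (1 - σ / 2) * ((3 / 2) * mx h ^ (1 / 2 : ℝ))) := by
              refine mul_le_mul_of_nonneg_left ?_ (by positivity)
              exact mul_le_mul_of_nonneg_left hroot hXs.le
          _ = 3 * X ^ (1 - σ / 2) * (1 / mx h ^ (3 / 2 : ℝ)) := by
              rw [hsplit]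
              field_simp
          _ ≤ 3 * X ^ (1 - σ / 2) * (3 * uu h) := mul_le_mul_of_nonneg_left h7 (by positivity)
          _ = (9 * X ^ (1 - σ / 2)) * uu h := by ring
      refine le_trans ?_ h8
      exact mul_le_mul hgg hS (norm_nonneg _) (by positivity)
  have hfin := tsum_of_norm_bounded ((uu_summable.hasSum).mul_left (9 * X ^ (1 - σ / 2))) hterm
  rw [hsum.tsum_eq] at hfin
  refine hfin.trans (le_of_eq ?_)
  ring

end Pool.Agent.V7H18.RP
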