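import Pool.Agent.V7H18.RP.CircB
import Pool.Agent.V7H18.RP.Lower

/-!
# Lower bounds for weighted numbers of representations, on average
-/

set_option autoImplicit false

namespace Pool.Agent.V7H18.RP

open Finset

/-- the weighted number of `n` with `f n` in an interval, local form -/
theorem windowB {f : ℕ → ℤ} {w : ℕ → ℝ} (hw : ∀ n, 0 ≤ w n) {X Y l D H : ℕ} {κ : ℝ} {y : ℤ}
    (h1 : ∀ n, X ≤ n → f n ≤ f (n + 1)) (h2 : ∀ n, X ≤ n → n < Y → f (n + 1) ≤ f n + D)
    (h3 : f X < y) (h4 : y + H ≤ f Y) (h5 : ∀ n, X ≤ n → n + l ≤ Y → κ ≤ ∑ i ∈ range l, w (n + i))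
    (hl : 1 ≤ l) (h6 : (l + 1) * D ≤ H) (hXY : X ≤ Y) :
    κ ≤ ∑ n ∈ Ico X Y, w n * (if y ≤ f n ∧ f n < y + H then 1 else 0) := by
  classical
  have hex : ∃ n, X ≤ n ∧ y ≤ f n := ⟨Y, hXY, by linarith [(Nat.cast_nonneg H : (0 : ℤ) ≤ H)]⟩
  obtain ⟨n0, hn0⟩ : ∃ n0, n0 = Nat.find hex := ⟨_, rfl⟩
  obtain ⟨hX0, hy0⟩ := Nat.find_spec hex
  rw [← hn0] at hX0 hy0
  have hne : n0 ≠ X := by
    intro h
    rw [h] at hy0
    linarith
  have hmono := mono_of_step h1
  have hprev : f (n0 - 1) < y := by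
    by_contra hcon
    push Not at hcon
    have : n0 ≤ n0 - 1 := by
      rw [hn0]
      rw [hn0] at hcon hX0 hne
      exact Nat.find_min' hex ⟨by omega, hcon⟩
    omega
  have hstep : ∀ i, i < l → n0 + i < Y ∧ f (n0 + i) < y + ((i + 1 : ℕ) : ℤ) * D := by
    intro i
    induction i with
    | zero =>
      intro hi
      have hle : n0 - 1 < Y := by
        by_contra hcon
        push Not at hcon
        have := hmono Y (n0 - 1) hXY hcon
        have hH : (0 : ℤ) ≤ H := Nat.cast_nonneg H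
        linarith
      have h7 := h2 (n0 - 1) (by omega) hle
      have h8 : n0 - 1 + 1 = n0 := by omega
      rw [h8] at h7
      have h9 : f n0 < y + D := by linarith
      have h10 : (D : ℤ) ≤ H := by
        have : D ≤ (l + 1) * D := Nat.le_mul_of_pos_left _ (by omega)
        exact_mod_cast this.trans h6
      refine ⟨?_, by simpa using h9⟩
      by_contra hcon
      push Not at hcon
      have := hmono Y (n0 + 0) hXY hcon
      simp only [add_zero] at this
      linarith
    | succ i ih =>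
      intro hi
      obtain ⟨h7, h8⟩ := ih (by omega)
      have h9 := h2 (n0 + i) (by omega) h7
      have h10 : f (n0 + (i + 1)) < y + ((i + 1 + 1 : ℕ) : ℤ) * D := by
        rw [← add_assoc]
        push_cast at h8 ⊢
        linarith
      refine ⟨?_, h10⟩
      by_contra hcon
      push Not at hcon
      have h11 := hmono Y (n0 + (i + 1)) hXY hcon
      have h12 : ((i + 1 + 1 : ℕ) : ℤ) * D ≤ H := by
        have : (i + 1 + 1) * D ≤ (l + 1) * D := Nat.mul_le_mul_right _ (by omega)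
        exact_mod_cast this.trans h6
      linarith
  have hY : n0 + l ≤ Y := by
    have := (hstep (l - 1) (by omega)).1
    omega
  calc κ ≤ ∑ i ∈ range l, w (n0 + i) := h5 n0 hX0 hY
    _ = ∑ n ∈ (range l).image (fun i => n0 + i), w n := by
        rw [sum_image (fun a _ b _ h => by omega)]
    _ ≤ ∑ n ∈ (Ico X Y).filter (fun n => y ≤ f n ∧ f n < y + H), w n := by
        refine sum_le_sum_of_subset_of_nonneg ?_ (fun n _ _ => hw n)
        intro n hn
        rw [mem_image] at hn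
        obtain ⟨i, hi, rfl⟩ := hn
        rw [mem_range] at hi
        obtain ⟨h7, h8⟩ := hstep i hi
        rw [mem_filter, mem_Ico]
        refine ⟨⟨by omega, h7⟩, ?_, ?_⟩
        · exact hy0.trans (hmono n0 (n0 + i) (by omega) (by omega))
        · refine h8.trans_le ?_
          have : (i + 1) * D ≤ (l + 1) * D := Nat.mul_le_mul_right _ (by omega)
          have h9 : ((i + 1 : ℕ) : ℤ) * D ≤ H := by exact_mod_cast this.trans h6
          linarith
    _ = ∑ n ∈ Ico X Y, w n * (if y ≤ f n ∧ f n < y + H then 1 else 0) := by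
        rw [sum_filter]
        refine sum_congr rfl fun n _ => ?_
        split_ifs <;> simp

variable {α : Type*}

theorem sum_R1 (T : Finset α) (w : α → ℝ) (b : α → ℤ) (A : Finset ℕ) (v : ℕ → ℝ) (d : ℕ → ℤ) (N : ℤ) (H : ℕ) :
    ∑ h ∈ range H, R1 T w b A v d (N + h) =
      ∑ s ∈ T, w s * ∑ n ∈ A, v n * (if N - b s ≤ d n ∧ d n < N - b s + H then 1 else 0) := by
  unfold R1
  rw [sum_comm]
  refine sum_congr rfl fun s _ => ?_
  rw [sum_comm, mul_sum]
  refine sum_congr rfl fun n _ => ?_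
  rw [← mul_sum]
  have h1 : ∑ h ∈ range H, (if b s + d n = N + h then (1 : ℝ) else 0) =
      if N - b s ≤ d n ∧ d n < N - b s + H then 1 else 0 := by
    split_ifs with h
    · rw [sum_eq_single (b s + d n - N).toNat]
      · rw [if_pos]
        omega
      · intro i _ hi
        rw [if_neg]
        omega
      · intro hi
        rw [mem_range] at hi
        omega
    · refine sum_eq_zero fun i hi => ?_
      rw [mem_range] at hi
      rw [if_neg]
      intro h2
      apply h
      omega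
  rw [h1]
  ring

/-- the lower bound for the average -/
theorem lower_avg1 (T : Finset α) (w : α → ℝ) (hw : ∀ s, 0 ≤ w s) (b : α → ℤ) {v : ℕ → ℝ} (hv : ∀ n, 0 ≤ v n)
    {d : ℕ → ℤ} {X Y l D H : ℕ} {κ : ℝ} {N : ℤ}
    (h1 : ∀ n, X ≤ n → d n ≤ d (n + 1)) (h2 : ∀ n, X ≤ n → n < Y → d (n + 1) ≤ d n + D)
    (h3 : ∀ s ∈ T, d X < N - b s) (h4 : ∀ s ∈ T, N - b s + H ≤ d Y)
    (h5 : ∀ n, X ≤ n → n + l ≤ Y → κ ≤ ∑ i ∈ range l, v (n + i)) (hl : 1 ≤ l)
    (h6 : (l + 1) * D ≤ H) (hXY : X ≤ Y) :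
    κ * (∑ s ∈ T, w s) ≤ ∑ h ∈ range H, R1 T w b (Ico X Y) v d (N + h) := by
  rw [sum_R1, mul_sum]
  refine sum_le_sum fun s hs => ?_
  rw [mul_comm]
  refine mul_le_mul_of_nonneg_left ?_ (hw s)
  exact windowB hv h1 h2 (h3 s hs) (h4 s hs) h5 hl h6 hXY

end Pool.Agent.V7H18.RP
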