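import Pool.Agent.V7H18.RP.LowerB
import Pool.Agent.V7H18.RP.Last
import Pool.Agent.V7H18.RP.Grow
import Pool.Agent.V7H89.GP.MvD

/-!
# Growth, weights and the number of pairs
-/

set_option autoImplicit false

namespace Pool.Agent.V7H18.RP

open Finset
open Pool.Agent.V7H89.GP (pf Dio SS II Fd mem_SS mem_II)

/-- the coefficients -/
noncomputable def cc (d : ℕ) (γ b : ℝ) (α : Fin (d + 1) → ℝ) : Fin (d + 2 + 1) → ℝ :=
  Fin.cons b (Fin.snoc (α := fun _ => ℝ) α γ)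

theorem cc_last (d : ℕ) (γ b : ℝ) (α : Fin (d + 1) → ℝ) : cc d γ b α (Fin.last (d + 2)) = γ := by
  unfold cc
  have h : Fin.last (d + 2) = Fin.succ (Fin.last (d + 1)) := rfl
  rw [h, Fin.cons_succ, Fin.snoc_last]

theorem PP_cc (d : ℕ) (γ b : ℝ) (α : Fin (d + 1) → ℝ) (n : ℕ) : PP (cc d γ b α) n = fv d γ b α n := by
  unfold PP fv Pool.Agent.V7H89.GP.pf cc
  rw [Fin.sum_univ_succ, Fin.sum_univ_castSucc]
  simp only [Fin.cons_zero, Fin.cons_succ, Fin.snoc_castSucc, Fin.snoc_last, Fin.val_zero, pow_zero, mul_one,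
    Fin.val_succ, Fin.val_castSucc, Fin.val_last]
  ring

theorem grow_fv (d : ℕ) {γ : ℝ} (hγ : 0 < γ) (b : ℝ) (α : Fin (d + 1) → ℝ) :
    ∃ a : ℝ, 0 < a ∧ ∃ K : ℝ, 0 < K ∧ ∃ x0 : ℝ, 1 ≤ x0 ∧ ∀ n : ℕ, x0 ≤ n →
      (a * (n : ℝ) ^ (d + 2) ≤ fv d γ b α n ∧ fv d γ b α n ≤ 4 * a * (n : ℝ) ^ (d + 2)) ∧
      fv d γ b α n ≤ fv d γ b α (n + 1) ∧
      fv d γ b α (n + 1) ≤ fv d γ b α n + K * ((n : ℝ) + 1) ^ (d + 1) := by
  have hk : 2 ≤ d + 2 := by omega
  have hc : 0 < cc d γ b α (Fin.last (d + 2)) := by rw [cc_last]; exact hγ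
  obtain ⟨a, ha, K, hK, x0, hx0, h⟩ := grow hk hc
  refine ⟨a, ha, K, hK, x0, hx0, ?_⟩
  intro n hn
  have h1 := (h n hn).1
  rw [← PP_eq, PP_cc] at h1
  obtain ⟨ζ, h2, h3, h4⟩ := first_diff (pol (cc d γ b α)) n
  have h5 := (h ζ (hn.trans h2)).2.1
  rw [← h4] at h5
  have h6 : (pol (cc d γ b α)).eval ((n : ℝ) + 1) = fv d γ b α (n + 1) := by
    rw [← PP_cc, PP_eq]
    push_cast
    rfl
  have h7 : (pol (cc d γ b α)).eval (n : ℝ) = fv d γ b α n := by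
    rw [← PP_cc, PP_eq]
  rw [h6, h7] at h5
  have hsub : d + 2 - 1 = d + 1 := by omega
  rw [hsub] at h5
  have hζ0 : 0 ≤ ζ := le_trans (Nat.cast_nonneg n) h2
  have h8 : ζ ^ (d + 1) ≤ ((n : ℝ) + 1) ^ (d + 1) := pow_le_pow_left₀ hζ0 h3 _
  have h9 := mul_le_mul_of_nonneg_left h8 hK.le
  exact ⟨h1, by linarith [h5.1], by linarith [h5.2]⟩

/-- the weight of a tuple -/
noncomputable def wt (d : ℕ) (γ b : ℝ) (α : Fin (d + 1) → ℝ) (s : Fin (d + 2) → ℕ) : ℝ :=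
  ∏ l, phi (fv d γ b α (s l))

/-- the integer of a tuple -/
noncomputable def bt (d : ℕ) (γ b : ℝ) (α : Fin (d + 1) → ℝ) (s : Fin (d + 2) → ℕ) : ℤ :=
  ∑ l, ⌊fv d γ b α (s l)⌋

theorem wt_nonneg (d : ℕ) (γ b : ℝ) (α : Fin (d + 1) → ℝ) (s : Fin (d + 2) → ℕ) : 0 ≤ wt d γ b α s :=
  prod_nonneg fun _ _ => phi_nonneg _

theorem wt_le (d : ℕ) (γ b : ℝ) (α : Fin (d + 1) → ℝ) (s : Fin (d + 2) → ℕ) : wt d γ b α s ≤ 1 :=
  prod_le_one (fun _ _ => phi_nonneg _) fun _ _ => phi_le _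

/-- lower bound for the total weight -/
theorem WT_lower {d : ℕ} {γ b : ℝ} {α : Fin (d + 1) → ℝ} {C : ℕ} {σ : ℝ} {P E : ℕ} (hP : 1 ≤ P) (hE : 2 ≤ E)
    (hσ : 0 < σ) (hσ1 : σ ≤ 1) (hσC : σ * C < 1) (hg : Good d γ b α C σ (E * P))
    (hbig : ((E : ℝ) * P) ^ (1 - σ) ≤ P / (8 * ((d : ℝ) + 2))) :
    ((P : ℝ) / (8 * ((d : ℝ) + 2))) ^ (d + 2) ≤ ∑ s ∈ SS (d + 2) P, wt d γ b α s := by
  have hP1 : (1 : ℝ) ≤ P := by exact_mod_cast hP
  have hE2 : (2 : ℝ) ≤ E := by exact_mod_cast hE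
  have hX : (1 : ℝ) ≤ (E : ℝ) * P := by nlinarith
  have h0 : ∑ s ∈ SS (d + 2) P, wt d γ b α s = ∏ l : Fin (d + 2), ∑ n ∈ II (d + 2) P l, phi (fv d γ b α n) := by
    unfold wt
    rw [prod_univ_sum]
    rfl
  rw [h0]
  have hterm : ∀ l : Fin (d + 2), (P : ℝ) / (8 * ((d : ℝ) + 2)) ≤ ∑ n ∈ II (d + 2) P l, phi (fv d γ b α n) := by
    intro l
    obtain ⟨q, hq⟩ : ∃ q : ℕ, q = 2 * (d + 2) := ⟨_, rfl⟩
    have hq0 : 0 < q := by omega
    obtain ⟨a0, ha0⟩ : ∃ a0 : ℕ, a0 = ((2 * (l : ℕ) + 1) * P + (q - 1)) / q := ⟨_, rfl⟩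
    obtain ⟨L0, hL0⟩ : ∃ L0 : ℕ, L0 = P / q := ⟨_, rfl⟩
    have hmod := Nat.div_add_mod ((2 * (l : ℕ) + 1) * P + (q - 1)) q
    have hmodlt := Nat.mod_lt ((2 * (l : ℕ) + 1) * P + (q - 1)) hq0
    rw [← ha0] at hmod
    have ha1 : (2 * (l : ℕ) + 1) * P ≤ q * a0 := by omega
    have ha2 : q * a0 ≤ (2 * (l : ℕ) + 1) * P + (q - 1) := by omega
    have hL1 : q * L0 ≤ P := by rw [hL0]; exact Nat.mul_div_le P q
    have hL2 : P < q * (L0 + 1) := by
      rw [hL0]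
      exact Nat.lt_mul_div_succ P hq0
    have hlP : (2 * (l : ℕ) + 2) * P ≤ q * P := Nat.mul_le_mul_right _ (by rw [hq]; have := l.2; omega)
    have hsub : (range L0).image (fun i => a0 + i) ⊆ II (d + 2) P l := by
      intro n hn
      rw [mem_image] at hn
      obtain ⟨i, hi, rfl⟩ := hn
      rw [mem_range] at hi
      have hi2 : q * (i + 1) ≤ q * L0 := Nat.mul_le_mul_left _ hi
      have e1 : q * (i + 1) = q * i + q := by ring
      have e2 : q * (a0 + i) = q * a0 + q * i := by ring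
      have e3 : (2 * (l : ℕ) + 2) * P = (2 * (l : ℕ) + 1) * P + P := by ring
      have hup : q * (a0 + i) ≤ (2 * (l : ℕ) + 2) * P := by omega
      have hlo : (2 * (l : ℕ) + 1) * P ≤ q * (a0 + i) := by omega
      rw [mem_II, ← hq]
      refine ⟨⟨?_, ?_⟩, hlo, hup⟩
      · by_contra hcon
        have h3 : a0 + i = 0 := by omega
        rw [h3, mul_zero] at hlo
        have : 0 < (2 * (l : ℕ) + 1) * P := by positivity
        omega
      · exact Nat.le_of_mul_le_mul_left (hup.trans hlP) hq0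
    have hsw := sum_weights (d := d) (γ := γ) (b := b) (α := α) (n := L0) (a := a0) hX hσ hσC hg ?_
    · have h1 : ∑ i ∈ range L0, phi (fv d γ b α (a0 + i)) ≤ ∑ n ∈ II (d + 2) P l, phi (fv d γ b α n) := by
        have h2 : ∑ i ∈ range L0, phi (fv d γ b α (a0 + i)) =
            ∑ n ∈ (range L0).image (fun i => a0 + i), phi (fv d γ b α n) := by
          rw [sum_image (fun a _ b _ h => by omega)]
        rw [h2]
        exact sum_le_sum_of_subset_of_nonneg hsub fun n _ _ => phi_nonneg _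
      refine le_trans ?_ (hsw.trans h1)
      have h2 : (P : ℝ) / (2 * ((d : ℝ) + 2)) ≤ L0 + 1 := by
        rw [div_le_iff₀ (by positivity)]
        have h3 : (P : ℝ) ≤ q * (L0 + 1) := by exact_mod_cast hL2.le
        have h4 : (q : ℝ) = 2 * ((d : ℝ) + 2) := by rw [hq]; push_cast; ring
        rw [h4] at h3
        linarith
      have h5 : (P : ℝ) / (2 * ((d : ℝ) + 2)) = 4 * (P / (8 * ((d : ℝ) + 2))) := by
        field_simp
        norm_num
      have h6 : 1 ≤ ((E : ℝ) * P) ^ (1 - σ) := Real.one_le_rpow hX (by linarith)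
      linarith
    · have h1 : a0 + L0 ≤ E * P := by
        rcases Nat.eq_zero_or_pos L0 with h | h
        · rw [h, add_zero]
          have h2 : q * a0 ≤ q * (2 * P) := by
            have : (2 * (l : ℕ) + 2) * P ≤ q * P := hlP
            have e3 : (2 * (l : ℕ) + 2) * P = (2 * (l : ℕ) + 1) * P + P := by ring
            have e4 : q * (2 * P) = q * P + q * P := by ring
            have e5 : q ≤ q * P := Nat.le_mul_of_pos_right _ hP
            omega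
          have h3 := Nat.le_of_mul_le_mul_left h2 hq0
          have h4 : 2 * P ≤ E * P := Nat.mul_le_mul_right _ hE
          omega
        · have h2 : a0 + (L0 - 1) ∈ II (d + 2) P l := hsub (mem_image.2 ⟨L0 - 1, by rw [mem_range]; omega, rfl⟩)
          rw [mem_II] at h2
          have h4 : 2 * P ≤ E * P := Nat.mul_le_mul_right _ hE
          omega
      exact_mod_cast h1
  calc ((P : ℝ) / (8 * ((d : ℝ) + 2))) ^ (d + 2) = ∏ _l : Fin (d + 2), (P : ℝ) / (8 * ((d : ℝ) + 2)) := by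
        rw [prod_const, card_univ, Fintype.card_fin]
    _ ≤ _ := prod_le_prod (fun _ _ => by positivity) fun l _ => hterm l

theorem bt_close {d : ℕ} {γ b : ℝ} {α : Fin (d + 1) → ℝ} {s s' : Fin (d + 2) → ℕ}
    (h : bt d γ b α s = bt d γ b α s') : |Fd d γ α s - Fd d γ α s'| ≤ d + 2 := by
  have h1 : ∀ s : Fin (d + 2) → ℕ, (bt d γ b α s : ℝ) ≤ Fd d γ α s + (d + 2) * b ∧
      Fd d γ α s + (d + 2) * b ≤ bt d γ b α s + (d + 2) := by
    intro s
    have h2 : Fd d γ α s + (d + 2) * b = ∑ l : Fin (d + 2), fv d γ b α (s l) := by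
      unfold fv Pool.Agent.V7H89.GP.Fd
      rw [sum_add_distrib, sum_const, card_univ, Fintype.card_fin, nsmul_eq_mul]
      push_cast
      ring
    rw [h2]
    unfold bt
    push_cast
    constructor
    · exact sum_le_sum fun l _ => Int.floor_le _
    · calc ∑ l : Fin (d + 2), fv d γ b α (s l) ≤ ∑ l : Fin (d + 2), ((⌊fv d γ b α (s l)⌋ : ℝ) + 1) :=
            sum_le_sum fun l _ => (Int.lt_floor_add_one _).le
        _ = ∑ l : Fin (d + 2), (⌊fv d γ b α (s l)⌋ : ℝ) + (d + 2) := by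
            rw [sum_add_distrib, sum_const, card_univ, Fintype.card_fin, nsmul_eq_mul]
            push_cast
            ring
  obtain ⟨a1, a2⟩ := h1 s
  obtain ⟨b1, b2⟩ := h1 s'
  have h3 : (bt d γ b α s : ℝ) = bt d γ b α s' := by rw [h]
  rw [abs_le]
  constructor <;> linarith

open scoped Classical in
theorem pairs_le (d : ℕ) (γ b : ℝ) (α : Fin (d + 1) → ℝ) (P : ℕ) :
    ∑ s ∈ SS (d + 2) P, ∑ s' ∈ SS (d + 2) P, wt d γ b α s * wt d γ b α s' *
      (if bt d γ b α s = bt d γ b α s' then 1 else 0) ≤ (Pool.Agent.V7H89.GP.TT d γ P α : ℝ) := by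
  unfold Pool.Agent.V7H89.GP.TT
  rw [card_filter, sum_product]
  push_cast
  refine sum_le_sum fun s _ => sum_le_sum fun s' _ => ?_
  have h1 := wt_nonneg d γ b α s
  have h2 := wt_nonneg d γ b α s'
  have h3 := wt_le d γ b α s
  have h4 := wt_le d γ b α s'
  by_cases h : bt d γ b α s = bt d γ b α s'
  · rw [if_pos h, if_pos (bt_close h), mul_one]
    nlinarith
  · rw [if_neg h, mul_zero]
    split_ifs <;> norm_num

/-- a sum of `k + 1` values -/
def Rep (d : ℕ) (γ b : ℝ) (α : Fin (d + 1) → ℝ) (N : ℤ) : Prop :=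
  ∃ x : Fin (d + 3) → ℕ, ∑ i, ⌊fv d γ b α (x i)⌋ = N

theorem rep_of {d : ℕ} {γ b : ℝ} {α : Fin (d + 1) → ℝ} {N : ℤ} {s : Fin (d + 2) → ℕ} {n : ℕ}
    (h : bt d γ b α s + ⌊fv d γ b α n⌋ = N) : Rep d γ b α N := by
  refine ⟨Fin.snoc (α := fun _ => ℕ) s n, ?_⟩
  rw [Fin.sum_univ_castSucc]
  simp only [Fin.snoc_castSucc, Fin.snoc_last]
  exact h

end Pool.Agent.V7H18.RP
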